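import Pool.Agent.Lib.MP_562b47_mp.BG.SolB

/-!
# BG-Cross: `u / ww` is almost continuous across the nodes

Proof. `x` is a node with `b ∣ x₁`, `b ∤ x₂`. Equation at `x`: `‖W x u x - nbs u x‖ ≤ F` with `‖W x‖ ≤ 1`
(`W x = i`), `‖u x‖ ≤ η`, and the two neighbours `(x₁, x₂ ± 1)` are nodes (values `≤ η`), so
`‖u (x₁+1, x₂) + u (x₁-1, x₂)‖ ≤ F + 3 η`. The points `y± = (x₁ ± 1, x₂)` are not nodes and
`ww y₊ = - ww y₋`, so `u y₊/ww y₊ - u y₋/ww y₋ = (u y₊ + u y₋)/ww y₊`, and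
`|ww y₊| ≥ pm z^{2N}` (or use `y₋` if only `|x₁ - 1| < b N`; here both are `< b N`). The same vertically.
-/

namespace Pool.Agent.Lib.MP_562b47_mp.BG

variable {b : ℤ} {z : ℝ}

private theorem cross_aux (a1 a2 : ℂ) (w1 w2 S L : ℝ) (h : w1 = -w2) (hL : 0 < L)
    (hw : L ≤ |w1|) (hs : ‖a1 + a2‖ ≤ S) : ‖a1 / (w1 : ℂ) - a2 / (w2 : ℂ)‖ ≤ S / L := by
  have hw2 : w2 = -w1 := by linarith
  have hne : (w1 : ℂ) ≠ 0 := by
    intro h0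
    have h1 : w1 = 0 := by exact_mod_cast h0
    rw [h1, abs_zero] at hw
    linarith
  have h1 : a1 / (w1 : ℂ) - a2 / (w2 : ℂ) = (a1 + a2) / (w1 : ℂ) := by
    rw [hw2]
    push_cast
    rw [div_neg, sub_neg_eq_add, add_div]
  rw [h1, norm_div, Complex.norm_real, Real.norm_eq_abs]
  exact div_le_div₀ (le_trans (norm_nonneg _) hs) hs hL hw

private theorem cross_sum (a0 a1 a2 a3 a4 : ℂ) (F η : ℝ)
    (h : ‖Complex.I * a0 - (a1 + a2 + a3 + a4)‖ ≤ F) (h0 : ‖a0‖ ≤ η) (h3 : ‖a3‖ ≤ η)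
    (h4 : ‖a4‖ ≤ η) : ‖a1 + a2‖ ≤ F + 3 * η := by
  have h5 : a1 + a2 = Complex.I * a0 - (Complex.I * a0 - (a1 + a2 + a3 + a4)) - a3 - a4 := by
    ring
  rw [h5]
  have h6 := norm_sub_le (Complex.I * a0 - (Complex.I * a0 - (a1 + a2 + a3 + a4)) - a3) a4
  have h7 := norm_sub_le (Complex.I * a0 - (Complex.I * a0 - (a1 + a2 + a3 + a4))) a3
  have h8 := norm_sub_le (Complex.I * a0) (Complex.I * a0 - (a1 + a2 + a3 + a4))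
  have h9 : ‖Complex.I * a0‖ = ‖a0‖ := by rw [norm_mul, Complex.norm_I, one_mul]
  linarith

private theorem cross_nd1 (hb : 3 ≤ b) {n : ℤ} (h : b ∣ n) : ¬ b ∣ n + 1 := by
  intro h1
  have h2 : b ∣ 1 := by
    have := Int.dvd_sub h1 h
    rwa [add_sub_cancel_left] at this
  have := Int.le_of_dvd one_pos h2
  omega

theorem cross_ratio1 (hb : 3 ≤ b) (hz : 0 < z) (hz1 : z < 1) (P : Prof b z) (pm : ℝ)
    (hpm : 0 < pm)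
    (hlow : ∀ N : ℕ, 1 ≤ N → ∀ x : ℤ × ℤ, ¬ node b x → |x.1| < b * N → |x.2| < b * N →
      pm * z ^ (2 * N) ≤ |ww b z P.p x|)
    (N : ℕ) (hN : 1 ≤ N) (u : ℤ × ℤ → ℂ) (F η : ℝ) (hF : 0 ≤ F) (hη : 0 ≤ η)
    (hu : ∀ x, node b x → ‖u x‖ ≤ η)
    (h : ∀ x, node b x → |x.1| < b * N → |x.2| < b * N → ‖Complex.I * u x - nbs u x‖ ≤ F)
    (x : ℤ × ℤ) (h1 : b ∣ x.1) (h2 : ¬ b ∣ x.2) (h3 : |x.1 + 1| < b * N) (h4 : |x.1 - 1| < b * N)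
    (h5 : |x.2| < b * N) :
    ‖u (x.1 + 1, x.2) / (ww b z P.p (x.1 + 1, x.2) : ℂ) -
      u (x.1 - 1, x.2) / (ww b z P.p (x.1 - 1, x.2) : ℂ)‖ ≤ (F + 3 * η) / (pm * z ^ (2 * N)) := by
  have h6 : |x.1| < b * N := by
    rw [abs_lt] at h3 h4 ⊢
    constructor <;> linarith [h3.1, h3.2, h4.1, h4.2]
  have hx : node b x := Or.inl h1
  have he := h x hx h6 h5
  refine cross_aux _ _ _ _ _ _ (ww_cross1 hb P h1) (by positivity) ?_ ?_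
  · refine hlow N hN (x.1 + 1, x.2) ?_ h3 h5
    rintro (h7 | h7)
    · exact cross_nd1 hb h1 h7
    · exact h2 h7
  · exact cross_sum (u x) _ _ (u (x.1, x.2 + 1)) (u (x.1, x.2 - 1)) F η he (hu x hx)
      (hu _ (Or.inl h1)) (hu _ (Or.inl h1))

theorem cross_ratio2 (hb : 3 ≤ b) (hz : 0 < z) (hz1 : z < 1) (P : Prof b z) (pm : ℝ)
    (hpm : 0 < pm)
    (hlow : ∀ N : ℕ, 1 ≤ N → ∀ x : ℤ × ℤ, ¬ node b x → |x.1| < b * N → |x.2| < b * N →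
      pm * z ^ (2 * N) ≤ |ww b z P.p x|)
    (N : ℕ) (hN : 1 ≤ N) (u : ℤ × ℤ → ℂ) (F η : ℝ) (hF : 0 ≤ F) (hη : 0 ≤ η)
    (hu : ∀ x, node b x → ‖u x‖ ≤ η)
    (h : ∀ x, node b x → |x.1| < b * N → |x.2| < b * N → ‖Complex.I * u x - nbs u x‖ ≤ F)
    (x : ℤ × ℤ) (h1 : b ∣ x.2) (h2 : ¬ b ∣ x.1) (h3 : |x.2 + 1| < b * N) (h4 : |x.2 - 1| < b * N)
    (h5 : |x.1| < b * N) :
    ‖u (x.1, x.2 + 1) / (ww b z P.p (x.1, x.2 + 1) : ℂ) -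
      u (x.1, x.2 - 1) / (ww b z P.p (x.1, x.2 - 1) : ℂ)‖ ≤ (F + 3 * η) / (pm * z ^ (2 * N)) := by
  have h6 : |x.2| < b * N := by
    rw [abs_lt] at h3 h4 ⊢
    constructor <;> linarith [h3.1, h3.2, h4.1, h4.2]
  have hx : node b x := Or.inr h1
  have he := h x hx h5 h6
  refine cross_aux _ _ _ _ _ _ (ww_cross2 hb P h1) (by positivity) ?_ ?_
  · refine hlow N hN (x.1, x.2 + 1) ?_ h5 h3
    rintro (h7 | h7)
    · exact h2 h7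
    · exact cross_nd1 hb h1 h7
  · refine cross_sum (u x) _ _ (u (x.1 + 1, x.2)) (u (x.1 - 1, x.2)) F η ?_ (hu x hx)
      (hu _ (Or.inr h1)) (hu _ (Or.inr h1))
    have h7 : u (x.1, x.2 + 1) + u (x.1, x.2 - 1) + u (x.1 + 1, x.2) + u (x.1 - 1, x.2) =
        nbs u x := by
      unfold nbs
      ring
    rw [h7]
    exact he

end Pool.Agent.Lib.MP_562b47_mp.BG
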