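import Pool.Agent.Lib.MP_562b47_mp.BG.Defs

/-!
# BG-Energy: the imaginary part of the quadratic form

Proof. `∑_{x ∈ T} conj (u x) * nbs u x` is real: since `u = 0` outside the finite set `T`,
`∑_{x ∈ T} conj (u x) u (x₁+1, x₂)` is the complex conjugate of `∑_{x ∈ T} conj (u x) u (x₁-1, x₂)`
(shift of variables; e.g. write the sums as sums over a big box containing `T` and its neighbours,
or as `tsum`/`finsum` over `ℤ × ℤ`, invariant under translation), and the same in the second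
coordinate. So its imaginary part is `0`; `conj (u x) * (W x * u x) = W x * ‖u x‖²`.
-/

open Finset

namespace Pool.Agent.Lib.MP_562b47_mp.BG

private theorem half (T : Finset (ℤ × ℤ)) (u : ℤ × ℤ → ℂ) (hu : ∀ x, x ∉ T → u x = 0)
    (f : ℤ × ℤ ≃ ℤ × ℤ) :
    ∑ x ∈ T, (starRingEnd ℂ) (u x) * u (f.symm x) =
      (starRingEnd ℂ) (∑ x ∈ T, (starRingEnd ℂ) (u x) * u (f x)) := by
  rw [map_sum]
  have e1 : ∑ x ∈ T, (starRingEnd ℂ) (u x) * u (f.symm x) =
      ∑' x, (starRingEnd ℂ) (u x) * u (f.symm x) := by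
    rw [tsum_eq_sum]
    intro x hx
    rw [hu x hx, map_zero, zero_mul]
  have e2 : ∑ x ∈ T, (starRingEnd ℂ) ((starRingEnd ℂ) (u x) * u (f x)) =
      ∑' x, (starRingEnd ℂ) ((starRingEnd ℂ) (u x) * u (f x)) := by
    rw [tsum_eq_sum]
    intro x hx
    rw [hu x hx, map_zero, zero_mul, map_zero]
  rw [e1, e2, ← f.tsum_eq]
  refine tsum_congr fun x => ?_
  rw [map_mul, Complex.conj_conj, f.symm_apply_apply, mul_comm]

private theorem im_pair (T : Finset (ℤ × ℤ)) (u : ℤ × ℤ → ℂ) (hu : ∀ x, x ∉ T → u x = 0)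
    (f : ℤ × ℤ ≃ ℤ × ℤ) :
    (∑ x ∈ T, (starRingEnd ℂ) (u x) * u (f x)).im +
      (∑ x ∈ T, (starRingEnd ℂ) (u x) * u (f.symm x)).im = 0 := by
  rw [half T u hu f, Complex.conj_im]
  ring

theorem energy (T : Finset (ℤ × ℤ)) (W u : ℤ × ℤ → ℂ) (hu : ∀ x, x ∉ T → u x = 0) :
    (∑ x ∈ T, (starRingEnd ℂ) (u x) * (W x * u x - nbs u x)).im =
      ∑ x ∈ T, (W x).im * ‖u x‖ ^ 2 := by
  have h1 := im_pair T u hu (Equiv.prodCongr (Equiv.addRight (1 : ℤ)) (Equiv.refl ℤ))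
  have h2 := im_pair T u hu (Equiv.prodCongr (Equiv.refl ℤ) (Equiv.addRight (1 : ℤ)))
  have e : ∀ x ∈ T, (starRingEnd ℂ) (u x) * (W x * u x - nbs u x) =
      W x * ((‖u x‖ ^ 2 : ℝ) : ℂ) -
      ((starRingEnd ℂ) (u x) * u ((Equiv.prodCongr (Equiv.addRight (1 : ℤ)) (Equiv.refl ℤ)) x) +
      (starRingEnd ℂ) (u x) *
        u ((Equiv.prodCongr (Equiv.addRight (1 : ℤ)) (Equiv.refl ℤ)).symm x) +
      ((starRingEnd ℂ) (u x) * u ((Equiv.prodCongr (Equiv.refl ℤ) (Equiv.addRight (1 : ℤ))) x) +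
      (starRingEnd ℂ) (u x) *
        u ((Equiv.prodCongr (Equiv.refl ℤ) (Equiv.addRight (1 : ℤ))).symm x))) := by
    intro x _
    have h3 : (starRingEnd ℂ) (u x) * u x = ((‖u x‖ ^ 2 : ℝ) : ℂ) := by
      rw [Complex.conj_mul']
      push_cast
      rfl
    have h4 : nbs u x = u ((Equiv.prodCongr (Equiv.addRight (1 : ℤ)) (Equiv.refl ℤ)) x) +
        u ((Equiv.prodCongr (Equiv.addRight (1 : ℤ)) (Equiv.refl ℤ)).symm x) +
        u ((Equiv.prodCongr (Equiv.refl ℤ) (Equiv.addRight (1 : ℤ))) x) +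
        u ((Equiv.prodCongr (Equiv.refl ℤ) (Equiv.addRight (1 : ℤ))).symm x) := rfl
    rw [h4, ← h3]
    ring
  rw [Finset.sum_congr rfl e, Finset.sum_sub_distrib, Finset.sum_add_distrib,
    Finset.sum_add_distrib, Finset.sum_add_distrib, Complex.sub_im, Complex.add_im, Complex.add_im,
    Complex.add_im, h1, h2, add_zero, sub_zero, Complex.im_sum]
  refine Finset.sum_congr rfl fun x _ => ?_
  rw [Complex.im_mul_ofReal]

end Pool.Agent.Lib.MP_562b47_mp.BG
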