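import Pool.Agent.Lib.MP_562b47_mp.BG.Defs

/-!
# BG-Walk: walking along a line and jumping over the nodes

Proof. By induction on `n ≥ 1` (`n < m`, `b ∤ n`): `‖q n - q 1‖ ≤ (n - 1) ε` : if `b ∤ n - 1` use `h1` at `n - 1`,
otherwise `n - 1 ≥ b ≥ 3` (or `n - 1 = 0`, i.e. `n = 1`) use `h2` at `n - 1` to come from `n - 2`. Then `-1`: `h2` at
`0` gives `‖q 1 - q (-1)‖ ≤ ε` (`m ≥ 3`), and `n ≤ -1` by the same induction going to the left:
`‖q n - q 1‖ ≤ |n| ε`. In all cases `≤ 2 m ε`.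
-/

namespace Pool.Agent.Lib.MP_562b47_mp.BG

private theorem walk_pos {b m : ℤ} (hb : 3 ≤ b) (q : ℤ → ℂ) (ε : ℝ)
    (h1 : ∀ n, ¬ b ∣ n → ¬ b ∣ n + 1 → |n| < m → |n + 1| < m → ‖q (n + 1) - q n‖ ≤ ε)
    (h2 : ∀ n, b ∣ n → |n + 1| < m → |n - 1| < m → ‖q (n + 1) - q (n - 1)‖ ≤ ε)
    (k : ℕ) : ∀ n : ℤ, n = (k : ℤ) + 1 → n < m → ¬ b ∣ n → ‖q n - q 1‖ ≤ k * ε := by
  induction k using Nat.strong_induction_on with
  | _ k ih =>
    intro n hn hnm hbn
    rcases Nat.eq_zero_or_pos k with h0 | h0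
    · subst h0
      have : n = 1 := by simpa using hn
      subst this
      simp
    · by_cases hd : b ∣ n - 1
      · have hk2 : 2 ≤ k := by
          by_contra hc
          have hk1 : k = 1 := by omega
          have : n - 1 = 1 := by rw [hn, hk1]; norm_num
          rw [this] at hd
          have := Int.le_of_dvd one_pos hd
          omega
        have hε : 0 ≤ ε := by
          refine (norm_nonneg _).trans (h2 (n - 1) hd ?_ ?_) <;> rw [abs_lt] <;> constructor <;> omega
        have h3 := ih (k - 2) (by omega) (n - 2) (by omega) (by omega) (fun hc => by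
          have : b ∣ 1 := by
            have := dvd_sub hd hc
            have e : n - 1 - (n - 2) = 1 := by ring
            rwa [e] at this
          have := Int.le_of_dvd one_pos this
          omega)
        have h4 := h2 (n - 1) hd (by rw [abs_lt]; constructor <;> omega)
          (by rw [abs_lt]; constructor <;> omega)
        have e1 : n - 1 + 1 = n := by ring
        have e2 : n - 1 - 1 = n - 2 := by ring
        rw [e1, e2] at h4
        have h5 : ‖q n - q 1‖ ≤ ‖q n - q (n - 2)‖ + ‖q (n - 2) - q 1‖ := by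
          have : q n - q 1 = (q n - q (n - 2)) + (q (n - 2) - q 1) := by ring
          rw [this]
          exact norm_add_le _ _
        have h6 : ((k - 2 : ℕ) : ℝ) = k - 2 := by
          rw [Nat.cast_sub hk2]
          norm_num
        rw [h6] at h3
        nlinarith
      · have h3 := ih (k - 1) (by omega) (n - 1) (by omega) (by omega) hd
        have e1 : n - 1 + 1 = n := by ring
        have h4 := h1 (n - 1) hd (by rwa [e1]) (by rw [abs_lt]; constructor <;> omega)
          (by rw [abs_lt]; constructor <;> omega)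
        rw [e1] at h4
        have h5 : ‖q n - q 1‖ ≤ ‖q n - q (n - 1)‖ + ‖q (n - 1) - q 1‖ := by
          have : q n - q 1 = (q n - q (n - 1)) + (q (n - 1) - q 1) := by ring
          rw [this]
          exact norm_add_le _ _
        have h6 : ((k - 1 : ℕ) : ℝ) = k - 1 := by
          rw [Nat.cast_sub (by omega)]
          norm_num
        rw [h6] at h3
        nlinarith

private theorem walk_neg {b m : ℤ} (hb : 3 ≤ b) (q : ℤ → ℂ) (ε : ℝ)
    (h1 : ∀ n, ¬ b ∣ n → ¬ b ∣ n + 1 → |n| < m → |n + 1| < m → ‖q (n + 1) - q n‖ ≤ ε)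
    (h2 : ∀ n, b ∣ n → |n + 1| < m → |n - 1| < m → ‖q (n + 1) - q (n - 1)‖ ≤ ε)
    (k : ℕ) (n : ℤ) (hn : n = -(k : ℤ) - 1) (hnm : -m < n) (hbn : ¬ b ∣ n) :
    ‖q n - q (-1)‖ ≤ k * ε := by
  have h := walk_pos (m := m) hb (fun j => q (-j)) ε (fun j hj hj1 hm1 hm2 => by
    have := h1 (-j - 1) (by
      intro hc
      apply hj1
      have e : -j - 1 = -(j + 1) := by ring
      rw [e] at hc
      exact (dvd_neg.1 hc)) (by
      have e : -j - 1 + 1 = -j := by ring
      rw [e]
      exact fun hc => hj (dvd_neg.1 hc)) (by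
      have e : -j - 1 = -(j + 1) := by ring
      rw [e, abs_neg]
      exact hm2) (by
      have e : -j - 1 + 1 = -j := by ring
      rw [e, abs_neg]
      exact hm1)
    have e : -j - 1 + 1 = -j := by ring
    have e2 : -(j + 1) = -j - 1 := by ring
    rw [e] at this
    show ‖q (-(j + 1)) - q (-j)‖ ≤ ε
    rw [e2, norm_sub_rev]
    exact this) (fun j hj hm1 hm2 => by
    have := h2 (-j) ((dvd_neg).2 hj) (by
      have e : -j + 1 = -(j - 1) := by ring
      rw [e, abs_neg]
      exact hm2) (by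
      have e : -j - 1 = -(j + 1) := by ring
      rw [e, abs_neg]
      exact hm1)
    show ‖q (-(j + 1)) - q (-(j - 1))‖ ≤ ε
    have e1 : -(j + 1) = -j - 1 := by ring
    have e2 : -(j - 1) = -j + 1 := by ring
    rw [e1, e2, norm_sub_rev]
    exact this) k (-n) (by omega) (by omega) (fun hc => hbn ((dvd_neg).1 hc))
  simpa using h

theorem walk {b m : ℤ} (hb : 3 ≤ b) (hm : 3 ≤ m) (q : ℤ → ℂ) (ε : ℝ) (hε : 0 ≤ ε)
    (h1 : ∀ n, ¬ b ∣ n → ¬ b ∣ n + 1 → |n| < m → |n + 1| < m → ‖q (n + 1) - q n‖ ≤ ε)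
    (h2 : ∀ n, b ∣ n → |n + 1| < m → |n - 1| < m → ‖q (n + 1) - q (n - 1)‖ ≤ ε)
    (n : ℤ) (hn : ¬ b ∣ n) (hnm : |n| < m) : ‖q n - q 1‖ ≤ 2 * m * ε := by
  have hmR : (3 : ℝ) ≤ m := by exact_mod_cast hm
  have hn0 : n ≠ 0 := by
    rintro rfl
    exact hn (dvd_zero b)
  have hle := abs_lt.1 hnm
  rcases lt_or_gt_of_ne hn0 with h | h
  · obtain ⟨k, hk⟩ : ∃ k : ℕ, n = -(k : ℤ) - 1 := ⟨(-n - 1).toNat, by omega⟩
    have h3 := walk_neg hb q ε h1 h2 k n hk hle.1 hn
    have h4 : ‖q 1 - q (-1)‖ ≤ ε := by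
      have := h2 0 (dvd_zero b) (by norm_num; linarith) (by norm_num; linarith)
      simpa using this
    have h5 : ‖q n - q 1‖ ≤ ‖q n - q (-1)‖ + ‖q 1 - q (-1)‖ := by
      have : q n - q 1 = (q n - q (-1)) - (q 1 - q (-1)) := by ring
      rw [this]
      exact norm_sub_le _ _
    have h6 : (k : ℝ) + 1 ≤ m := by
      have : (k : ℤ) + 1 ≤ m := by omega
      exact_mod_cast this
    nlinarith [mul_le_mul_of_nonneg_right h6 hε]
  · obtain ⟨k, hk⟩ : ∃ k : ℕ, n = (k : ℤ) + 1 := ⟨(n - 1).toNat, by omega⟩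
    have h3 := walk_pos hb q ε h1 h2 k n hk hle.2 hn
    have h6 : (k : ℝ) ≤ m := by
      have : (k : ℤ) ≤ m := by omega
      exact_mod_cast this
    nlinarith [mul_le_mul_of_nonneg_right h6 hε]

end Pool.Agent.Lib.MP_562b47_mp.BG
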