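import Pool.Agent.Lib.MP_562b47_mp.BG.Ratio
import Pool.Agent.Lib.MP_562b47_mp.BG.Cross
import Pool.Agent.Lib.MP_562b47_mp.BG.Walk
import Pool.Agent.Lib.MP_562b47_mp.BG.Energy

/-!
# BG-APri: the a priori estimate with absorbing nodes

`Wi x = i` at the nodes, `Ve x` elsewhere. `m = b N`, `D = (2m-1)² ≤ 4 b² N²` = number of sites of `qi m`.

Proof. Let `X = sup ‖u‖` (finite support). We may assume `F > 0` or treat `F = 0` by the same formulas.
(1) `energy` with `T = inn m`: the left side is at most `∑ ‖u‖ F ≤ D X F`; the right side is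
`∑_{x ∈ inn m, node} ‖u x‖²`. So `‖u x‖ ≤ η := √(D X F)` at every node (`u = 0` outside `inn m`).
(2) For a non-node `x ≠ (1,1)` with `|x_j| < b N`: `nbs u x = nbs (msk u) x + (at most 4 node values)`, so
`‖Ve x u x - nbs (msk u) x‖ ≤ F + 4 η =: G`, and `cell_ratio` applies.
(3) `cross_ratio1/2` apply (nodes are `≠ (1,1)`, they belong to `inn m`).
(4) Put `ε₀ := (2 CM + 1) (F + 4 η) / (pm z^{2N})`, a bound for the right sides in (2), (3). `q x = u x / ww x`,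
`q (1,1) = 0`. `walk` on the line `x₂ = 1`: `‖q (x₁, 1) - q (1,1)‖ ≤ 2 m ε₀` for `b ∤ x₁`; `walk` on the vertical
line: `‖q (x₁, x₂) - q (x₁, 1)‖ ≤ 2 m ε₀`. (In `walk`, `h1` is `cell_ratio`: `n, n+1` both not divisible by `b`
gives `n / b = (n+1) / b`.) So `‖u x‖ ≤ 4 m ε₀ pM` at non-nodes, `≤ η` at nodes:
`X ≤ M₁ (F + η)`, `M₁ = C N z^{-2N}` (≥ 1), with `C` depending on `b, CM, pm, pM` only.
(5) `M₁ η = M₁ √(D X F) ≤ X/2 + M₁² D F/2`, so `X ≤ (2 M₁ + M₁² D) F ≤ C' N⁴ z^{-4N} F`.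
-/

namespace Pool.Agent.Lib.MP_562b47_mp.BG

variable {b : ℤ} {z : ℝ}

/-- the effective diagonal with absorbing nodes -/
noncomputable def Wi (b : ℤ) (p : ℤ × ℤ → ℝ) (x : ℤ × ℤ) : ℂ :=
  if node b x then Complex.I else (Ve b p x : ℂ)

private theorem APri_div {b n : ℤ} (hb : 0 < b) (h : ¬ b ∣ n + 1) : (n + 1) / b = n / b := by
  have h1 : n % b + 1 < b := by
    have h2 := Int.emod_lt_of_pos n hb
    rcases lt_or_eq_of_le (Int.add_one_le_iff.2 h2) with h3 | h3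
    · exact h3
    · exfalso
      apply h
      refine ⟨n / b + 1, ?_⟩
      have h4 := Int.emod_add_mul_ediv n b
      linarith
  have h2 := Int.emod_nonneg n hb.ne'
  have h4 := Int.emod_add_mul_ediv n b
  have h5 : n % b + 1 + b * (n / b) = n + 1 ∧ 0 ≤ n % b + 1 ∧ n % b + 1 < b :=
    ⟨by linarith, by linarith, h1⟩
  exact ((Int.ediv_emod_unique hb).2 h5).1

private theorem APri_not_dvd {b : ℤ} (hb : 3 ≤ b) : ¬ b ∣ 1 := by
  intro h
  have := Int.le_of_dvd one_pos h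
  omega

private theorem APri_mem {m : ℤ} {x : ℤ × ℤ} (h1 : |x.1| < m) (h2 : |x.2| < m)
    (h3 : x ≠ (1, 1)) : x ∈ inn m := by
  unfold inn qi
  rw [Finset.mem_erase, Finset.mem_product, Finset.mem_Icc, Finset.mem_Icc]
  rw [abs_lt] at h1 h2
  exact ⟨h3, ⟨by omega, by omega⟩, by omega, by omega⟩

private theorem APri_mem' {m : ℤ} {x : ℤ × ℤ} (h : x ∈ inn m) : |x.1| < m ∧ |x.2| < m := by
  unfold inn qi at h
  rw [Finset.mem_erase, Finset.mem_product, Finset.mem_Icc, Finset.mem_Icc] at h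
  rw [abs_lt, abs_lt]
  obtain ⟨-, ⟨h1, h2⟩, h3, h4⟩ := h
  exact ⟨⟨by omega, by omega⟩, by omega, by omega⟩

private theorem APri_card {m : ℤ} (hm : 1 ≤ m) : ((inn m).card : ℝ) ≤ (2 * m) ^ 2 := by
  have h1 : (inn m).card ≤ (qi m).card := Finset.card_le_card (Finset.erase_subset _ _)
  have h2 : (qi m).card = (2 * m - 1).toNat * (2 * m - 1).toNat := by
    unfold qi
    rw [Finset.card_product, Int.card_Icc]
    congr 2 <;> ring
  have h3 : (((2 * m - 1).toNat : ℕ) : ℝ) = 2 * m - 1 := by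
    have h4 : (((2 * m - 1).toNat : ℕ) : ℤ) = 2 * m - 1 := Int.toNat_of_nonneg (by omega)
    exact_mod_cast h4
  have h4 : ((inn m).card : ℝ) ≤ ((qi m).card : ℝ) := by exact_mod_cast h1
  rw [h2] at h4
  push_cast at h4
  rw [h3] at h4
  have h5 : (1 : ℝ) ≤ m := by exact_mod_cast hm
  nlinarith

/-- the node values -/
private theorem APri_node {b m : ℤ} {p : ℤ × ℤ → ℝ} (u : ℤ × ℤ → ℂ) (F X : ℝ) (hF : 0 ≤ F)
    (hm : 1 ≤ m) (hX : ∀ x, ‖u x‖ ≤ X) (h0 : ∀ x, x ∉ inn m → u x = 0)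
    (h : ∀ x ∈ inn m, ‖Wi b p x * u x - nbs u x‖ ≤ F) (x : ℤ × ℤ) (hx : node b x) :
    ‖u x‖ ≤ Real.sqrt ((2 * m) ^ 2 * X * F) := by
  have hX0 : 0 ≤ X := (norm_nonneg _).trans (hX (0, 0))
  by_cases hxm : x ∈ inn m
  · apply Real.le_sqrt_of_sq_le
    have h1 := energy (inn m) (Wi b p) u h0
    have h2 : (∑ x ∈ inn m, (starRingEnd ℂ) (u x) * (Wi b p x * u x - nbs u x)).im ≤
        (2 * m) ^ 2 * X * F := by
      refine (Complex.im_le_norm _).trans ((norm_sum_le _ _).trans ?_)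
      have h3 : ∀ y ∈ inn m, ‖(starRingEnd ℂ) (u y) * (Wi b p y * u y - nbs u y)‖ ≤ X * F := by
        intro y hy
        rw [norm_mul, RCLike.norm_conj]
        exact mul_le_mul (hX y) (h y hy) (norm_nonneg _) hX0
      refine (Finset.sum_le_card_nsmul _ _ _ h3).trans ?_
      rw [nsmul_eq_mul, mul_assoc]
      exact mul_le_mul_of_nonneg_right (APri_card hm) (mul_nonneg hX0 hF)
    have h3 : ∀ y ∈ inn m, 0 ≤ (Wi b p y).im * ‖u y‖ ^ 2 := by
      intro y _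
      refine mul_nonneg ?_ (sq_nonneg _)
      unfold Wi
      split_ifs
      · simp
      · simp
    have h4 := Finset.single_le_sum h3 hxm
    have h5 : (Wi b p x).im = 1 := by
      unfold Wi
      rw [if_pos hx]
      simp
    rw [h5, one_mul] at h4
    linarith
  · rw [h0 x hxm, norm_zero]
    exact Real.sqrt_nonneg _

theorem apri (hb : 3 ≤ b) (hz : 0 < z) (hz1 : z < 1) (P : Prof b z) {CM : ℝ} (hC : 0 < CM)
    (hP : CellEst b P.p CM) :
    ∃ C : ℝ, 1 ≤ C ∧ ∀ N : ℕ, 1 ≤ N → ∀ (u : ℤ × ℤ → ℂ) (F : ℝ), 0 ≤ F →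
      (∀ x, x ∉ inn (b * N) → u x = 0) →
      (∀ x ∈ inn (b * N), ‖Wi b P.p x * u x - nbs u x‖ ≤ F) →
      ∀ x, ‖u x‖ ≤ C * (N : ℝ) ^ 4 * (z⁻¹) ^ (4 * N) * F := by
  obtain ⟨pm, hpm, hlow⟩ := ww_lower hb hz hz1 P
  obtain ⟨pM, hpM, hup, -⟩ := ww_upper hb hz hz1 P
  have hbr : (3 : ℝ) ≤ b := by exact_mod_cast hb
  set K : ℝ := 4 * b * pM * (2 * CM + 1) / pm with hK
  have hK0 : 0 ≤ K := by
    rw [hK]
    have : (0 : ℝ) < b := by linarith
    positivity
  refine ⟨6 * b ^ 2 * (4 * K + 1) ^ 2, ?_, ?_⟩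
  · have h1 : (1 : ℝ) ≤ (4 * K + 1) ^ 2 := by nlinarith
    have h2 : (1 : ℝ) ≤ 6 * (b : ℝ) ^ 2 := by nlinarith
    calc (1 : ℝ) = 1 * 1 := by ring
      _ ≤ 6 * (b : ℝ) ^ 2 * (4 * K + 1) ^ 2 := mul_le_mul h2 h1 zero_le_one (by positivity)
  intro N hN u F hF h0 h
  have hNr : (1 : ℝ) ≤ N := by exact_mod_cast hN
  have hNz : (1 : ℤ) ≤ N := by exact_mod_cast hN
  set m : ℤ := b * N with hm
  have hm3 : 3 ≤ m := by nlinarith
  have hmr : (m : ℝ) = b * N := by rw [hm]; push_cast; ring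
  have hone : |(1 : ℤ)| < m := by rw [abs_one]; omega
  -- the maximum
  have hne : (inn m).Nonempty := ⟨(0, 0), APri_mem (by simp; omega) (by simp; omega) (by simp)⟩
  obtain ⟨xs, hxs, hmax⟩ := Finset.exists_max_image (inn m) (fun x => ‖u x‖) hne
  set X : ℝ := ‖u xs‖ with hXd
  have hX0 : 0 ≤ X := norm_nonneg _
  have hX : ∀ x, ‖u x‖ ≤ X := by
    intro x
    by_cases hx : x ∈ inn m
    · exact hmax x hx
    · rw [h0 x hx, norm_zero]
      exact hX0
  set D : ℝ := (2 * m) ^ 2 with hD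
  have hD0 : 0 ≤ D := by positivity
  set η : ℝ := Real.sqrt (D * X * F) with hη
  have hη0 : 0 ≤ η := Real.sqrt_nonneg _
  have hη2 : η ^ 2 = D * X * F := Real.sq_sqrt (by positivity)
  have hnode : ∀ x, node b x → ‖u x‖ ≤ η := fun x hx =>
    APri_node u F X hF (by omega) hX h0 h x hx
  have hzN : 0 < z ^ (2 * N) := pow_pos hz _
  have hn11 : ¬ node b (1, 1) := by
    unfold node
    rintro (h1 | h1) <;> exact APri_not_dvd hb h1
  -- equations
  have hG : ∀ x, ¬ node b x → |x.1| < b * N → |x.2| < b * N → x ≠ (1, 1) →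
      ‖(Ve b P.p x : ℂ) * u x - nbs (msk b u) x‖ ≤ F + 4 * η := by
    intro x hx h1 h2 h3
    have h4 := h x (APri_mem h1 h2 h3)
    have h5 : Wi b P.p x = (Ve b P.p x : ℂ) := by
      unfold Wi
      rw [if_neg hx]
    rw [h5] at h4
    have h6 : ∀ y, ‖u y - msk b u y‖ ≤ η := by
      intro y
      unfold msk
      split_ifs with hy
      · rw [sub_zero]
        exact hnode y hy
      · rw [sub_self, norm_zero]
        exact hη0
    have h7 : ‖nbs u x - nbs (msk b u) x‖ ≤ 4 * η := by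
      have h8 : nbs u x - nbs (msk b u) x =
          (u (x.1 + 1, x.2) - msk b u (x.1 + 1, x.2)) +
          (u (x.1 - 1, x.2) - msk b u (x.1 - 1, x.2)) +
          (u (x.1, x.2 + 1) - msk b u (x.1, x.2 + 1)) +
          (u (x.1, x.2 - 1) - msk b u (x.1, x.2 - 1)) := by
        unfold nbs
        ring
      rw [h8]
      have g1 := h6 (x.1 + 1, x.2)
      have g2 := h6 (x.1 - 1, x.2)
      have g3 := h6 (x.1, x.2 + 1)
      have g4 := h6 (x.1, x.2 - 1)
      refine (norm_add_le _ _).trans ?_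
      refine (add_le_add_left ((norm_add_le _ _).trans
        (add_le_add_left (norm_add_le _ _) _)) _).trans ?_
      linarith
    calc ‖(Ve b P.p x : ℂ) * u x - nbs (msk b u) x‖ =
        ‖((Ve b P.p x : ℂ) * u x - nbs u x) + (nbs u x - nbs (msk b u) x)‖ := by
          congr 1
          ring
      _ ≤ ‖(Ve b P.p x : ℂ) * u x - nbs u x‖ + ‖nbs u x - nbs (msk b u) x‖ := norm_add_le _ _
      _ ≤ F + 4 * η := by linarith
  have hI : ∀ x, node b x → |x.1| < b * N → |x.2| < b * N → ‖Complex.I * u x - nbs u x‖ ≤ F := by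
    intro x hx h1 h2
    have h3 : x ≠ (1, 1) := by
      rintro rfl
      exact hn11 hx
    have h4 := h x (APri_mem h1 h2 h3)
    have h5 : Wi b P.p x = Complex.I := by
      unfold Wi
      rw [if_pos hx]
    rwa [h5] at h4
  -- the step
  set ε : ℝ := (2 * CM + 1) * (F + 4 * η) / (pm * z ^ (2 * N)) with hε
  have hden : 0 < pm * z ^ (2 * N) := mul_pos hpm hzN
  have hε0 : 0 ≤ ε := by
    rw [hε]
    positivity
  have hcell : ∀ x y : ℤ × ℤ, ¬ node b x → ¬ node b y → |x.1| < b * N → |x.2| < b * N →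
      x.1 / b = y.1 / b → x.2 / b = y.2 / b →
      ‖u x / (ww b z P.p x : ℂ) - u y / (ww b z P.p y : ℂ)‖ ≤ ε := by
    intro x y hx hy h1 h2 e1 e2
    refine (cell_ratio hb hz hz1 P hC hP pm hpm hlow N hN u (F + 4 * η) (by linarith) hG x y hx hy
      h1 h2 e1 e2).trans ?_
    rw [hε]
    refine div_le_div_of_nonneg_right ?_ hden.le
    have : 0 ≤ F + 4 * η := by linarith
    nlinarith
  have hcr1 : ∀ x : ℤ × ℤ, b ∣ x.1 → ¬ b ∣ x.2 → |x.1 + 1| < b * N → |x.1 - 1| < b * N →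
      |x.2| < b * N → ‖u (x.1 + 1, x.2) / (ww b z P.p (x.1 + 1, x.2) : ℂ) -
      u (x.1 - 1, x.2) / (ww b z P.p (x.1 - 1, x.2) : ℂ)‖ ≤ ε := by
    intro x h1 h2 h3 h4 h5
    refine (cross_ratio1 hb hz hz1 P pm hpm hlow N hN u F η hF hη0 hnode hI x h1 h2 h3 h4
      h5).trans ?_
    rw [hε]
    refine div_le_div_of_nonneg_right ?_ hden.le
    nlinarith [mul_nonneg hC.le hF, mul_nonneg hC.le hη0]
  have hcr2 : ∀ x : ℤ × ℤ, b ∣ x.2 → ¬ b ∣ x.1 → |x.2 + 1| < b * N → |x.2 - 1| < b * N →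
      |x.1| < b * N → ‖u (x.1, x.2 + 1) / (ww b z P.p (x.1, x.2 + 1) : ℂ) -
      u (x.1, x.2 - 1) / (ww b z P.p (x.1, x.2 - 1) : ℂ)‖ ≤ ε := by
    intro x h1 h2 h3 h4 h5
    refine (cross_ratio2 hb hz hz1 P pm hpm hlow N hN u F η hF hη0 hnode hI x h1 h2 h3 h4
      h5).trans ?_
    rw [hε]
    refine div_le_div_of_nonneg_right ?_ hden.le
    nlinarith [mul_nonneg hC.le hF, mul_nonneg hC.le hη0]
  -- walks
  have hb0 : 0 < b := by omega
  have hwalk1 : ∀ n : ℤ, ¬ b ∣ n → |n| < m →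
      ‖u (n, 1) / (ww b z P.p (n, 1) : ℂ) - u (1, 1) / (ww b z P.p (1, 1) : ℂ)‖ ≤
        2 * m * ε := by
    intro n hn hnm
    refine walk hb hm3 (fun n => u (n, 1) / (ww b z P.p (n, 1) : ℂ)) ε hε0 ?_ ?_ n hn hnm
    · intro k hk hk1 hkm hk1m
      refine hcell (k + 1, 1) (k, 1) ?_ ?_ hk1m hone (APri_div hb0 hk1) rfl
      · rintro (h1 | h1)
        · exact hk1 h1
        · exact APri_not_dvd hb h1
      · rintro (h1 | h1)
        · exact hk h1
        · exact APri_not_dvd hb h1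
    · intro k hk hk1 hk2
      exact hcr1 (k, 1) hk (APri_not_dvd hb) hk1 hk2 hone
  have hwalk2 : ∀ a : ℤ, ¬ b ∣ a → |a| < m → ∀ n : ℤ, ¬ b ∣ n → |n| < m →
      ‖u (a, n) / (ww b z P.p (a, n) : ℂ) - u (a, 1) / (ww b z P.p (a, 1) : ℂ)‖ ≤
        2 * m * ε := by
    intro a ha ham n hn hnm
    refine walk hb hm3 (fun n => u (a, n) / (ww b z P.p (a, n) : ℂ)) ε hε0 ?_ ?_ n hn hnm
    · intro k hk hk1 hkm hk1m
      refine hcell (a, k + 1) (a, k) ?_ ?_ ham hk1m rfl (APri_div hb0 hk1)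
      · rintro (h1 | h1)
        · exact ha h1
        · exact hk1 h1
      · rintro (h1 | h1)
        · exact ha h1
        · exact hk h1
    · intro k hk hk1 hk2
      exact hcr2 (a, k) hk ha hk1 hk2 ham
  have hu11 : u (1, 1) = 0 := by
    apply h0
    unfold inn
    simp
  have hmr0 : (0 : ℝ) < m := by
    have : (3 : ℝ) ≤ m := by exact_mod_cast hm3
    linarith
  -- the bound off the nodes
  have hoff : ∀ x, ¬ node b x → ‖u x‖ ≤ 4 * m * ε * pM := by
    intro x hx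
    by_cases hxm : x ∈ inn m
    · obtain ⟨h1, h2⟩ := APri_mem' hxm
      have hd1 : ¬ b ∣ x.1 := fun h => hx (Or.inl h)
      have hd2 : ¬ b ∣ x.2 := fun h => hx (Or.inr h)
      have g1 := hwalk1 x.1 hd1 h1
      have g2 := hwalk2 x.1 hd1 h1 x.2 hd2 h2
      rw [hu11, zero_div, sub_zero] at g1
      have g3 : ‖u x / (ww b z P.p x : ℂ)‖ ≤ 4 * m * ε := by
        have g4 : u x / (ww b z P.p x : ℂ) =
            (u (x.1, x.2) / (ww b z P.p (x.1, x.2) : ℂ) -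
              u (x.1, 1) / (ww b z P.p (x.1, 1) : ℂ)) +
            u (x.1, 1) / (ww b z P.p (x.1, 1) : ℂ) := by
          rw [sub_add_cancel]
        rw [g4]
        refine (norm_add_le _ _).trans ?_
        linarith
      have hw0 : ww b z P.p x ≠ 0 := ww_ne hb hz P hx
      have g5 : ‖u x‖ = ‖u x / (ww b z P.p x : ℂ)‖ * |ww b z P.p x| := by
        rw [norm_div, Complex.norm_real, Real.norm_eq_abs,
          div_mul_cancel₀ _ (abs_ne_zero.2 hw0)]
      rw [g5]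
      exact mul_le_mul g3 (hup x) (abs_nonneg _) (by positivity)
    · rw [h0 x hxm, norm_zero]
      positivity
  -- M₁
  set Q : ℝ := (N : ℝ) * (z⁻¹) ^ (2 * N) with hQ
  have hzi : 1 ≤ z⁻¹ := (one_le_inv₀ hz).2 hz1.le
  have hQ1 : 1 ≤ Q := by
    rw [hQ]
    calc (1 : ℝ) = 1 * 1 := by ring
      _ ≤ N * (z⁻¹) ^ (2 * N) := mul_le_mul hNr (one_le_pow₀ hzi) zero_le_one (by linarith)
  have hoffQ : 4 * m * ε * pM = K * Q * (F + 4 * η) := by
    rw [hε, hK, hQ, hmr, inv_pow]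
    field_simp
  set M : ℝ := (4 * K + 1) * Q with hM
  have hKQ : 0 ≤ K * Q := mul_nonneg hK0 (by linarith)
  have hM1 : 1 ≤ M := by
    rw [hM]
    nlinarith
  have hXM : X ≤ M * (F + η) := by
    by_cases hx : node b xs
    · have h1 := hnode xs hx
      calc X ≤ η := h1
        _ ≤ F + η := by linarith
        _ ≤ M * (F + η) := le_mul_of_one_le_left (by linarith) hM1
    · have h1 := hoff xs hx
      rw [hoffQ] at h1
      have h2 : M * (F + η) = K * Q * (F + 4 * η) + (3 * (K * Q) * F + Q * F + Q * η) := by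
        rw [hM]
        ring
      have h3 : 0 ≤ 3 * (K * Q) * F + Q * F + Q * η := by positivity
      linarith
  -- AM-GM
  have hAG : 2 * (M * η) ≤ X + M ^ 2 * D * F := by
    have h1 : 0 ≤ M ^ 2 * D * F := by positivity
    have h2 : (2 * (M * η)) ^ 2 ≤ (X + M ^ 2 * D * F) ^ 2 := by
      have h3 : (2 * (M * η)) ^ 2 = 4 * (X * (M ^ 2 * D * F)) := by
        calc (2 * (M * η)) ^ 2 = 4 * M ^ 2 * η ^ 2 := by ring
          _ = 4 * (X * (M ^ 2 * D * F)) := by rw [hη2]; ring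
      rw [h3]
      nlinarith [sq_nonneg (X - M ^ 2 * D * F)]
    exact (pow_le_pow_iff_left₀ (by positivity) (by positivity) two_ne_zero).1 h2
  have hfin : X ≤ (2 + D) * M ^ 2 * F := by
    have h1 : M * F ≤ M ^ 2 * F := by
      refine mul_le_mul_of_nonneg_right ?_ hF
      nlinarith
    nlinarith
  have hD2 : 2 + D ≤ 6 * (b : ℝ) ^ 2 * (N : ℝ) ^ 2 := by
    rw [hD, hmr]
    have h1 : (9 : ℝ) ≤ (b : ℝ) ^ 2 * (N : ℝ) ^ 2 := by
      calc (9 : ℝ) = 3 ^ 2 * 1 ^ 2 := by norm_num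
        _ ≤ (b : ℝ) ^ 2 * (N : ℝ) ^ 2 := by gcongr
    nlinarith
  intro x
  calc ‖u x‖ ≤ X := hX x
    _ ≤ (2 + D) * M ^ 2 * F := hfin
    _ ≤ (6 * (b : ℝ) ^ 2 * (N : ℝ) ^ 2) * M ^ 2 * F := by gcongr
    _ = 6 * (b : ℝ) ^ 2 * (4 * K + 1) ^ 2 * (N : ℝ) ^ 4 * (z⁻¹) ^ (4 * N) * F := by
        rw [hM, hQ]
        have : (z⁻¹) ^ (4 * N) = ((z⁻¹) ^ (2 * N)) ^ 2 := by
          rw [← pow_mul]
          congr 1
          ring
        rw [this]
        ring

end Pool.Agent.Lib.MP_562b47_mp.BG
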