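import Pool.Agent.Lib.MP_562b47_mp.BG.Mul

/-!
# BG-CEst: the cell estimate from the minor

Proof. Let `v`, `G` be as in `CellEst`. Put `s = v (1,1) / p (1,1)` and `v' x = v x - s * p x` (complex
valued; zero outside the cell and at `(1,1)`, i.e. outside `ci b`). For `x ∈ ci b`,
`Vp p x * v' x - nbs v' x = Vp p x * v x - nbs v x`, because `Vp p x * p x = nbs p x` (`p x ≠ 0`). Multiply
by `p x`: with `Mc := (Mt b p).map (↑)` (= `Mt b (fun x => (p x : ℂ))`), `Mt_mulVec` gives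
`(Mc.mulVec v') x = p x * (Vp p x * v x - nbs v x)`, norm at most `|p x| G`. `det Mc ≠ 0`
(`det` commutes with the cast), so `v' = Mc⁻¹ (…)` and `‖v' x‖ ≤ (∑_y ‖Mc⁻¹ x y‖ |p y|) G`. Take
`C = 1 + ∑_{x,y} ‖Mc⁻¹ x y‖ |p y|`. At `x = (1,1)` the left side is `0`.
-/

namespace Pool.Agent.Lib.MP_562b47_mp.BG

theorem cell_est {b : ℤ} {z : ℝ} (P : Prof b z) (hb : 3 ≤ b) (h : (Mt b P.p).det ≠ 0) :
    ∃ C : ℝ, 0 < C ∧ CellEst b P.p C := by
  classical
  obtain ⟨q, hq⟩ : ∃ q : ℤ × ℤ → ℂ, q = fun x => (P.p x : ℂ) := ⟨_, rfl⟩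
  have hM : Mt b q = (Mt b P.p).map Complex.ofRealHom := by
    ext x y
    simp only [Mt, Matrix.map_apply, Matrix.of_apply, nbs, hq]
    split_ifs <;> simp
  have hdet : (Mt b q).det ≠ 0 := by
    rw [hM, ← RingHom.mapMatrix_apply, ← RingHom.map_det]
    intro h1
    exact h (Complex.ofReal_eq_zero.1 h1)
  have hU : IsUnit (Mt b q).det := isUnit_iff_ne_zero.2 hdet
  have h11 : ((1, 1) : ℤ × ℤ) ∈ cl b := by
    simp only [cl, Finset.mem_product, Finset.mem_Icc]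
    omega
  have hp11 : (P.p (1, 1) : ℂ) ≠ 0 := by exact_mod_cast P.ne _ h11
  refine ⟨1 + ∑ x : ci b, ∑ y : ci b, ‖(Mt b q)⁻¹ x y‖ * |P.p y|, by positivity, ?_⟩
  intro v G hG hv hest x hx
  obtain ⟨s, hs⟩ : ∃ s : ℂ, s = v (1, 1) / (P.p (1, 1) : ℂ) := ⟨_, rfl⟩
  obtain ⟨v', hv'⟩ : ∃ v' : ℤ × ℤ → ℂ, v' = fun x => v x - s * (P.p x : ℂ) := ⟨_, rfl⟩
  have hv0 : ∀ x, x ∉ ci b → v' x = 0 := by
    intro x hx
    by_cases h1 : x ∈ cl b
    · have h2 : x = (1, 1) := by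
        by_contra h3
        exact hx (Finset.mem_erase.2 ⟨h3, h1⟩)
      rw [hv', h2, hs]
      simp only
      rw [div_mul_cancel₀ _ hp11, sub_self]
    · rw [hv']
      simp only
      rw [hv x h1, P.out x h1]
      simp
  have hmv : ∀ y : ci b, (Mt b q).mulVec (fun y => v' y) y =
      (P.p y : ℂ) * ((Vp P.p y : ℂ) * v y - nbs v y) := by
    intro y
    rw [Mt_mulVec b q v' hv0 y]
    have hy := Finset.mem_erase.1 y.2
    have hpy : (P.p y : ℂ) ≠ 0 := by exact_mod_cast P.ne _ hy.2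
    have e1 : nbs q y = (Vp P.p y : ℂ) * (P.p y : ℂ) := by
      have e0 : Vp P.p y * P.p y = nbs P.p y := by
        unfold Vp
        exact div_mul_cancel₀ _ (P.ne _ hy.2)
      have e3 : (Vp P.p y : ℂ) * (P.p y : ℂ) = ((nbs P.p y : ℝ) : ℂ) := by
        rw [← e0]
        push_cast
        rfl
      rw [e3, hq]
      simp only [nbs]
      push_cast
      rfl
    have e2 : nbs v' y = nbs v y - s * nbs q y := by
      simp only [nbs, hv', hq]
      ring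
    rw [e2, e1, hv', hq]
    simp only
    ring
  have hbd : ∀ y : ci b, ‖(Mt b q).mulVec (fun y => v' y) y‖ ≤ |P.p y| * G := by
    intro y
    have hy := Finset.mem_erase.1 y.2
    rw [hmv, norm_mul, Complex.norm_real, Real.norm_eq_abs]
    exact mul_le_mul_of_nonneg_left (hest y hy.2 hy.1) (abs_nonneg _)
  have hsum : ∀ y : ci b, 0 ≤ ∑ w : ci b, ‖(Mt b q)⁻¹ y w‖ * |P.p w| := fun y =>
    Finset.sum_nonneg fun w _ => by positivity
  by_cases hx1 : x = (1, 1)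
  · rw [hx1, div_mul_cancel₀ _ hp11, sub_self, norm_zero]
    have : 0 ≤ ∑ x : ci b, ∑ y : ci b, ‖(Mt b q)⁻¹ x y‖ * |P.p y| :=
      Finset.sum_nonneg fun y _ => hsum y
    positivity
  · have hxc : x ∈ ci b := Finset.mem_erase.2 ⟨hx1, hx⟩
    have h1 : (Mt b q)⁻¹.mulVec ((Mt b q).mulVec (fun y : ci b => v' y)) = fun y : ci b => v' y := by
      rw [Matrix.mulVec_mulVec, Matrix.nonsing_inv_mul _ hU, Matrix.one_mulVec]
    have h2 : v' x = ∑ y : ci b, (Mt b q)⁻¹ ⟨x, hxc⟩ y *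
        (Mt b q).mulVec (fun y : ci b => v' y) y := (congrFun h1 ⟨x, hxc⟩).symm
    have h3 : v x - v (1, 1) / (P.p (1, 1) : ℂ) * (P.p x : ℂ) = v' x := by
      rw [hv', hs]
    rw [h3, h2]
    refine (norm_sum_le _ _).trans ?_
    have h4 : ∑ y : ci b, ‖(Mt b q)⁻¹ ⟨x, hxc⟩ y * (Mt b q).mulVec (fun y : ci b => v' y) y‖ ≤
        (∑ y : ci b, ‖(Mt b q)⁻¹ ⟨x, hxc⟩ y‖ * |P.p y|) * G := by
      rw [Finset.sum_mul]
      refine Finset.sum_le_sum fun y _ => ?_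
      rw [norm_mul, mul_assoc]
      exact mul_le_mul_of_nonneg_left (hbd y) (norm_nonneg _)
    refine h4.trans (mul_le_mul_of_nonneg_right ?_ hG)
    have h5 : ∑ y : ci b, ‖(Mt b q)⁻¹ ⟨x, hxc⟩ y‖ * |P.p y| ≤
        ∑ x : ci b, ∑ y : ci b, ‖(Mt b q)⁻¹ x y‖ * |P.p y| :=
      Finset.single_le_sum (f := fun x : ci b => ∑ y : ci b, ‖(Mt b q)⁻¹ x y‖ * |P.p y|)
        (fun y _ => hsum y) (Finset.mem_univ (⟨x, hxc⟩ : ci b))
    exact h5.trans (le_add_of_nonneg_left zero_le_one)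

end Pool.Agent.Lib.MP_562b47_mp.BG
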