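import Mathlib

/-!
MP_562b47, d = 2: the gadget for every energy (bound state in the continuum), definitions.
Paper: /team-store/MP_562b47_GADGET_helper36.md
-/

open Finset

namespace Pool.Agent.Lib.MP_562b47_mp.BG

noncomputable section

/-- sum over the four neighbours -/
def nbs {R : Type*} [Add R] (u : ℤ × ℤ → R) (x : ℤ × ℤ) : R :=
  u (x.1 + 1, x.2) + u (x.1 - 1, x.2) + u (x.1, x.2 + 1) + u (x.1, x.2 - 1)

/-- nearest neighbours -/
def adj (x y : ℤ × ℤ) : Prop :=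
  y = (x.1 + 1, x.2) ∨ y = (x.1 - 1, x.2) ∨ y = (x.1, x.2 + 1) ∨ y = (x.1, x.2 - 1)

instance : DecidableRel adj := fun x y => by unfold adj; infer_instance

/-- the sites of a cell -/
def cl (b : ℤ) : Finset (ℤ × ℤ) := Icc 1 (b - 1) ×ˢ Icc 1 (b - 1)

/-- a profile: `w` in one cell -/
structure Prof (b : ℤ) (z : ℝ) where
  p : ℤ × ℤ → ℝ
  ne : ∀ x ∈ cl b, p x ≠ 0
  out : ∀ x, x ∉ cl b → p x = 0
  side1 : ∀ y, p (b - 1, y) = z * p (1, y)
  side2 : ∀ x, p (x, b - 1) = z * p (x, 1)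

/-- the effective diagonal (`4 - E + V`) of the cell -/
def Vp (p : ℤ × ℤ → ℝ) (x : ℤ × ℤ) : ℝ := nbs p x / p x

/-- the cell estimate with constant `C` -/
def CellEst (b : ℤ) (p : ℤ × ℤ → ℝ) (C : ℝ) : Prop :=
  ∀ (v : ℤ × ℤ → ℂ) (G : ℝ), 0 ≤ G → (∀ x, x ∉ cl b → v x = 0) →
    (∀ x ∈ cl b, x ≠ (1, 1) → ‖(Vp p x : ℂ) * v x - nbs v x‖ ≤ G) →
    ∀ x ∈ cl b, ‖v x - v (1, 1) / (p (1, 1) : ℂ) * (p x : ℂ)‖ ≤ C * G

/-- the index set of the minor -/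
def ci (b : ℤ) : Finset (ℤ × ℤ) := (cl b).erase (1, 1)

/-- `diag (nbs q) - diag q * Adj` on the cell without `(1, 1)` -/
def Mt {R : Type*} [CommRing R] (b : ℤ) (q : ℤ × ℤ → R) : Matrix (ci b) (ci b) R :=
  Matrix.of fun x y => (if x = y then nbs q x else 0) - if adj x y then q x else 0

/-- the factor `z` in the last column -/
def zt (b : ℤ) (z : ℝ) (r : ℤ) : ℝ := if r = b - 1 then z else 1

/-- the first profile -/
def p0 (b : ℤ) (k z : ℝ) (x : ℤ × ℤ) : ℝ :=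
  if x ∈ cl b then Real.sin (k * x.1) * Real.sin (k * x.2) * (zt b z x.1 * zt b z x.2) else 0

/-- the second profile -/
def p1 (b : ℤ) (z : ℝ) (x : ℤ × ℤ) : ℝ :=
  if x ∈ cl b then zt b z x.1 * zt b z x.2 else 0

/-- nodes -/
def node (b : ℤ) (x : ℤ × ℤ) : Prop := b ∣ x.1 ∨ b ∣ x.2

instance (b : ℤ) : DecidablePred (node b) := fun x => by unfold node; infer_instance

/-- position in the cell -/
def rr (b : ℤ) (x : ℤ × ℤ) : ℤ × ℤ := (|x.1| % b, |x.2| % b)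

/-- level -/
def lv (b : ℤ) (x : ℤ × ℤ) : ℕ := (|x.1| / b + |x.2| / b).toNat

/-- the exact solution -/
def ww (b : ℤ) (z : ℝ) (p : ℤ × ℤ → ℝ) (x : ℤ × ℤ) : ℝ :=
  ((x.1.sign : ℤ) : ℝ) * ((x.2.sign : ℤ) : ℝ) * (-z) ^ lv b x * p (rr b x)

/-- the effective diagonal off the nodes -/
def Ve (b : ℤ) (p : ℤ × ℤ → ℝ) (x : ℤ × ℤ) : ℝ := Vp p (rr b x)

/-- the inner block with the centre, `|x| < m` -/
def qi (m : ℤ) : Finset (ℤ × ℤ) := Icc (-(m - 1)) (m - 1) ×ˢ Icc (-(m - 1)) (m - 1)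

/-- the inner block without the centre -/
def inn (m : ℤ) : Finset (ℤ × ℤ) := (qi m).erase (1, 1)

/-- the block matrix with effective diagonal `W` -/
def KM {R : Type*} [CommRing R] (m : ℤ) (W : ℤ × ℤ → R) : Matrix (inn m) (inn m) R :=
  Matrix.of fun x y => (if x = y then W x else 0) - if adj x y then 1 else 0

open Classical in
/-- its inverse, extended by zero -/
def KI {R : Type*} [CommRing R] (m : ℤ) (W : ℤ × ℤ → R) (x y : ℤ × ℤ) : R :=
  if hx : x ∈ inn m then (if hy : y ∈ inn m then (KM m W)⁻¹ ⟨x, hx⟩ ⟨y, hy⟩ else 0) else 0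

end

end Pool.Agent.Lib.MP_562b47_mp.BG
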