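import Pool.Agent.Lib.MP_562b47_mp.BG.Defs

/-!
# BG-Dens: admissible wave numbers are dense

Proof. Take `b = 2 ^ p`, `k = π a / b` with `a` odd, `0 < a < b`, `p` large. Let `k₀ = arccos (v/4)`,
`0 < k₀ < π`; `a := 2 ⌊k₀ b / (2π)⌋ + 1` (natural floor) gives `|k - k₀| ≤ 2π/b`, so `0 < k < π` for
`p` large (hence `0 < a < b`) and `4 cos k` is close to `4 cos k₀ = v` (`|cos x - cos y| ≤ |x - y|`).
`sin (k r) = 0` iff `k r = n π` for an integer `n`, i.e. `a r = n b`; `a` odd and `b = 2^p` give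
`b ∣ r`, impossible for `0 < r < b` (`IsCoprime`, `Odd`).
`sin (k b) = sin (a π) = 0`; `sin (k (b-1)) = sin (aπ - k) = - cos (aπ) sin k = sin k`, `a` odd.
-/

namespace Pool.Agent.Lib.MP_562b47_mp.BG

theorem dens (v : ℝ) (hv : -4 < v) (hv' : v < 4) (ε : ℝ) (hε : 0 < ε) :
    ∃ (b : ℤ) (k : ℝ), 3 ≤ b ∧ Real.sin (k * b) = 0 ∧
      (∀ r : ℤ, 0 < r → r < b → Real.sin (k * r) ≠ 0) ∧
      Real.sin (k * (b - 1 : ℤ)) = Real.sin k ∧ |4 * Real.cos k - v| < ε := by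
  have hpi := Real.pi_pos
  obtain ⟨k0, hk0⟩ : ∃ k0 : ℝ, k0 = Real.arccos (v / 4) := ⟨_, rfl⟩
  have hc : Real.cos k0 = v / 4 := by
    rw [hk0]
    exact Real.cos_arccos (by linarith) (by linarith)
  have h0 : 0 ≤ k0 := by
    rw [hk0]
    exact Real.arccos_nonneg _
  have h1 : k0 < Real.pi := by
    refine lt_of_le_of_ne ?_ ?_
    · rw [hk0]
      exact Real.arccos_le_pi _
    · intro h
      rw [h, Real.cos_pi] at hc
      linarith
  have h2 : 0 < Real.pi - k0 := by linarith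
  have h3 : 0 < Real.pi / (Real.pi - k0) := div_pos hpi h2
  have h4 : 0 < 4 * Real.pi / ε := by positivity
  obtain ⟨p, hp⟩ := pow_unbounded_of_one_lt (4 + Real.pi / (Real.pi - k0) + 4 * Real.pi / ε)
    (one_lt_two : (1 : ℝ) < 2)
  obtain ⟨B, hB⟩ : ∃ B : ℝ, B = 2 ^ p := ⟨_, rfl⟩
  rw [← hB] at hp
  have hB4 : 4 < B := by linarith
  have hB0 : 0 < B := by linarith
  have hB1 : Real.pi / B < Real.pi - k0 := by
    rw [div_lt_comm₀ hB0 h2]
    linarith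
  have hB2 : 4 * Real.pi / B < ε := by
    rw [div_lt_comm₀ hB0 hε]
    linarith
  have ht : 0 ≤ k0 * B / (2 * Real.pi) := by positivity
  obtain ⟨n, hn1, hn2⟩ : ∃ n : ℕ, (n : ℝ) ≤ k0 * B / (2 * Real.pi) ∧
      k0 * B / (2 * Real.pi) < n + 1 := ⟨_, Nat.floor_le ht, Nat.lt_floor_add_one _⟩
  rw [le_div_iff₀ (by positivity)] at hn1
  rw [div_lt_iff₀ (by positivity)] at hn2
  obtain ⟨k, hk⟩ : ∃ k : ℝ, k = (2 * n + 1) * Real.pi / B := ⟨_, rfl⟩
  have hkB : k * B = (2 * n + 1) * Real.pi := by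
    rw [hk, div_mul_cancel₀ _ hB0.ne']
  have hd : |k - k0| ≤ Real.pi / B := by
    rw [abs_le, le_div_iff₀ hB0]
    constructor
    · rw [neg_le, neg_sub, le_div_iff₀ hB0]
      nlinarith
    · nlinarith
  have hkpi : k < Real.pi := by
    have := (abs_le.1 hd).2
    linarith
  have hbR : (((2 : ℤ) ^ p : ℤ) : ℝ) = B := by
    rw [hB]
    push_cast
    rfl
  refine ⟨2 ^ p, k, ?_, ?_, ?_, ?_, ?_⟩
  · have h5 : (4 : ℝ) < (((2 : ℤ) ^ p : ℤ) : ℝ) := by rw [hbR]; exact hB4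
    have h6 : (4 : ℤ) < 2 ^ p := by exact_mod_cast h5
    omega
  · rw [hbR, hkB]
    have := Real.sin_nat_mul_pi (2 * n + 1)
    push_cast at this
    exact this
  · intro r hr hrb hs
    obtain ⟨m, hm⟩ := Real.sin_eq_zero_iff.1 hs
    have h5 : (m : ℝ) * B = (2 * n + 1) * r := by
      have h6 : ((m : ℝ) * B) * Real.pi = ((2 * n + 1) * r) * Real.pi := by
        calc ((m : ℝ) * B) * Real.pi = (m * Real.pi) * B := by ring
          _ = (k * r) * B := by rw [hm]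
          _ = (k * B) * r := by ring
          _ = ((2 * n + 1) * Real.pi) * r := by rw [hkB]
          _ = ((2 * n + 1) * r) * Real.pi := by ring
      exact mul_right_cancel₀ hpi.ne' h6
    rw [← hbR] at h5
    have h7 : m * 2 ^ p = (2 * (n : ℤ) + 1) * r := by exact_mod_cast h5
    have h8 : IsCoprime ((2 : ℤ) ^ p) (2 * (n : ℤ) + 1) := by
      apply IsCoprime.pow_left
      exact ⟨-(n : ℤ), 1, by ring⟩
    have h9 : (2 : ℤ) ^ p ∣ (2 * (n : ℤ) + 1) * r := ⟨m, by rw [← h7]; ring⟩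
    have h10 := Int.le_of_dvd hr (h8.dvd_of_dvd_mul_left h9)
    omega
  · have h5 : k * (((2 : ℤ) ^ p - 1 : ℤ) : ℝ) = ((2 * n + 1 : ℕ) : ℝ) * Real.pi - k := by
      push_cast
      rw [mul_sub, mul_one, ← hB, hkB]
    rw [h5, Real.sin_nat_mul_pi_sub, Odd.neg_one_pow ⟨n, rfl⟩]
    ring
  · have h5 : 4 * Real.cos k - v = 4 * (Real.cos k - Real.cos k0) := by
      rw [hc]
      ring
    rw [h5, abs_mul, abs_of_pos (by norm_num : (0 : ℝ) < 4)]
    have h6 := Real.abs_cos_sub_cos_le k k0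
    have h7 : 4 * (Real.pi / B) = 4 * Real.pi / B := by ring
    linarith

end Pool.Agent.Lib.MP_562b47_mp.BG
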