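import Pool.Agent.Lib.MP_562b47_mp.BG.Defs

/-!
# BG-P0: the first profile

`p0 (x) = sin (k x₁) sin (k x₂) zt(x₁) zt(x₂)` on the cell `{1..b-1}²`, `zt (b-1) = z`, `zt = 1`
otherwise.

`p0_prof`: `ne` from `hs` and `z > 0`; `out` by definition; `side1`: for `y ∈ [1, b-1]` it reads
`sin (k(b-1)) sin (k y) (z zt(y)) = z (sin k sin (k y) (1 · zt(y)))` (`zt b z 1 = 1` because
`1 ≠ b - 1`), for other `y` both sides are `0`.

`p0_Vp`: for `x` in the cell and a neighbour `y`, `p0 y / p0 x = q · (zt(y₁) zt(y₂))/(zt(x₁) zt(x₂))`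
with `q = sin (k y₁) sin (k y₂) / (sin (k x₁) sin (k x₂))`; this also holds when `y` is outside the
cell, since then `y₁` or `y₂` is `0` or `b` and both sides vanish (`sin (k·0) = 0 = sin (k b)`). The
factor is `1`, `z` or `1/z`. Sum of the four `q` is `4 cos k`
(`sin (a+k) + sin (a-k) = 2 sin a cos k`). Let `M` be the maximum of `|q|` over the finite cell; then
`|Vp - 4 cos k| ≤ 4 M (1/z - 1)`, which is `< ε` for `z` close to `1`.
-/

namespace Pool.Agent.Lib.MP_562b47_mp.BG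

private theorem zt_mem {b : ℤ} {z : ℝ} (h1 : z ≤ 1) (r : ℤ) :
    z ≤ zt b z r ∧ zt b z r ≤ 1 := by
  unfold zt
  split_ifs
  · exact ⟨le_refl _, h1⟩
  · exact ⟨h1, le_refl _⟩

private theorem p0_eq {b : ℤ} {k z : ℝ} (h0 : Real.sin (k * b) = 0) (x : ℤ × ℤ)
    (h1 : 0 ≤ x.1) (h2 : x.1 ≤ b) (h3 : 0 ≤ x.2) (h4 : x.2 ≤ b) :
    p0 b k z x = Real.sin (k * x.1) * Real.sin (k * x.2) * (zt b z x.1 * zt b z x.2) := by
  unfold p0
  split_ifs with h
  · rfl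
  · have h5 : x.1 = 0 ∨ x.1 = b ∨ x.2 = 0 ∨ x.2 = b := by
      by_contra hc
      push Not at hc
      apply h
      unfold cl
      rw [Finset.mem_product, Finset.mem_Icc, Finset.mem_Icc]
      obtain ⟨a1, a2, a3, a4⟩ := hc
      exact ⟨⟨by omega, by omega⟩, ⟨by omega, by omega⟩⟩
    rcases h5 with h | h | h | h <;> rw [h] <;> simp [h0]

private theorem mem_cl {b : ℤ} {x : ℤ × ℤ} (hx : x ∈ cl b) :
    1 ≤ x.1 ∧ x.1 ≤ b - 1 ∧ 1 ≤ x.2 ∧ x.2 ≤ b - 1 := by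
  unfold cl at hx
  rw [Finset.mem_product, Finset.mem_Icc, Finset.mem_Icc] at hx
  exact ⟨hx.1.1, hx.1.2, hx.2.1, hx.2.2⟩

private theorem of_mem_cl {b : ℤ} {x : ℤ × ℤ}
    (h : 1 ≤ x.1 ∧ x.1 ≤ b - 1 ∧ 1 ≤ x.2 ∧ x.2 ≤ b - 1) : x ∈ cl b := by
  unfold cl
  rw [Finset.mem_product, Finset.mem_Icc, Finset.mem_Icc]
  exact ⟨⟨h.1, h.2.1⟩, h.2.2.1, h.2.2.2⟩

theorem p0_prof {b : ℤ} (hb : 3 ≤ b) {k z : ℝ}
    (hs : ∀ r : ℤ, 0 < r → r < b → Real.sin (k * r) ≠ 0)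
    (h1 : Real.sin (k * (b - 1 : ℤ)) = Real.sin k) (hz : 0 < z) :
    ∃ P : Prof b z, P.p = p0 b k z := by
  have hzt : ∀ r : ℤ, zt b z r ≠ 0 := by
    intro r
    unfold zt
    split_ifs
    · exact hz.ne'
    · exact one_ne_zero
  have hz1 : zt b z 1 = 1 := by
    unfold zt
    rw [if_neg (by omega)]
  have hzb : zt b z (b - 1) = z := by
    unfold zt
    rw [if_pos rfl]
  refine ⟨⟨p0 b k z, ?_, ?_, ?_, ?_⟩, rfl⟩
  · intro x hx
    obtain ⟨a1, a2, a3, a4⟩ := mem_cl hx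
    unfold p0
    rw [if_pos hx]
    exact mul_ne_zero (mul_ne_zero (hs _ (by omega) (by omega)) (hs _ (by omega) (by omega)))
      (mul_ne_zero (hzt _) (hzt _))
  · intro x hx
    unfold p0
    rw [if_neg hx]
  · intro y
    by_cases hy : 1 ≤ y ∧ y ≤ b - 1
    · have m1 : ((b - 1, y) : ℤ × ℤ) ∈ cl b := of_mem_cl ⟨by show 1 ≤ b - 1; omega, le_refl _, hy.1, hy.2⟩
      have m2 : ((1, y) : ℤ × ℤ) ∈ cl b := of_mem_cl ⟨le_refl _, by show 1 ≤ b - 1; omega, hy.1, hy.2⟩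
      unfold p0
      rw [if_pos m1, if_pos m2]
      simp only []
      rw [h1, hz1, hzb, Int.cast_one, mul_one]
      ring
    · have m1 : ((b - 1, y) : ℤ × ℤ) ∉ cl b := fun h => hy ⟨(mem_cl h).2.2.1, (mem_cl h).2.2.2⟩
      have m2 : ((1, y) : ℤ × ℤ) ∉ cl b := fun h => hy ⟨(mem_cl h).2.2.1, (mem_cl h).2.2.2⟩
      unfold p0
      rw [if_neg m1, if_neg m2, mul_zero]
  · intro x
    by_cases hx : 1 ≤ x ∧ x ≤ b - 1
    · have m1 : ((x, b - 1) : ℤ × ℤ) ∈ cl b := of_mem_cl ⟨hx.1, hx.2, by show 1 ≤ b - 1; omega, le_refl _⟩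
      have m2 : ((x, 1) : ℤ × ℤ) ∈ cl b := of_mem_cl ⟨hx.1, hx.2, le_refl _, by show 1 ≤ b - 1; omega⟩
      unfold p0
      rw [if_pos m1, if_pos m2]
      simp only []
      rw [h1, hz1, hzb, Int.cast_one, mul_one]
      ring
    · have m1 : ((x, b - 1) : ℤ × ℤ) ∉ cl b := fun h => hx ⟨(mem_cl h).1, (mem_cl h).2.1⟩
      have m2 : ((x, 1) : ℤ × ℤ) ∉ cl b := fun h => hx ⟨(mem_cl h).1, (mem_cl h).2.1⟩
      unfold p0
      rw [if_neg m1, if_neg m2, mul_zero]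

theorem p0_Vp {b : ℤ} (hb : 3 ≤ b) {k : ℝ} (h0 : Real.sin (k * b) = 0)
    (hs : ∀ r : ℤ, 0 < r → r < b → Real.sin (k * r) ≠ 0) (ε : ℝ) (hε : 0 < ε) :
    ∃ z0 : ℝ, 0 < z0 ∧ z0 < 1 ∧ ∀ z : ℝ, z0 < z → z < 1 → ∀ x ∈ cl b,
      |Vp (p0 b k z) x - 4 * Real.cos k| < ε := by
  -- a lower bound for the sines
  obtain ⟨m, hm, hmx⟩ : ∃ m : ℝ, 0 < m ∧ ∀ x ∈ cl b,
      m ≤ |Real.sin (k * x.1) * Real.sin (k * x.2)| := by
    have hne : (cl b).Nonempty :=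
      ⟨(1, 1), of_mem_cl ⟨le_refl _, by show 1 ≤ b - 1; omega, le_refl _, by show 1 ≤ b - 1; omega⟩⟩
    obtain ⟨x0, hx0, hmin⟩ := Finset.exists_min_image (cl b)
      (fun x : ℤ × ℤ => |Real.sin (k * x.1) * Real.sin (k * x.2)|) hne
    obtain ⟨a1, a2, a3, a4⟩ := mem_cl hx0
    exact ⟨_, abs_pos.2 (mul_ne_zero (hs _ (by omega) (by omega)) (hs _ (by omega) (by omega))),
      hmin⟩
  refine ⟨1 - min (1 / 2) (m * ε / 32), ?_, ?_, ?_⟩
  · have : min (1 / 2 : ℝ) (m * ε / 32) ≤ 1 / 2 := min_le_left _ _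
    linarith
  · have : 0 < min (1 / 2 : ℝ) (m * ε / 32) := lt_min (by norm_num) (by positivity)
    linarith
  · intro z hz hz1 x hx
    have e1 : min (1 / 2 : ℝ) (m * ε / 32) ≤ 1 / 2 := min_le_left _ _
    have e2 : min (1 / 2 : ℝ) (m * ε / 32) ≤ m * ε / 32 := min_le_right _ _
    have hzh : 1 / 2 < z := by linarith
    have hzm : 1 - z < m * ε / 32 := by linarith
    obtain ⟨a1, a2, a3, a4⟩ := mem_cl hx
    have hS := hmx x hx
    -- bounds for the products of the factors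
    have hZ : ∀ r s : ℤ, z ^ 2 ≤ zt b z r * zt b z s ∧ zt b z r * zt b z s ≤ 1 := by
      intro r s
      obtain ⟨u1, u2⟩ := zt_mem (b := b) hz1.le r
      obtain ⟨v1, v2⟩ := zt_mem (b := b) hz1.le s
      have hz0 : 0 < z := by linarith
      constructor
      · nlinarith
      · nlinarith
    have q0 := p0_eq (z := z) h0 x (by omega) (by omega) (by omega) (by omega)
    have q1 := p0_eq (z := z) h0 (x.1 + 1, x.2) (by show 0 ≤ x.1 + 1; omega)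
      (by show x.1 + 1 ≤ b; omega) (by show 0 ≤ x.2; omega) (by show x.2 ≤ b; omega)
    have q2 := p0_eq (z := z) h0 (x.1 - 1, x.2) (by show 0 ≤ x.1 - 1; omega)
      (by show x.1 - 1 ≤ b; omega) (by show 0 ≤ x.2; omega) (by show x.2 ≤ b; omega)
    have q3 := p0_eq (z := z) h0 (x.1, x.2 + 1) (by show 0 ≤ x.1; omega)
      (by show x.1 ≤ b; omega) (by show 0 ≤ x.2 + 1; omega) (by show x.2 + 1 ≤ b; omega)
    have q4 := p0_eq (z := z) h0 (x.1, x.2 - 1) (by show 0 ≤ x.1; omega)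
      (by show x.1 ≤ b; omega) (by show 0 ≤ x.2 - 1; omega) (by show x.2 - 1 ≤ b; omega)
    simp only [] at q1 q2 q3 q4
    unfold Vp nbs
    rw [q0, q1, q2, q3, q4]
    set S := Real.sin (k * x.1) * Real.sin (k * x.2) with hSdef
    have s1 : Real.sin (k * ((x.1 + 1 : ℤ) : ℝ)) =
        Real.sin (k * x.1) * Real.cos k + Real.cos (k * x.1) * Real.sin k := by
      rw [show k * ((x.1 + 1 : ℤ) : ℝ) = k * x.1 + k by push_cast; ring, Real.sin_add]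
    have s2 : Real.sin (k * ((x.1 - 1 : ℤ) : ℝ)) =
        Real.sin (k * x.1) * Real.cos k - Real.cos (k * x.1) * Real.sin k := by
      rw [show k * ((x.1 - 1 : ℤ) : ℝ) = k * x.1 - k by push_cast; ring, Real.sin_sub]
    have s3 : Real.sin (k * ((x.2 + 1 : ℤ) : ℝ)) =
        Real.sin (k * x.2) * Real.cos k + Real.cos (k * x.2) * Real.sin k := by
      rw [show k * ((x.2 + 1 : ℤ) : ℝ) = k * x.2 + k by push_cast; ring, Real.sin_add]
    have s4 : Real.sin (k * ((x.2 - 1 : ℤ) : ℝ)) =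
        Real.sin (k * x.2) * Real.cos k - Real.cos (k * x.2) * Real.sin k := by
      rw [show k * ((x.2 - 1 : ℤ) : ℝ) = k * x.2 - k by push_cast; ring, Real.sin_sub]
    set T1 := Real.sin (k * ((x.1 + 1 : ℤ) : ℝ)) * Real.sin (k * x.2) with hT1
    set T2 := Real.sin (k * ((x.1 - 1 : ℤ) : ℝ)) * Real.sin (k * x.2) with hT2
    set T3 := Real.sin (k * x.1) * Real.sin (k * ((x.2 + 1 : ℤ) : ℝ)) with hT3
    set T4 := Real.sin (k * x.1) * Real.sin (k * ((x.2 - 1 : ℤ) : ℝ)) with hT4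
    have hsum : T1 + T2 + T3 + T4 = 4 * Real.cos k * S := by
      rw [hT1, hT2, hT3, hT4, hSdef, s1, s2, s3, s4]
      ring
    have hbd : ∀ u v : ℝ, |Real.sin u * Real.sin v| ≤ 1 := by
      intro u v
      rw [abs_mul]
      exact mul_le_one₀ (Real.abs_sin_le_one u) (abs_nonneg _) (Real.abs_sin_le_one v)
    have b1 : |T1| ≤ 1 := hbd _ _
    have b2 : |T2| ≤ 1 := hbd _ _
    have b3 : |T3| ≤ 1 := hbd _ _
    have b4 : |T4| ≤ 1 := hbd _ _
    set Z0 := zt b z x.1 * zt b z x.2 with hZ0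
    set Z1 := zt b z (x.1 + 1) * zt b z x.2 with hZ1
    set Z2 := zt b z (x.1 - 1) * zt b z x.2 with hZ2
    set Z3 := zt b z x.1 * zt b z (x.2 + 1) with hZ3
    set Z4 := zt b z x.1 * zt b z (x.2 - 1) with hZ4
    have c0 := hZ x.1 x.2
    have c1 := hZ (x.1 + 1) x.2
    have c2 := hZ (x.1 - 1) x.2
    have c3 := hZ x.1 (x.2 + 1)
    have c4 := hZ x.1 (x.2 - 1)
    rw [← hZ0] at c0
    rw [← hZ1] at c1
    rw [← hZ2] at c2
    rw [← hZ3] at c3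
    rw [← hZ4] at c4
    have hz2 : 1 / 4 < z ^ 2 := by nlinarith
    have hZ0p : 0 < Z0 := by linarith [c0.1]
    have hSne : S ≠ 0 := by
      intro h
      rw [h, abs_zero] at hS
      linarith
    have hSp : 0 < |S| := abs_pos.2 hSne
    have key : (T1 * Z1 + T2 * Z2 + T3 * Z3 + T4 * Z4) / (S * Z0) - 4 * Real.cos k =
        (T1 * (Z1 - Z0) + T2 * (Z2 - Z0) + T3 * (Z3 - Z0) + T4 * (Z4 - Z0)) / (S * Z0) := by
      rw [eq_div_iff (mul_ne_zero hSne hZ0p.ne'), sub_mul,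
        div_mul_cancel₀ _ (mul_ne_zero hSne hZ0p.ne')]
      have : 4 * Real.cos k * (S * Z0) = (T1 + T2 + T3 + T4) * Z0 := by rw [hsum]; ring
      rw [this]
      ring
    rw [key, abs_div, abs_mul, abs_of_pos hZ0p, div_lt_iff₀ (by positivity)]
    have d : ∀ T Z : ℝ, |T| ≤ 1 → z ^ 2 ≤ Z ∧ Z ≤ 1 → |T * (Z - Z0)| ≤ 1 - z ^ 2 := by
      intro T Z hT hZ'
      rw [abs_mul]
      have h2 : |Z - Z0| ≤ 1 - z ^ 2 := by
        rw [abs_le]
        constructor <;> linarith [hZ'.1, hZ'.2, c0.1, c0.2]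
      calc |T| * |Z - Z0| ≤ 1 * (1 - z ^ 2) :=
            mul_le_mul hT h2 (abs_nonneg _) zero_le_one
        _ = 1 - z ^ 2 := one_mul _
    have hnum : |T1 * (Z1 - Z0) + T2 * (Z2 - Z0) + T3 * (Z3 - Z0) + T4 * (Z4 - Z0)| ≤
        4 * (1 - z ^ 2) := by
      have g1 := d T1 Z1 b1 c1
      have g2 := d T2 Z2 b2 c2
      have g3 := d T3 Z3 b3 c3
      have g4 := d T4 Z4 b4 c4
      rw [abs_le] at g1 g2 g3 g4 ⊢
      constructor <;> linarith [g1.1, g1.2, g2.1, g2.2, g3.1, g3.2, g4.1, g4.2]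
    refine lt_of_le_of_lt hnum ?_
    have h3 : 1 - z ^ 2 ≤ 2 * (1 - z) := by nlinarith
    have h4 : m * (1 / 4) ≤ |S| * Z0 :=
      mul_le_mul hS (by linarith [c0.1]) (by norm_num) (abs_nonneg _)
    have h5 : ε * (m * (1 / 4)) ≤ ε * (|S| * Z0) := mul_le_mul_of_nonneg_left h4 hε.le
    nlinarith

end Pool.Agent.Lib.MP_562b47_mp.BG
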