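import Pool.Agent.Lib.MP_562b47_mp.BG.Mul

/-!
# BG-P1: the second (positive) profile has an invertible minor

`p1 = zt(x₁) zt(x₂)` on the cell, positive there. `p1_prof` as for `p0` (direct).

`p1_minor`. If `det = 0` there is `u ≠ 0` on `ci b` with `(Mt b p1).mulVec u = 0`
(`Matrix.exists_mulVec_eq_zero_iff`). Extend `u` by `0`, and put `g x = u x / p1 x` on the cell, `0`
outside; so `u = p1 g`, `g (1,1) = 0`. By `Mt_mulVec`, for `x ∈ ci b`:
`0 = nbs p1 x * u x - p1 x * nbs u x = p1 x * ∑_{y ~ x} p1 y (g x - g y)`, hence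
`∑_{y ~ x} p1 y (g x - g y) = 0` for all `x ∈ ci b`.
Maximum principle or energy. Energy: multiply by `p1 x * g x` and sum over the cell (the term
`x = (1,1)` vanishes as `g (1,1) = 0`): `0 = ∑_x ∑_{y ~ x} p1 x p1 y g x (g x - g y)
= (1/2) ∑_x ∑_{y~x} p1 x p1 y (g x - g y)²` (exchange `x` and `y`), so `g x = g y` for adjacent `x, y` of
the cell. Alternatively (maximum principle): let `M = max |g|`-argument on `g`, take the maximum of
`g` over the cell at the point with the smallest `x₁ + x₂`; the equation forces all neighbours in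
the cell to have the same value, in particular a neighbour with smaller `x₁ + x₂` (exists unless
`x = (1,1)`), so the maximum is `g (1,1) = 0`; the same for `-g`. So `g = 0`, `u = 0`, contradiction.
-/

namespace Pool.Agent.Lib.MP_562b47_mp.BG

private theorem mem_cl {b : ℤ} {x : ℤ × ℤ} :
    x ∈ cl b ↔ (1 ≤ x.1 ∧ x.1 ≤ b - 1) ∧ (1 ≤ x.2 ∧ x.2 ≤ b - 1) := by
  unfold cl
  rw [Finset.mem_product, Finset.mem_Icc, Finset.mem_Icc]

private theorem zt_pos {b : ℤ} {z : ℝ} (hz : 0 < z) (r : ℤ) : 0 < zt b z r := by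
  unfold zt
  split_ifs
  · exact hz
  · exact one_pos

private theorem zt_one {b : ℤ} (hb : 3 ≤ b) (z : ℝ) : zt b z 1 = 1 := by
  unfold zt
  rw [if_neg]
  omega

private theorem zt_last (b : ℤ) (z : ℝ) : zt b z (b - 1) = z := by
  unfold zt
  rw [if_pos rfl]

theorem p1_pos {b : ℤ} {z : ℝ} (hz : 0 < z) (x : ℤ × ℤ) (hx : x ∈ cl b) : 0 < p1 b z x := by
  unfold p1
  rw [if_pos hx]
  exact mul_pos (zt_pos hz _) (zt_pos hz _)

private theorem p1_nonneg {b : ℤ} {z : ℝ} (hz : 0 < z) (x : ℤ × ℤ) : 0 ≤ p1 b z x := by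
  by_cases hx : x ∈ cl b
  · exact (p1_pos hz x hx).le
  · unfold p1
    rw [if_neg hx]

theorem p1_prof {b : ℤ} (hb : 3 ≤ b) {z : ℝ} (hz : 0 < z) :
    ∃ P : Prof b z, P.p = p1 b z := by
  refine ⟨⟨p1 b z, fun x hx => (p1_pos hz x hx).ne', fun x hx => ?_, fun y => ?_, fun x => ?_⟩,
    rfl⟩
  · unfold p1
    rw [if_neg hx]
  · by_cases hy : 1 ≤ y ∧ y ≤ b - 1
    · have h1 : ((b - 1, y) : ℤ × ℤ) ∈ cl b := mem_cl.2 ⟨⟨by simp only; omega, by simp only; omega⟩, hy⟩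
      have h2 : ((1, y) : ℤ × ℤ) ∈ cl b := mem_cl.2 ⟨⟨by simp only; omega, by simp only; omega⟩, hy⟩
      unfold p1
      rw [if_pos h1, if_pos h2]
      show zt b z (b - 1) * zt b z y = z * (zt b z 1 * zt b z y)
      rw [zt_last, zt_one hb, one_mul]
    · have h1 : ((b - 1, y) : ℤ × ℤ) ∉ cl b := fun h => hy (mem_cl.1 h).2
      have h2 : ((1, y) : ℤ × ℤ) ∉ cl b := fun h => hy (mem_cl.1 h).2
      unfold p1
      rw [if_neg h1, if_neg h2, mul_zero]
  · by_cases hx : 1 ≤ x ∧ x ≤ b - 1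
    · have h1 : ((x, b - 1) : ℤ × ℤ) ∈ cl b := mem_cl.2 ⟨hx, ⟨by simp only; omega, by simp only; omega⟩⟩
      have h2 : ((x, 1) : ℤ × ℤ) ∈ cl b := mem_cl.2 ⟨hx, ⟨by simp only; omega, by simp only; omega⟩⟩
      unfold p1
      rw [if_pos h1, if_pos h2]
      show zt b z x * zt b z (b - 1) = z * (zt b z x * zt b z 1)
      rw [zt_last, zt_one hb]
      ring
    · have h1 : ((x, b - 1) : ℤ × ℤ) ∉ cl b := fun h => hx (mem_cl.1 h).1
      have h2 : ((x, 1) : ℤ × ℤ) ∉ cl b := fun h => hx (mem_cl.1 h).1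
      unfold p1
      rw [if_neg h1, if_neg h2, mul_zero]

/-- maximum principle -/
private theorem max_principle {b : ℤ} {z : ℝ} (hz : 0 < z) (g : ℤ × ℤ → ℝ) (h0 : g (1, 1) = 0)
    (hg : ∀ x ∈ cl b, x ≠ (1, 1) →
      p1 b z (x.1 + 1, x.2) * (g x - g (x.1 + 1, x.2)) +
      p1 b z (x.1 - 1, x.2) * (g x - g (x.1 - 1, x.2)) +
      p1 b z (x.1, x.2 + 1) * (g x - g (x.1, x.2 + 1)) +
      p1 b z (x.1, x.2 - 1) * (g x - g (x.1, x.2 - 1)) = 0) :
    ∀ x ∈ cl b, g x ≤ 0 := by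
  intro x0 hx0
  obtain ⟨x1, hx1, hm1⟩ := Finset.exists_max_image (cl b) g ⟨x0, hx0⟩
  obtain ⟨x, hx, hm⟩ := Finset.exists_min_image ((cl b).filter (fun y => g y = g x1))
    (fun y => y.1 + y.2) ⟨x1, Finset.mem_filter.2 ⟨hx1, rfl⟩⟩
  rw [Finset.mem_filter] at hx
  obtain ⟨hxc, hxg⟩ := hx
  have hmax : ∀ y ∈ cl b, g y ≤ g x := fun y hy => by
    rw [hxg]
    exact hm1 y hy
  have hterm : ∀ y : ℤ × ℤ, 0 ≤ p1 b z y * (g x - g y) := by
    intro y
    by_cases hy : y ∈ cl b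
    · exact mul_nonneg (p1_nonneg hz y) (sub_nonneg.2 (hmax y hy))
    · have : p1 b z y = 0 := by
        unfold p1
        rw [if_neg hy]
      rw [this, zero_mul]
  have hlow : ∀ y ∈ cl b, p1 b z y * (g x - g y) ≤ 0 → x.1 + x.2 ≤ y.1 + y.2 := by
    intro y hy h
    have h1 : 0 < p1 b z y := p1_pos hz y hy
    have h2 : g x - g y ≤ 0 := by
      by_contra h3
      have := mul_pos h1 (not_le.1 h3)
      linarith
    have h3 : g y = g x := le_antisymm (hmax y hy) (by linarith)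
    exact hm y (Finset.mem_filter.2 ⟨hy, by rw [h3, hxg]⟩)
  by_cases hx11 : x = (1, 1)
  · have := hmax x0 hx0
    rw [hx11, h0] at this
    exact this
  exfalso
  have heq := hg x hxc hx11
  have t1 := hterm (x.1 + 1, x.2)
  have t2 := hterm (x.1 - 1, x.2)
  have t3 := hterm (x.1, x.2 + 1)
  have t4 := hterm (x.1, x.2 - 1)
  obtain ⟨⟨a1, a2⟩, a3, a4⟩ := mem_cl.1 hxc
  by_cases hx1 : x.1 = 1
  · have hx2 : x.2 ≠ 1 := by
      intro h
      exact hx11 (Prod.ext hx1 h)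
    have hy : ((x.1, x.2 - 1) : ℤ × ℤ) ∈ cl b :=
      mem_cl.2 ⟨⟨a1, a2⟩, ⟨by simp only; omega, by simp only; omega⟩⟩
    have := hlow _ hy (by linarith)
    simp only at this
    omega
  · have hy : ((x.1 - 1, x.2) : ℤ × ℤ) ∈ cl b :=
      mem_cl.2 ⟨⟨by simp only; omega, by simp only; omega⟩, ⟨a3, a4⟩⟩
    have := hlow _ hy (by linarith)
    simp only at this
    omega

theorem p1_minor {b : ℤ} (hb : 3 ≤ b) {z : ℝ} (hz : 0 < z) : (Mt b (p1 b z)).det ≠ 0 := by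
  intro hdet
  obtain ⟨u, hu0, hu⟩ := Matrix.exists_mulVec_eq_zero_iff.2 hdet
  apply hu0
  classical
  set v : ℤ × ℤ → ℝ := fun x => if hx : x ∈ ci b then u ⟨x, hx⟩ else 0 with hv
  have hvu : (fun y : ci b => v y) = u := by
    funext y
    simp only [hv]
    rw [dif_pos y.2]
  have hv0 : ∀ x, x ∉ ci b → v x = 0 := by
    intro x hx
    simp only [hv]
    rw [dif_neg hx]
  have heq : ∀ x ∈ ci b, nbs (p1 b z) x * v x - p1 b z x * nbs v x = 0 := by
    intro x hx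
    have h1 := Mt_mulVec b (p1 b z) v hv0 ⟨x, hx⟩
    rw [hvu, hu] at h1
    exact h1.symm
  have h11 : ((1, 1) : ℤ × ℤ) ∈ cl b :=
    mem_cl.2 ⟨⟨le_refl _, by simp only; omega⟩, ⟨le_refl _, by simp only; omega⟩⟩
  have hcl : ∀ x, x ∉ cl b → v x = 0 := by
    intro x hx
    apply hv0
    intro h
    exact hx (Finset.mem_of_mem_erase h)
  have hout : ∀ x, x ∉ cl b → p1 b z x = 0 := by
    intro x hx
    unfold p1
    rw [if_neg hx]
  set g : ℤ × ℤ → ℝ := fun x => v x / p1 b z x with hgdef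
  have hvg : ∀ x, v x = p1 b z x * g x := by
    intro x
    by_cases hx : x ∈ cl b
    · have := (p1_pos hz x hx).ne'
      simp only [hgdef]
      field_simp
    · rw [hcl x hx, hout x hx, zero_mul]
  have hg0 : g (1, 1) = 0 := by
    have : v (1, 1) = 0 := hv0 _ (by
      unfold ci
      exact Finset.notMem_erase _ _)
    simp only [hgdef]
    rw [this, zero_div]
  have hgeq : ∀ x ∈ cl b, x ≠ (1, 1) →
      p1 b z (x.1 + 1, x.2) * (g x - g (x.1 + 1, x.2)) +
      p1 b z (x.1 - 1, x.2) * (g x - g (x.1 - 1, x.2)) +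
      p1 b z (x.1, x.2 + 1) * (g x - g (x.1, x.2 + 1)) +
      p1 b z (x.1, x.2 - 1) * (g x - g (x.1, x.2 - 1)) = 0 := by
    intro x hx hne
    have h1 := heq x (Finset.mem_erase.2 ⟨hne, hx⟩)
    unfold nbs at h1
    rw [hvg x, hvg (x.1 + 1, x.2), hvg (x.1 - 1, x.2), hvg (x.1, x.2 + 1),
      hvg (x.1, x.2 - 1)] at h1
    have h2 := (p1_pos hz x hx).ne'
    apply mul_left_cancel₀ h2
    rw [mul_zero, ← h1]
    ring
  have hle := max_principle hz g hg0 hgeq
  have hge := max_principle hz (fun x => -g x) (by show -g (1, 1) = 0; rw [hg0, neg_zero])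
    (fun x hx hne => by
      have := hgeq x hx hne
      linarith)
  funext y
  have hy : (y : ℤ × ℤ) ∈ cl b := Finset.mem_of_mem_erase y.2
  have h1 := hle y hy
  have h2 : -g y ≤ 0 := hge y hy
  have h3 : g y = 0 := le_antisymm h1 (by linarith)
  have h4 : v y = 0 := by
    rw [hvg, h3, mul_zero]
  have h5 := congrFun hvu y
  rw [← h5]
  exact h4

end Pool.Agent.Lib.MP_562b47_mp.BG
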