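import Pool.Agent.Lib.MP_562b47_mp.BG.Defs

/-!
# BG-Seg: the minor is nonzero on a segment except at finitely many points

Proof. Let `Q x : ℝ[X] := C (q0 x) * (1 - X) + C (q1 x) * X` and `D := (Mt b Q).det : ℝ[X]`. For every
real `t`, `D.eval t = (Mt b (fun x => (1 - t) * q0 x + t * q1 x)).det`
(`RingHom.map_det` / `Polynomial.eval_det`-like: apply the ring homomorphism
`Polynomial.evalRingHom t` to the matrix, entries `nbs Q x` and `Q x` are mapped correctly). At `t = 1`
the value is `(Mt b q1).det ≠ 0`, so `D ≠ 0` and it has finitely many roots (`Polynomial.rootSet`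
finite, or `D.roots.toFinset`); the interval `(0, δ)` is infinite, so some `t` in it is no root.
-/

namespace Pool.Agent.Lib.MP_562b47_mp.BG

private theorem Mt_map {R S : Type*} [CommRing R] [CommRing S] (f : R →+* S) (b : ℤ)
    (q : ℤ × ℤ → R) : (Mt b q).map f = Mt b (fun x => f (q x)) := by
  ext x y
  simp only [Matrix.map_apply, Mt, Matrix.of_apply, nbs, map_sub]
  congr 1
  · split_ifs <;> simp
  · split_ifs <;> simp

theorem seg (b : ℤ) (q0 q1 : ℤ × ℤ → ℝ) (h : (Mt b q1).det ≠ 0) (δ : ℝ) (hδ : 0 < δ) :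
    ∃ t : ℝ, 0 < t ∧ t < δ ∧ (Mt b (fun x => (1 - t) * q0 x + t * q1 x)).det ≠ 0 := by
  classical
  set Q : ℤ × ℤ → Polynomial ℝ := fun x =>
    Polynomial.C (q0 x) * (1 - Polynomial.X) + Polynomial.C (q1 x) * Polynomial.X with hQ
  set D : Polynomial ℝ := (Mt b Q).det with hD
  have hev : ∀ t : ℝ, D.eval t = (Mt b (fun x => (1 - t) * q0 x + t * q1 x)).det := by
    intro t
    have h1 : (Polynomial.evalRingHom t) D = ((Mt b Q).map (Polynomial.evalRingHom t)).det := by
      rw [hD, RingHom.map_det, RingHom.mapMatrix_apply]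
    rw [Mt_map] at h1
    rw [← Polynomial.coe_evalRingHom, h1]
    congr 2
    funext x
    simp only [hQ, Polynomial.coe_evalRingHom, Polynomial.eval_add, Polynomial.eval_mul,
      Polynomial.eval_C, Polynomial.eval_sub, Polynomial.eval_one, Polynomial.eval_X]
    ring
  have hD0 : D ≠ 0 := by
    intro h0
    have h1 := hev 1
    rw [h0, Polynomial.eval_zero] at h1
    apply h
    rw [h1]
    congr 2
    funext x
    ring
  have hinf : (Set.Ioo (0 : ℝ) δ).Infinite := Set.Ioo_infinite hδ
  obtain ⟨t, ht, htn⟩ := hinf.exists_notMem_finset D.roots.toFinset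
  refine ⟨t, ht.1, ht.2, ?_⟩
  rw [← hev]
  intro h0
  apply htn
  rw [Multiset.mem_toFinset, Polynomial.mem_roots hD0]
  exact h0

end Pool.Agent.Lib.MP_562b47_mp.BG
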