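import Pool.Agent.Lib.MP_562b47_mp.BG.Dens
import Pool.Agent.Lib.MP_562b47_mp.BG.P0
import Pool.Agent.Lib.MP_562b47_mp.BG.P1
import Pool.Agent.Lib.MP_562b47_mp.BG.Seg
import Pool.Agent.Lib.MP_562b47_mp.BG.CEst

/-!
# BG-ExP: existence of a profile with the cell estimate

Proof. `dens` with `ε/3` gives `b, k`; `p0_Vp` with `ε/3` gives `z0`; fix `z ∈ (z0, 1)`. For `t ∈ [0,1)`
put `p_t = (1-t) p0 + t p1`. For small `t` it is nonzero on the cell, (`p0 ≠ 0` on the finite cell),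
vanishes outside, satisfies the side conditions (linear: both `p0`, `p1` do), so it is a `Prof`;
and `Vp p_t x → Vp p0 x` as `t → 0` for each of the finitely many `x`, so there is `δ > 0` with
`|Vp p_t x - Vp p0 x| < ε/3` on the cell for `0 < t < δ`. `seg` (with `p1_minor`) gives `t ∈ (0, δ)` with
nonzero minor; `cell_est` finishes.
-/

namespace Pool.Agent.Lib.MP_562b47_mp.BG

private theorem nbs_lin (q0 q1 : ℤ × ℤ → ℝ) (t : ℝ) (x : ℤ × ℤ) :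
    nbs (fun x => (1 - t) * q0 x + t * q1 x) x = (1 - t) * nbs q0 x + t * nbs q1 x := by
  unfold nbs
  ring

private theorem tend (q0 q1 : ℤ × ℤ → ℝ) (x : ℤ × ℤ) (h : q0 x ≠ 0) (ε : ℝ) (hε : 0 < ε) :
    ∃ δ : ℝ, 0 < δ ∧ ∀ t : ℝ, 0 < t → t < δ →
      (1 - t) * q0 x + t * q1 x ≠ 0 ∧
      |Vp (fun x => (1 - t) * q0 x + t * q1 x) x - Vp q0 x| < ε := by
  have h1 : ContinuousAt (fun t : ℝ => (1 - t) * q0 x + t * q1 x) 0 := by fun_prop
  have h2 : ContinuousAt (fun t : ℝ => Vp (fun x => (1 - t) * q0 x + t * q1 x) x) 0 := by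
    unfold Vp
    simp only [nbs_lin]
    refine ContinuousAt.div (by fun_prop) (by fun_prop) ?_
    show (1 - 0) * q0 x + 0 * q1 x ≠ 0
    rw [sub_zero, one_mul, zero_mul, add_zero]
    exact h
  have h3 : ∀ᶠ t in nhds (0 : ℝ), (1 - t) * q0 x + t * q1 x ≠ 0 := by
    refine h1.eventually_ne ?_
    show (1 - 0) * q0 x + 0 * q1 x ≠ 0
    rw [sub_zero, one_mul, zero_mul, add_zero]
    exact h
  have h4 : ∀ᶠ t in nhds (0 : ℝ), |Vp (fun x => (1 - t) * q0 x + t * q1 x) x - Vp q0 x| < ε := by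
    have h5 := Metric.tendsto_nhds.1 h2.tendsto ε hε
    have h6 : Vp (fun x => (1 - (0 : ℝ)) * q0 x + 0 * q1 x) x = Vp q0 x := by
      congr 1
      funext y
      rw [sub_zero, one_mul, zero_mul, add_zero]
    filter_upwards [h5] with t ht
    rw [Real.dist_eq, h6] at ht
    exact ht
  obtain ⟨δ, hδ, hd⟩ := Metric.eventually_nhds_iff.1 (h3.and h4)
  refine ⟨δ, hδ, fun t ht ht' => hd ?_⟩
  rw [Real.dist_eq, sub_zero, abs_of_pos ht]
  exact ht'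

private theorem tend_all (q0 q1 : ℤ × ℤ → ℝ) (ε : ℝ) (hε : 0 < ε) (S : Finset (ℤ × ℤ)) :
    (∀ x ∈ S, q0 x ≠ 0) → ∃ δ : ℝ, 0 < δ ∧ ∀ t : ℝ, 0 < t → t < δ → ∀ x ∈ S,
      (1 - t) * q0 x + t * q1 x ≠ 0 ∧
      |Vp (fun x => (1 - t) * q0 x + t * q1 x) x - Vp q0 x| < ε := by
  classical
  refine Finset.induction_on S ?_ ?_
  · intro _
    exact ⟨1, one_pos, fun t _ _ x hx => absurd hx (Finset.notMem_empty x)⟩
  · intro a S _ ih h
    obtain ⟨δ1, h1, h2⟩ := ih fun x hx => h x (Finset.mem_insert_of_mem hx)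
    obtain ⟨δ2, h3, h4⟩ := tend q0 q1 a (h a (Finset.mem_insert_self a S)) ε hε
    refine ⟨min δ1 δ2, lt_min h1 h3, fun t ht ht' x hx => ?_⟩
    rcases Finset.mem_insert.1 hx with hx | hx
    · rw [hx]
      exact h4 t ht (ht'.trans_le (min_le_right _ _))
    · exact h2 t ht (ht'.trans_le (min_le_left _ _)) x hx

theorem exists_prof (v : ℝ) (hv : -4 < v) (hv' : v < 4) (ε : ℝ) (hε : 0 < ε) :
    ∃ (b : ℤ) (z : ℝ) (P : Prof b z) (C : ℝ), 3 ≤ b ∧ 0 < z ∧ z < 1 ∧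
      (∀ x ∈ cl b, |Vp P.p x - v| < ε) ∧ 0 < C ∧ CellEst b P.p C := by
  obtain ⟨b, k, hb, h0, hs, h1, hk⟩ := dens v hv hv' (ε / 3) (by linarith)
  obtain ⟨z0, hz0, hz1, hz⟩ := p0_Vp hb h0 hs (ε / 3) (by linarith)
  obtain ⟨z, hzz, hzz1⟩ : ∃ z : ℝ, z0 < z ∧ z < 1 := exists_between hz1
  have hzp : 0 < z := hz0.trans hzz
  obtain ⟨P0, hP0⟩ := p0_prof hb hs h1 hzp
  obtain ⟨P1, hP1⟩ := p1_prof hb hzp
  obtain ⟨δ, hδ, hd⟩ := tend_all P0.p P1.p (ε / 3) (by linarith) (cl b) P0.ne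
  obtain ⟨t, ht, ht', hdet⟩ := seg b P0.p P1.p (by rw [hP1]; exact p1_minor hb hzp) δ hδ
  have hP : ∃ P : Prof b z, P.p = fun x => (1 - t) * P0.p x + t * P1.p x := by
    refine ⟨⟨fun x => (1 - t) * P0.p x + t * P1.p x, fun x hx => (hd t ht ht' x hx).1,
      fun x hx => ?_, fun y => ?_, fun x => ?_⟩, rfl⟩
    · show (1 - t) * P0.p x + t * P1.p x = 0
      rw [P0.out x hx, P1.out x hx, mul_zero, mul_zero, add_zero]
    · show (1 - t) * P0.p (b - 1, y) + t * P1.p (b - 1, y) =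
        z * ((1 - t) * P0.p (1, y) + t * P1.p (1, y))
      rw [P0.side1 y, P1.side1 y]
      ring
    · show (1 - t) * P0.p (x, b - 1) + t * P1.p (x, b - 1) =
        z * ((1 - t) * P0.p (x, 1) + t * P1.p (x, 1))
      rw [P0.side2 x, P1.side2 x]
      ring
  obtain ⟨P, hPp⟩ := hP
  obtain ⟨C, hC, hCE⟩ := cell_est P hb (by rw [hPp]; exact hdet)
  refine ⟨b, z, P, C, hb, hzp, hzz1, fun x hx => ?_, hC, hCE⟩
  have a1 := (hd t ht ht' x hx).2
  have a2 := hz z hzz hzz1 x hx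
  rw [← hPp] at a1
  rw [hP0] at a1
  have a3 : Vp P.p x - v = (Vp P.p x - Vp (p0 b k z) x) + (Vp (p0 b k z) x - 4 * Real.cos k) +
      (4 * Real.cos k - v) := by ring
  rw [a3]
  have a4 := abs_add_le ((Vp P.p x - Vp (p0 b k z) x) + (Vp (p0 b k z) x - 4 * Real.cos k))
    (4 * Real.cos k - v)
  have a5 := abs_add_le (Vp P.p x - Vp (p0 b k z) x) (Vp (p0 b k z) x - 4 * Real.cos k)
  linarith

end Pool.Agent.Lib.MP_562b47_mp.BG
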