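import Mathlib

/-!
# BG-LinA: linear algebra

`det_ge`. The hypothesis with `F = 0` shows that `K.mulVec v = 0` implies `v = 0`, so `det K ≠ 0`. Column
`y` of `K⁻¹` is `v` with `K.mulVec v = e_y`, so `‖K⁻¹ x y‖ ≤ M`. `‖det K⁻¹‖ ≤ n! Mⁿ` (Leibniz formula
`Matrix.det_apply`, `n!` terms), and `det K * det K⁻¹ = 1`.

`inv_le`. Cramer: `K⁻¹ = (det K)⁻¹ • adjugate K`, `adjugate K x y = det (K.updateRow y (Pi.single x 1))`
(`Matrix.adjugate_apply`), a determinant with all entries at most `A` (`A ≥ 1`): `≤ n! Aⁿ`.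

`pert`. Let `K' = K + diagonal e`. If `K'.mulVec v = f` then `K.mulVec v = f - e v`, so
`v = K⁻¹ (f - e v)`, `X := sup |v| ≤ n B (F + δ X)`, so `X ≤ 2 n B F`. In particular `K'` is injective,
`det K' ≠ 0`.
-/

open Matrix

namespace Pool.Agent.Lib.MP_562b47_mp.BG

variable {n : Type*} [Fintype n] [DecidableEq n]

private theorem det_ne_of_bd {𝕜 : Type*} [NormedField 𝕜] (K : Matrix n n 𝕜)
    (h : ∀ v : n → 𝕜, K *ᵥ v = 0 → v = 0) : K.det ≠ 0 := by
  intro hd
  obtain ⟨v, hv, hv0⟩ := Matrix.exists_mulVec_eq_zero_iff.mpr hd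
  exact hv (h v hv0)

theorem det_ge (K : Matrix n n ℂ) (M : ℝ) (hM : 0 ≤ M)
    (h : ∀ (v : n → ℂ) (F : ℝ), 0 ≤ F → (∀ x, ‖(K *ᵥ v) x‖ ≤ F) → ∀ x, ‖v x‖ ≤ M * F) :
    1 ≤ ‖K.det‖ * ((Fintype.card n).factorial * M ^ Fintype.card n) := by
  have hd : K.det ≠ 0 := by
    apply det_ne_of_bd
    intro v hv
    funext x
    have := h v 0 le_rfl (fun y => by rw [hv]; simp) x
    rw [mul_zero] at this
    simpa using norm_le_zero_iff.mp this
  have hu : IsUnit K.det := isUnit_iff_ne_zero.mpr hd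
  have hent : ∀ x y, ‖K⁻¹ x y‖ ≤ M := by
    intro x y
    have h1 := h (K⁻¹ *ᵥ Pi.single y 1) 1 zero_le_one (fun z => by
      rw [Matrix.mulVec_mulVec, Matrix.mul_nonsing_inv K hu, Matrix.one_mulVec]
      by_cases hz : z = y
      · subst hz; simp
      · simp [Pi.single_eq_of_ne hz]) x
    rw [mul_one] at h1
    simpa [Matrix.mulVec_single_one] using h1
  have hb := Matrix.det_le (A := K⁻¹) (abv := NormedField.toAbsoluteValue ℂ) (x := M)
    (fun i j => hent i j)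
  have hb' : ‖(K⁻¹).det‖ ≤ (Fintype.card n).factorial * M ^ Fintype.card n := by
    rw [nsmul_eq_mul] at hb
    exact hb
  have hone : ‖K.det‖ * ‖(K⁻¹).det‖ = 1 := by
    rw [← norm_mul, ← Matrix.det_mul, Matrix.mul_nonsing_inv K hu, Matrix.det_one, norm_one]
  calc (1 : ℝ) = ‖K.det‖ * ‖(K⁻¹).det‖ := hone.symm
    _ ≤ _ := mul_le_mul_of_nonneg_left hb' (norm_nonneg _)

theorem inv_le (K : Matrix n n ℝ) (A : ℝ) (hA : 1 ≤ A) (hK : ∀ x y, |K x y| ≤ A)
    (hd : K.det ≠ 0) (x y : n) :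
    |K⁻¹ x y| ≤ (Fintype.card n).factorial * A ^ Fintype.card n / |K.det| := by
  have h1 : K⁻¹ x y = K.det⁻¹ * (K.updateRow y (Pi.single x 1)).det := by
    rw [Matrix.inv_def, Matrix.smul_apply, Ring.inverse_eq_inv', Matrix.adjugate_apply,
      smul_eq_mul]
  have h2 := Matrix.det_le (A := K.updateRow y (Pi.single x 1)) (abv := AbsoluteValue.abs)
    (x := A) (fun i j => by
      rw [Matrix.updateRow_apply]
      split_ifs with hi
      · by_cases hj : j = x
        · subst hj; simpa using hA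
        · rw [Pi.single_eq_of_ne hj]; simp; linarith
      · exact hK i j)
  have h2' : |(K.updateRow y (Pi.single x 1)).det| ≤
      (Fintype.card n).factorial * A ^ Fintype.card n := by
    simpa [nsmul_eq_mul] using h2
  rw [h1, abs_mul, abs_inv, div_eq_inv_mul]
  exact mul_le_mul_of_nonneg_left h2' (inv_nonneg.mpr (abs_nonneg _))

theorem pert (K : Matrix n n ℝ) (e : n → ℝ) (B δ : ℝ) (hB : 0 ≤ B) (hδ : 0 ≤ δ)
    (hd : K.det ≠ 0) (hK : ∀ x y, |K⁻¹ x y| ≤ B) (he : ∀ x, |e x| ≤ δ)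
    (hs : Fintype.card n * B * δ ≤ 1 / 2) :
    (K + diagonal e).det ≠ 0 ∧ ∀ (v : n → ℝ) (F : ℝ), 0 ≤ F →
      (∀ x, |((K + diagonal e) *ᵥ v) x| ≤ F) → ∀ x, |v x| ≤ 2 * Fintype.card n * B * F := by
  have hu : IsUnit K.det := isUnit_iff_ne_zero.mpr hd
  have key : ∀ (v : n → ℝ) (F : ℝ), 0 ≤ F →
      (∀ x, |((K + diagonal e) *ᵥ v) x| ≤ F) → ∀ x, |v x| ≤ 2 * Fintype.card n * B * F := by
    intro v F hF hv
    rcases isEmpty_or_nonempty n with he0 | hne
    · intro x; exact (he0.false x).elim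
    obtain ⟨x0, hx0⟩ := Finite.exists_max (fun x => |v x|)
    set X := |v x0| with hX
    have hKv : ∀ y, |(K *ᵥ v) y| ≤ F + δ * X := by
      intro y
      have h1 : (K *ᵥ v) y = ((K + diagonal e) *ᵥ v) y - e y * v y := by
        rw [Matrix.add_mulVec, Pi.add_apply, Matrix.mulVec_diagonal]; ring
      rw [h1]
      calc |((K + diagonal e) *ᵥ v) y - e y * v y|
          ≤ |((K + diagonal e) *ᵥ v) y| + |e y * v y| := abs_sub _ _
        _ ≤ F + δ * X := by
            rw [abs_mul]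
            exact add_le_add (hv y) (mul_le_mul (he y) (hx0 y) (abs_nonneg _) hδ)
    have hv0 : v x0 = ∑ y, K⁻¹ x0 y * (K *ᵥ v) y := by
      have : v = K⁻¹ *ᵥ (K *ᵥ v) := by
        rw [Matrix.mulVec_mulVec, Matrix.nonsing_inv_mul K hu, Matrix.one_mulVec]
      conv_lhs => rw [this]
      rfl
    have hXle : X ≤ Fintype.card n * B * (F + δ * X) := by
      rw [hX, hv0]
      calc |∑ y, K⁻¹ x0 y * (K *ᵥ v) y| ≤ ∑ y, |K⁻¹ x0 y * (K *ᵥ v) y| :=
            Finset.abs_sum_le_sum_abs _ _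
        _ ≤ ∑ _y : n, B * (F + δ * X) := by
            refine Finset.sum_le_sum fun y _ => ?_
            rw [abs_mul]
            exact mul_le_mul (hK x0 y) (hKv y) (abs_nonneg _) hB
        _ = Fintype.card n * B * (F + δ * X) := by
            rw [Finset.sum_const, Finset.card_univ, nsmul_eq_mul]; ring
        _ = _ := by rw [hX, ← hv0]
    have hXn : 0 ≤ X := abs_nonneg _
    have hX2 : X ≤ 2 * Fintype.card n * B * F := by
      have h3 : Fintype.card n * B * δ * X ≤ 1 / 2 * X := mul_le_mul_of_nonneg_right hs hXn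
      nlinarith [h3, hXle]
    intro x
    exact (hx0 x).trans hX2
  refine ⟨?_, key⟩
  apply det_ne_of_bd
  intro v hv
  funext x
  have := key v 0 le_rfl (fun y => by rw [hv]; simp) x
  rw [mul_zero] at this
  simpa using abs_nonpos_iff.mp this

end Pool.Agent.Lib.MP_562b47_mp.BG
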