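import Pool.Agent.Lib.MP_562b47_mp.BG.Defs

/-!
# BG-Mul: the matrices `Mt` and `KM` act as expected

Proof. `∑_{y ∈ T} (if adj x y then c else 0) * v y = c * nbs v x` if `v = 0` outside `T`: the four
neighbours of `x` are different points; write `nbs v x` as the sum of `v` over the finset
`{(x₁+1,x₂), (x₁-1,x₂), (x₁,x₂+1), (x₁,x₂-1)}` and compare the sums (terms outside `T` vanish).
`Finset.sum_coe_sort` turns the sum over the subtype into a sum over `T`.
-/

open Finset

namespace Pool.Agent.Lib.MP_562b47_mp.BG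

theorem sum_adj {R : Type*} [CommRing R] (T : Finset (ℤ × ℤ)) (v : ℤ × ℤ → R)
    (hv : ∀ x, x ∉ T → v x = 0) (x : ℤ × ℤ) (c : R) :
    ∑ y ∈ T, (if adj x y then c else 0) * v y = c * nbs v x := by
  classical
  obtain ⟨N, hN⟩ : ∃ N : Finset (ℤ × ℤ), N = {(x.1 + 1, x.2), (x.1 - 1, x.2), (x.1, x.2 + 1),
    (x.1, x.2 - 1)} := ⟨_, rfl⟩
  have hmem : ∀ y, y ∈ N ↔ adj x y := by
    intro y
    rw [hN]
    unfold adj
    simp only [Finset.mem_insert, Finset.mem_singleton]
  have h4 : ∑ y ∈ N, v y = nbs v x := by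
    rw [hN, Finset.sum_insert, Finset.sum_insert, Finset.sum_insert, Finset.sum_singleton]
    · unfold nbs
      ring
    · simp only [Finset.mem_singleton, Prod.mk.injEq, not_and]
      intro _
      omega
    · simp only [Finset.mem_insert, Finset.mem_singleton, Prod.mk.injEq, not_or, not_and]
      refine ⟨fun h => ?_, fun h => ?_⟩ <;> omega
    · simp only [Finset.mem_insert, Finset.mem_singleton, Prod.mk.injEq, not_or, not_and]
      refine ⟨fun h => ?_, fun h => ?_, fun h => ?_⟩ <;> omega
  calc ∑ y ∈ T, (if adj x y then c else 0) * v y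
      = ∑ y ∈ T ∪ N, (if adj x y then c else 0) * v y :=
        Finset.sum_subset Finset.subset_union_left fun y _ hy => by rw [hv y hy, mul_zero]
    _ = ∑ y ∈ N, (if adj x y then c else 0) * v y :=
        (Finset.sum_subset Finset.subset_union_right fun y _ hy => by
          rw [if_neg fun h => hy ((hmem y).2 h), zero_mul]).symm
    _ = ∑ y ∈ N, c * v y := Finset.sum_congr rfl fun y hy => by rw [if_pos ((hmem y).1 hy)]
    _ = c * nbs v x := by rw [← Finset.mul_sum, h4]

theorem Mt_mulVec {R : Type*} [CommRing R] (b : ℤ) (q v : ℤ × ℤ → R)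
    (hv : ∀ x, x ∉ ci b → v x = 0) (x : ci b) :
    (Mt b q).mulVec (fun y => v y) x = nbs q x * v x - q x * nbs v x := by
  have h1 : (Mt b q).mulVec (fun y => v y) x =
      ∑ y : ci b, ((if x = y then nbs q x else 0) * v y - (if adj x y then q x else 0) * v y) := by
    refine Finset.sum_congr rfl fun y _ => ?_
    rw [← sub_mul]
    rfl
  rw [h1, Finset.sum_sub_distrib]
  congr 1
  · rw [Finset.sum_eq_single x]
    · rw [if_pos rfl]
    · intro y _ hy
      rw [if_neg (fun h => hy h.symm), zero_mul]
    · intro h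
      exact absurd (Finset.mem_univ x) h
  · rw [← sum_adj (ci b) v hv x (q x)]
    exact Finset.sum_coe_sort (ci b) (fun y => (if adj x y then q x else 0) * v y)

theorem KM_mulVec {R : Type*} [CommRing R] (m : ℤ) (W v : ℤ × ℤ → R)
    (hv : ∀ x, x ∉ inn m → v x = 0) (x : inn m) :
    (KM m W).mulVec (fun y => v y) x = W x * v x - nbs v x := by
  have h1 : (KM m W).mulVec (fun y => v y) x =
      ∑ y : inn m, ((if x = y then W x else 0) * v y - (if adj x y then 1 else 0) * v y) := by
    refine Finset.sum_congr rfl fun y _ => ?_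
    rw [← sub_mul]
    rfl
  rw [h1, Finset.sum_sub_distrib]
  congr 1
  · rw [Finset.sum_eq_single x]
    · rw [if_pos rfl]
    · intro y _ hy
      rw [if_neg (fun h => hy h.symm), zero_mul]
    · intro h
      exact absurd (Finset.mem_univ x) h
  · rw [← one_mul (nbs v x), ← sum_adj (inn m) v hv x 1]
    exact Finset.sum_coe_sort (inn m) (fun y => (if adj x y then 1 else 0) * v y)

theorem adj_symm {x y : ℤ × ℤ} (h : adj x y) : adj y x := by
  unfold adj at h ⊢
  rcases h with h | h | h | h
  · right
    left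
    rw [h]
    ext <;> simp
  · left
    rw [h]
    ext <;> simp
  · right
    right
    right
    rw [h]
    ext <;> simp
  · right
    right
    left
    rw [h]
    ext <;> simp

theorem KM_isSymm {R : Type*} [CommRing R] (m : ℤ) (W : ℤ × ℤ → R) : (KM m W).IsSymm := by
  unfold Matrix.IsSymm
  ext i j
  rw [Matrix.transpose_apply]
  unfold KM
  rw [Matrix.of_apply, Matrix.of_apply]
  congr 1
  · by_cases h : i = j
    · rw [h]
    · rw [if_neg h, if_neg (fun h' => h h'.symm)]
  · by_cases h : adj i j
    · rw [if_pos h, if_pos (adj_symm h)]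
    · rw [if_neg h, if_neg (fun h' => h (adj_symm h'))]

end Pool.Agent.Lib.MP_562b47_mp.BG
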