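import Pool.Agent.Lib.MP_562b47_mp.BG.APri
import Pool.Agent.Lib.MP_562b47_mp.BG.Mul
import Pool.Agent.Lib.MP_562b47_mp.BG.LinA
import Pool.Agent.Lib.MP_562b47_mp.BG.Choice

/-!
# BG-RealN: real node values with an invertible block

Proof. `m = b N`. `KM m (Wi b p)` satisfies the hypothesis of `det_ge` with
`M = C N⁴ z^{-4N}` (`apri` and `KM_mulVec`; extend `v` by zero). `n = card (inn m) ≤ (2bN)²`. So
`‖det‖ ≥ 1/(n! Mⁿ)`. `KM m W = KM m 0 + diagonal W` on `inn m`; `choice` with `S` = nodes of `inn m` gives real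
values `t x ∈ {t1, t2}` with `‖det‖ ≥ c₀ⁿ/(n! Mⁿ)` (`c₀ ≤ 1`, `S.card ≤ n`). Define
`Vs x = t x` at the nodes of `inn m`, `t1` at other nodes, `Ve x` off the nodes; the complex matrix is
the image of the real matrix `KM m Vs` (`det` commutes with the cast, `RingHom.map_det`). `inv_le` with
`A` = a bound for `1`, `|t1|`, `|t2|`, `max |Vp|` over the cell (`rr_mem`): every entry of `(KM m Vs)⁻¹` is at
most `n! Aⁿ n! Mⁿ/c₀ⁿ ≤ exp (C' N³)`, because `n ≤ 4b²N²`, `n! ≤ nⁿ = exp (n log n)`,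
`log M ≤ C'' N`, `log N ≤ N`.
-/

namespace Pool.Agent.Lib.MP_562b47_mp.BG

variable {b : ℤ} {z : ℝ}

private theorem rn_KM_add {R : Type*} [CommRing R] (m : ℤ) (W : ℤ × ℤ → R) :
    KM m W = KM m (fun _ => 0) + Matrix.diagonal fun x : inn m => W x := by
  ext x y
  unfold KM
  rw [Matrix.add_apply, Matrix.of_apply, Matrix.of_apply, Matrix.diagonal_apply]
  split_ifs <;> ring

private theorem rn_card {m : ℤ} (hm : 1 ≤ m) :
    (Fintype.card (inn m) : ℝ) ≤ 4 * (m : ℝ) ^ 2 := by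
  have h1 : Fintype.card (inn m) ≤ (qi m).card := by
    rw [Fintype.card_coe]
    exact Finset.card_le_card (Finset.erase_subset _ _)
  have h2 : (qi m).card = (m - 1 + 1 - -(m - 1)).toNat * (m - 1 + 1 - -(m - 1)).toNat := by
    unfold qi
    rw [Finset.card_product, Int.card_Icc]
  have h3 : (((m - 1 + 1 - -(m - 1)).toNat : ℤ)) = 2 * m - 1 := by
    rw [Int.toNat_of_nonneg (by omega)]
    ring
  have h4 : (((m - 1 + 1 - -(m - 1)).toNat : ℕ) : ℝ) = 2 * m - 1 := by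
    have : (((m - 1 + 1 - -(m - 1)).toNat : ℤ) : ℝ) = ((2 * m - 1 : ℤ) : ℝ) := by rw [h3]
    push_cast at this
    exact this
  have h5 : (Fintype.card (inn m) : ℝ) ≤ (2 * m - 1) * (2 * m - 1) := by
    calc (Fintype.card (inn m) : ℝ) ≤ ((qi m).card : ℝ) := by exact_mod_cast h1
      _ = (2 * m - 1) * (2 * m - 1) := by
        rw [h2]
        push_cast
        rw [h4]
  have h6 : (1 : ℝ) ≤ m := by exact_mod_cast hm
  nlinarith

private theorem rn_det {b : ℤ} {z : ℝ} (hz : 0 < z) (P : Prof b z) {C1 : ℝ} (hC1 : 1 ≤ C1) (N : ℕ)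
    (hap : ∀ (u : ℤ × ℤ → ℂ) (F : ℝ), 0 ≤ F →
      (∀ x, x ∉ inn (b * N) → u x = 0) →
      (∀ x ∈ inn (b * N), ‖Wi b P.p x * u x - nbs u x‖ ≤ F) →
      ∀ x, ‖u x‖ ≤ C1 * (N : ℝ) ^ 4 * (z⁻¹) ^ (4 * N) * F) :
    1 ≤ ‖(KM (b * N) (Wi b P.p)).det‖ * ((Fintype.card (inn (b * N))).factorial *
      (C1 * (N : ℝ) ^ 4 * (z⁻¹) ^ (4 * N)) ^ Fintype.card (inn (b * N))) := by
  refine det_ge _ _ (by positivity) ?_
  intro v F hF h x
  classical
  set u : ℤ × ℤ → ℂ := fun y => if hy : y ∈ inn (b * N) then v ⟨y, hy⟩ else 0 with hu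
  have hu0 : ∀ y, y ∉ inn (b * N) → u y = 0 := fun y hy => dif_neg hy
  have hu1 : ∀ y : inn (b * N), u y = v y := fun y => by
    simp only [hu]
    rw [dif_pos y.2]
  have hu2 : (fun y : inn (b * N) => u y) = v := funext hu1
  have h1 := hap u F hF hu0 (fun y hy => by
    have h2 := KM_mulVec (b * N) (Wi b P.p) u hu0 ⟨y, hy⟩
    rw [hu2] at h2
    have h3 := h ⟨y, hy⟩
    rw [h2] at h3
    exact h3) x
  rw [hu1] at h1
  exact h1

private theorem rn_exp {D A c C1 z : ℝ} {N n : ℕ} (hD : 0 ≤ D) (hA : 1 ≤ A) (hc : 0 < c)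
    (hC1 : 1 ≤ C1) (hz : 0 < z) (hN : 1 ≤ N) (hn : (n : ℝ) ≤ D * (N : ℝ) ^ 2) {d : ℝ} (hd : 0 < d)
    (hd1 : c ^ n ≤ d * (n.factorial * (C1 * (N : ℝ) ^ 4 * (z⁻¹) ^ (4 * N)) ^ n)) :
    n.factorial * A ^ n / d ≤
      Real.exp (D * (2 * (D + 2) + A / c + C1 + 4 + 4 * z⁻¹) * (N : ℝ) ^ 3) := by
  have hN1 : (1 : ℝ) ≤ N := by exact_mod_cast hN
  have hN0 : (0 : ℝ) < N := by linarith
  have hz1 : 0 < z⁻¹ := inv_pos.mpr hz
  set M : ℝ := C1 * (N : ℝ) ^ 4 * (z⁻¹) ^ (4 * N) with hM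
  have hM0 : 0 < M := by positivity
  have key : ∀ t : ℝ, 0 ≤ t → t ≤ Real.exp (t * N) := by
    intro t ht
    have h1 := Real.add_one_le_exp (t * N)
    nlinarith
  have hNe : (N : ℝ) ≤ Real.exp N := by
    have h1 := Real.add_one_le_exp (N : ℝ)
    linarith
  -- the factorial
  have hf : (n.factorial : ℝ) ≤ Real.exp ((D + 2) * N) ^ n := by
    have h1 : (n.factorial : ℝ) ≤ (n : ℝ) ^ n := by exact_mod_cast Nat.factorial_le_pow n
    refine h1.trans (pow_le_pow_left₀ (Nat.cast_nonneg _) (hn.trans ?_) n)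
    calc D * (N : ℝ) ^ 2 ≤ Real.exp (D * N) * Real.exp N ^ 2 :=
          mul_le_mul (key D hD) (pow_le_pow_left₀ hN0.le hNe 2) (by positivity)
            (Real.exp_pos _).le
      _ = Real.exp ((D + 2) * N) := by
          rw [← Real.exp_nat_mul, ← Real.exp_add]
          congr 1
          push_cast
          ring
  -- the base
  have hb : A * M / c ≤ Real.exp ((A / c + C1 + 4 + 4 * z⁻¹) * N) := by
    have e1 : A * M / c = (A / c) * (C1 * ((N : ℝ) ^ 4 * (z⁻¹) ^ (4 * N))) := by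
      rw [hM]
      ring
    have h2 : A / c ≤ Real.exp (A / c * N) := key _ (by positivity)
    have h3 : C1 ≤ Real.exp (C1 * N) := key _ (by linarith)
    have h4 : (N : ℝ) ^ 4 ≤ Real.exp N ^ 4 := pow_le_pow_left₀ hN0.le hNe 4
    have h5 : (z⁻¹) ^ (4 * N) ≤ Real.exp (z⁻¹) ^ (4 * N) := by
      refine pow_le_pow_left₀ hz1.le ?_ _
      have := Real.add_one_le_exp (z⁻¹)
      linarith
    rw [e1]
    calc (A / c) * (C1 * ((N : ℝ) ^ 4 * (z⁻¹) ^ (4 * N))) ≤
        Real.exp (A / c * N) * (Real.exp (C1 * N) * (Real.exp N ^ 4 *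
          Real.exp (z⁻¹) ^ (4 * N))) := by gcongr
      _ = Real.exp ((A / c + C1 + 4 + 4 * z⁻¹) * N) := by
          rw [← Real.exp_nat_mul, ← Real.exp_nat_mul, ← Real.exp_add, ← Real.exp_add,
            ← Real.exp_add]
          congr 1
          push_cast
          ring
  have h1 : n.factorial * A ^ n / d ≤ (n.factorial : ℝ) ^ 2 * (A * M / c) ^ n := by
    rw [div_le_iff₀ hd]
    have e2 : (n.factorial : ℝ) ^ 2 * (A * M / c) ^ n * d =
        n.factorial * A ^ n * (d * (n.factorial * M ^ n)) / c ^ n := by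
      rw [div_pow, mul_pow]
      ring
    rw [e2, le_div_iff₀ (by positivity)]
    exact mul_le_mul_of_nonneg_left hd1 (by positivity)
  refine h1.trans ?_
  calc (n.factorial : ℝ) ^ 2 * (A * M / c) ^ n ≤
      (Real.exp ((D + 2) * N) ^ n) ^ 2 * Real.exp ((A / c + C1 + 4 + 4 * z⁻¹) * N) ^ n := by
        gcongr
    _ = Real.exp (n * ((2 * (D + 2) + A / c + C1 + 4 + 4 * z⁻¹) * N)) := by
        rw [← Real.exp_nat_mul, ← Real.exp_nat_mul, ← Real.exp_nat_mul, ← Real.exp_add]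
        congr 1
        push_cast
        ring
    _ ≤ Real.exp (D * (2 * (D + 2) + A / c + C1 + 4 + 4 * z⁻¹) * (N : ℝ) ^ 3) := by
        apply Real.exp_le_exp.mpr
        have h6 : 0 ≤ (2 * (D + 2) + A / c + C1 + 4 + 4 * z⁻¹) * N := by positivity
        calc n * ((2 * (D + 2) + A / c + C1 + 4 + 4 * z⁻¹) * N) ≤
            (D * (N : ℝ) ^ 2) * ((2 * (D + 2) + A / c + C1 + 4 + 4 * z⁻¹) * N) :=
              mul_le_mul_of_nonneg_right hn h6
          _ = _ := by ring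

theorem real_nodes (hb : 3 ≤ b) (hz : 0 < z) (hz1 : z < 1) (P : Prof b z) {CM : ℝ} (hC : 0 < CM)
    (hP : CellEst b P.p CM) (t1 t2 : ℝ) (ht : t1 < t2) :
    ∃ C : ℝ, 1 ≤ C ∧ ∀ N : ℕ, 1 ≤ N → ∃ Vs : ℤ × ℤ → ℝ,
      (∀ x, ¬ node b x → Vs x = Ve b P.p x) ∧ (∀ x, node b x → Vs x = t1 ∨ Vs x = t2) ∧
      (KM (b * N) Vs).det ≠ 0 ∧
      ∀ x y, |(KM (b * N) Vs)⁻¹ x y| ≤ Real.exp (C * (N : ℝ) ^ 3) := by
  classical
  obtain ⟨C1, hC1, hap⟩ := apri hb hz hz1 P hC hP
  have hb3 : (3 : ℝ) ≤ b := by exact_mod_cast hb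
  set c : ℝ := (t2 - t1) / (2 + |t1| + |t2|) with hc
  have hden : 0 < 2 + |t1| + |t2| := by positivity
  have hc0 : 0 < c := div_pos (by linarith) hden
  have hc1 : c ≤ 1 := by
    rw [hc, div_le_one hden]
    have := le_abs_self t2
    have := neg_abs_le t1
    linarith
  set A : ℝ := 1 + (|t1| + |t2| + ∑ x ∈ cl b, |Vp P.p x|) with hA
  have hsum : 0 ≤ ∑ x ∈ cl b, |Vp P.p x| := Finset.sum_nonneg fun _ _ => abs_nonneg _
  have hA1 : 1 ≤ A := by
    have := abs_nonneg t1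
    have := abs_nonneg t2
    linarith
  set D : ℝ := 4 * (b : ℝ) ^ 2 with hD
  have hD0 : 0 ≤ D := by positivity
  have hD1 : 1 ≤ D := by nlinarith
  have hz2 : 0 < z⁻¹ := inv_pos.mpr hz
  refine ⟨D * (2 * (D + 2) + A / c + C1 + 4 + 4 * z⁻¹), ?_, ?_⟩
  · have h1 : 0 ≤ A / c := by positivity
    nlinarith
  intro N hN
  have hN1 : (1 : ℤ) ≤ N := by exact_mod_cast hN
  set m : ℤ := b * N with hm
  have hm1 : 1 ≤ m := by nlinarith
  set n : ℕ := Fintype.card (inn m) with hn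
  have hnD : (n : ℝ) ≤ D * (N : ℝ) ^ 2 := by
    have h1 := rn_card hm1
    have h2 : (m : ℝ) = b * N := by rw [hm]; push_cast; ring
    rw [h2] at h1
    calc (n : ℝ) ≤ 4 * ((b : ℝ) * N) ^ 2 := h1
      _ = D * (N : ℝ) ^ 2 := by rw [hD]; ring
  have hdet := rn_det hz P hC1 N (hap N hN)
  rw [← hm, ← hn] at hdet
  set S : Finset (inn m) := Finset.univ.filter fun x => node b x with hS
  obtain ⟨t, ht1, ht2⟩ := choice (KM m fun _ => (0 : ℂ)) (fun x : inn m => Wi b P.p x) S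
    (fun x hx => by
      rw [hS, Finset.mem_filter] at hx
      unfold Wi
      rw [if_pos hx.2]) t1 t2 ht
  rw [← rn_KM_add m (Wi b P.p), ← hc] at ht2
  set Vs : ℤ × ℤ → ℝ := fun x => if node b x then (if h : x ∈ inn m then t ⟨x, h⟩ else t1)
    else Ve b P.p x with hVs
  have hnode : ∀ x, node b x → Vs x = t1 ∨ Vs x = t2 := by
    intro x hx
    simp only [hVs]
    rw [if_pos hx]
    split_ifs
    · exact ht1 _
    · exact Or.inl rfl
  have hnn : ∀ x, ¬ node b x → Vs x = Ve b P.p x := by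
    intro x hx
    simp only [hVs]
    rw [if_neg hx]
  have hKM : (KM m fun _ => (0 : ℂ)) + Matrix.diagonal
      (fun x => if x ∈ S then (t x : ℂ) else Wi b P.p x) =
      (KM m Vs).map (fun r : ℝ => (r : ℂ)) := by
    ext x y
    unfold KM
    rw [Matrix.add_apply, Matrix.of_apply, Matrix.diagonal_apply, Matrix.map_apply,
      Matrix.of_apply]
    have hval : (if x ∈ S then (t x : ℂ) else Wi b P.p x) = ((Vs x : ℝ) : ℂ) := by
      by_cases hx : node b (x : ℤ × ℤ)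
      · have hxS : x ∈ S := by rw [hS, Finset.mem_filter]; exact ⟨Finset.mem_univ _, hx⟩
        rw [if_pos hxS]
        simp only [hVs]
        rw [if_pos hx, dif_pos x.2]
      · have hxS : x ∉ S := by
          rw [hS, Finset.mem_filter]
          exact fun h => hx h.2
        rw [if_neg hxS, hnn _ hx]
        unfold Wi
        rw [if_neg hx]
    rw [hval]
    split_ifs <;> push_cast <;> ring
  have hdetc : ‖((KM m fun _ => (0 : ℂ)) + Matrix.diagonal
      (fun x => if x ∈ S then (t x : ℂ) else Wi b P.p x)).det‖ = |(KM m Vs).det| := by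
    rw [hKM]
    have h1 : ((KM m Vs).map (fun r : ℝ => (r : ℂ))).det = (((KM m Vs).det : ℝ) : ℂ) := by
      have h2 := RingHom.map_det Complex.ofRealHom (KM m Vs)
      rw [RingHom.mapMatrix_apply] at h2
      exact h2.symm
    rw [h1, Complex.norm_real, Real.norm_eq_abs]
  rw [hdetc] at ht2
  set M : ℝ := C1 * (N : ℝ) ^ 4 * (z⁻¹) ^ (4 * N) with hM
  have hN1' : (1 : ℝ) ≤ N := by exact_mod_cast hN
  have hM0 : 0 < M := by positivity
  have hfM : 0 < (n.factorial : ℝ) * M ^ n := by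
    have : (0 : ℝ) < n.factorial := by exact_mod_cast Nat.factorial_pos n
    positivity
  have hSn : S.card ≤ n := by
    rw [hn]
    exact Finset.card_le_univ S
  have hd1 : c ^ n ≤ |(KM m Vs).det| * (n.factorial * M ^ n) := by
    calc c ^ n ≤ c ^ S.card := pow_le_pow_of_le_one hc0.le hc1 hSn
      _ ≤ c ^ S.card * (‖(KM m (Wi b P.p)).det‖ * (n.factorial * M ^ n)) :=
          le_mul_of_one_le_right (by positivity) hdet
      _ = (c ^ S.card * ‖(KM m (Wi b P.p)).det‖) * (n.factorial * M ^ n) := by ring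
      _ ≤ |(KM m Vs).det| * (n.factorial * M ^ n) :=
          mul_le_mul_of_nonneg_right ht2 hfM.le
  have hdpos : 0 < |(KM m Vs).det| := by
    by_contra hneg
    rw [not_lt] at hneg
    have h0 : |(KM m Vs).det| = 0 := le_antisymm hneg (abs_nonneg _)
    rw [h0, zero_mul] at hd1
    have : 0 < c ^ n := pow_pos hc0 n
    linarith
  have hd0 : (KM m Vs).det ≠ 0 := abs_pos.mp hdpos
  refine ⟨Vs, hnn, hnode, hd0, ?_⟩
  have hVA : ∀ x, |Vs x| + 1 ≤ A := by
    intro x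
    by_cases hx : node b x
    · have h1 := abs_nonneg t1
      have h2 := abs_nonneg t2
      rcases hnode x hx with h | h <;> rw [h, hA] <;> linarith
    · rw [hnn x hx, hA]
      have h1 : |Ve b P.p x| ≤ ∑ x ∈ cl b, |Vp P.p x| := by
        unfold Ve
        exact Finset.single_le_sum (f := fun x => |Vp P.p x|) (fun _ _ => abs_nonneg _)
          (rr_mem hb hx)
      have h2 := abs_nonneg t1
      have h3 := abs_nonneg t2
      linarith
  intro x y
  have hent : ∀ x y, |KM m Vs x y| ≤ A := by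
    intro x y
    unfold KM
    rw [Matrix.of_apply]
    refine (abs_sub _ _).trans ?_
    have h1 := hVA x
    have h2 := abs_nonneg (Vs x)
    split_ifs <;> simp only [abs_zero, abs_one] <;> linarith
  refine (inv_le (KM m Vs) A hA1 hent hd0 x y).trans ?_
  exact rn_exp hD0 hA1 hc0 hC1 hz hN hnD hdpos hd1

end Pool.Agent.Lib.MP_562b47_mp.BG
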