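import Pool.Agent.Lib.MP_562b47_mp.BG.ExP
import Pool.Agent.Lib.MP_562b47_mp.BG.RealN
import Pool.Agent.Lib.MP_562b47_mp.BG.Win

/-!
# BG-Gad: the gadget for every energy

`ph0 m W x = - ∑_{y ∈ inn m, y ~ x} SV m W y` (coupling to the port site `x`), `ze0 m W = ∑_{y ∈ inn m, y ~ (1,1)}
SV m W y` (`= ze + 4 - E`).

Proof. `v := 4 (4 - Es) / (4 + c)`, so `|v| < 4` and `|Es - 4 + v| < c`. `d := c - |Es - 4 + v| > 0`,
`ρ := d/16`, `r := d/32`, `δ0 := d/16`. `exists_prof` with `v` and `ρ/4` gives `b, z, P, CM`; `t1 = v - ρ/4`,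
`t2 = v + ρ/4`; `real_nodes` gives `C₁`; `ww_upper`, `ww_port`. For `N ≥ 1`: `n = card (inn (bN)) ≤
4 b² N²`, `B = exp (C₁ N³)`. With `C` large, `δ = exp (-C N³)` satisfies `n B δ ≤ 1/2` and
`2 n B δ pM ≤ θ z^N`, `θ` as small as wanted (all constants independent of `N`). `win` gives the rest: `KI` bound
`2 n B ≤ exp (C N³)`; `ze0 = ∑_{y ~ (1,1)} SV y` (the four neighbours of `(1,1)` belong to `inn (bN)`, `b ≥ 3`) is
within `4 · (2 n B δ pM)/|p (1,1)|` of `(nbs ww (1,1))/ww (1,1) = Ve (1,1)`, and `|Ve (1,1) - v| < ρ/4`;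
for a port site `x` the neighbours `y` of `x` in `inn (bN)` have
`|y₁| ≥ bN - 1` or `|y₂| ≥ bN - 1`: `|ph0| ≤ 4 (pM z^(N-1) + θ z^N)/|p (1,1)|`, so the sum over the
`8 b N` port sites of the squares is at most `C N z^{2N}`; for `x = (bN, 1)` the only neighbour in `inn` is
`(bN - 1, 1)`, `|ph0| ≥ (z^N |p (1,1)| - θ z^N)/|p (1,1)| ≥ z^N/2`.
-/

open Finset

namespace Pool.Agent.Lib.MP_562b47_mp.BG

/-- the port sites -/
noncomputable def prt (m : ℤ) : Finset (ℤ × ℤ) := (Icc (-m) m ×ˢ Icc (-m) m) \ qi m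

/-- the coupling to a port site -/
noncomputable def ph0 (m : ℤ) (W : ℤ × ℤ → ℝ) (x : ℤ × ℤ) : ℝ :=
  -∑ y ∈ inn m, if adj x y then SV m W y else 0

/-- the resonant value of the effective diagonal at the centre -/
noncomputable def ze0 (m : ℤ) (W : ℤ × ℤ → ℝ) : ℝ :=
  ∑ y ∈ inn m, if adj (1, 1) y then SV m W y else 0

private theorem sum4 (T : Finset (ℤ × ℤ)) (f : ℤ × ℤ → ℝ) (x : ℤ × ℤ) :
    ∑ y ∈ T, (if adj x y then f y else 0) = nbs (fun y => if y ∈ T then f y else 0) x := by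
  have h := sum_adj (R := ℝ) T (fun y => if y ∈ T then f y else 0)
    (fun y hy => by simp [hy]) x 1
  rw [one_mul] at h
  rw [← h]
  refine Finset.sum_congr rfl fun y hy => ?_
  by_cases ha : adj x y
  · simp [ha, hy]
  · simp [ha]

private theorem mem_qi {m : ℤ} {x : ℤ × ℤ} :
    x ∈ qi m ↔ (-(m - 1) ≤ x.1 ∧ x.1 ≤ m - 1) ∧ (-(m - 1) ≤ x.2 ∧ x.2 ≤ m - 1) := by
  simp [qi, Finset.mem_product, Finset.mem_Icc]

private theorem mem_inn {m : ℤ} {x : ℤ × ℤ} :
    x ∈ inn m ↔ x ≠ (1, 1) ∧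
      ((-(m - 1) ≤ x.1 ∧ x.1 ≤ m - 1) ∧ (-(m - 1) ≤ x.2 ∧ x.2 ≤ m - 1)) := by
  rw [inn, Finset.mem_erase, mem_qi]

private theorem mem_prt {m : ℤ} {x : ℤ × ℤ} :
    x ∈ prt m ↔ ((-m ≤ x.1 ∧ x.1 ≤ m) ∧ (-m ≤ x.2 ∧ x.2 ≤ m)) ∧ x ∉ qi m := by
  simp [prt, Finset.mem_product, Finset.mem_Icc]

private theorem card_inn {b : ℤ} (hb : 3 ≤ b) {N : ℕ} (hN : 1 ≤ N) :
    ((inn (b * N)).card : ℝ) ≤ 4 * (b : ℝ) ^ 2 * (N : ℝ) ^ 2 := by
  have hN' : (1 : ℤ) ≤ N := by exact_mod_cast hN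
  have hm : (3 : ℤ) ≤ b * N := by nlinarith
  have h1 : (inn (b * N)).card ≤ (qi (b * N)).card := Finset.card_erase_le
  have h2 : ((qi (b * N)).card : ℤ) = (2 * (b * N) - 1) * (2 * (b * N) - 1) := by
    unfold qi
    rw [Finset.card_product, Int.card_Icc]
    push_cast
    rw [Int.toNat_of_nonneg (by linarith)]
    ring
  have h3 : ((inn (b * N)).card : ℤ) ≤ 4 * b ^ 2 * (N : ℤ) ^ 2 := by
    have : ((inn (b * N)).card : ℤ) ≤ ((qi (b * N)).card : ℤ) := by exact_mod_cast h1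
    rw [h2] at this
    nlinarith
  exact_mod_cast h3

private theorem card_prt {b : ℤ} (hb : 3 ≤ b) {N : ℕ} (hN : 1 ≤ N) :
    ((prt (b * N)).card : ℝ) = 8 * (b : ℝ) * (N : ℝ) := by
  have hN' : (1 : ℤ) ≤ N := by exact_mod_cast hN
  have hm : (3 : ℤ) ≤ b * N := by nlinarith
  have hsub : qi (b * N) ⊆ Icc (-(b * N)) (b * N) ×ˢ Icc (-(b * N)) (b * N) := by
    intro x hx
    rw [mem_qi] at hx
    simp only [Finset.mem_product, Finset.mem_Icc]
    omega
  have h1 := Finset.card_sdiff_add_card_eq_card hsub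
  have h2 : ((qi (b * N)).card : ℤ) = (2 * (b * N) - 1) * (2 * (b * N) - 1) := by
    unfold qi
    rw [Finset.card_product, Int.card_Icc]
    push_cast
    rw [Int.toNat_of_nonneg (by linarith)]
    ring
  have h3 : ((Icc (-(b * N)) (b * N) ×ˢ Icc (-(b * N)) (b * N)).card : ℤ) =
      (2 * (b * N) + 1) * (2 * (b * N) + 1) := by
    rw [Finset.card_product, Int.card_Icc]
    push_cast
    rw [Int.toNat_of_nonneg (by linarith)]
    ring
  have h4 : ((prt (b * N)).card : ℤ) = 8 * b * N := by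
    have : ((prt (b * N)).card : ℤ) + (qi (b * N)).card =
        (Icc (-(b * N)) (b * N) ×ˢ Icc (-(b * N)) (b * N)).card := by
      unfold prt
      exact_mod_cast h1
    rw [h2, h3] at this
    linarith
  exact_mod_cast h4

private theorem ne_node {b : ℤ} (hb : 3 ≤ b) : ¬ node b ((1 : ℤ), (1 : ℤ)) := by
  unfold node
  rintro (h | h) <;> · have := Int.le_of_dvd one_pos h; linarith

theorem gadget {c Es : ℝ} (hc : 0 < c) (h1 : -c < Es) (h2 : Es < 8 + c) :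
    ∃ (b : ℤ) (z v ρ r δ0 C : ℝ), 3 ≤ b ∧ 0 < z ∧ z < 1 ∧ 0 < ρ ∧ 0 < r ∧ 0 < δ0 ∧ 1 ≤ C ∧
      (∀ E : ℝ, |E - Es| < δ0 → |E - 4 + v| + ρ + 6 * r ≤ c) ∧
      ∀ N : ℕ, 1 ≤ N → ∃ Vs : ℤ × ℤ → ℝ, (∀ x, |Vs x - v| ≤ ρ / 2) ∧
        ∀ W : ℤ × ℤ → ℝ, (∀ x ∈ inn (b * N), |W x - Vs x| ≤ Real.exp (-(C * (N : ℝ) ^ 3))) →
          (KM (b * N) W).det ≠ 0 ∧
          (∀ x y, |KI (b * N) W x y| ≤ Real.exp (C * (N : ℝ) ^ 3)) ∧
          |ze0 (b * N) W - v| ≤ ρ ∧
          z ^ (2 * N) / C ≤ ∑ x ∈ prt (b * N), ph0 (b * N) W x ^ 2 ∧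
          ∑ x ∈ prt (b * N), ph0 (b * N) W x ^ 2 ≤ C * N * z ^ (2 * N) := by
  -- choice of v
  obtain ⟨v, hv1, hv2, hvc⟩ : ∃ v : ℝ, -4 < v ∧ v < 4 ∧ |Es - 4 + v| < c := by
    have h4c : 0 < 4 + c := by linarith
    refine ⟨4 * (4 - Es) / (4 + c), ?_, ?_, ?_⟩
    · rw [lt_div_iff₀ h4c]; nlinarith
    · rw [div_lt_iff₀ h4c]; nlinarith
    · have he : Es - 4 + 4 * (4 - Es) / (4 + c) = (Es - 4) * c / (4 + c) := by
        field_simp
        ring
      rw [he, abs_lt]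
      constructor
      · rw [lt_div_iff₀ h4c]; nlinarith
      · rw [div_lt_iff₀ h4c]; nlinarith
  set d : ℝ := c - |Es - 4 + v| with hd
  have hd0 : 0 < d := by rw [hd]; linarith
  set ρ : ℝ := d / 16 with hρ
  have hρ0 : 0 < ρ := by rw [hρ]; linarith
  obtain ⟨b, z, P, CM, hb, hz, hz1, hVp, hCM, hCE⟩ := exists_prof v hv1 hv2 (ρ / 4) (by linarith)
  obtain ⟨C₁, hC1, hreal⟩ := real_nodes hb hz hz1 P hCM hCE (v - ρ / 4) (v + ρ / 4) (by linarith)
  obtain ⟨pM, hpM1, hpM, hup⟩ := ww_upper hb hz hz1 P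
  have hb0 : (0 : ℝ) < b := by exact_mod_cast (by linarith : (0 : ℤ) < b)
  have hp11 : P.p (1, 1) ≠ 0 := by
    apply P.ne
    simp only [cl, Finset.mem_product, Finset.mem_Icc]
    omega
  set q : ℝ := |P.p (1, 1)| with hq
  have hq0 : 0 < q := abs_pos.2 hp11
  set θ : ℝ := min 1 (min (ρ * q / 8) (q / 2)) with hθ
  have hθ0 : 0 < θ := by
    rw [hθ]
    refine lt_min one_pos (lt_min ?_ ?_) <;> positivity
  have hθ1 : θ ≤ 1 := min_le_left _ _
  have hθ2 : θ ≤ ρ * q / 8 := (min_le_right _ _).trans (min_le_left _ _)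
  have hθ3 : θ ≤ q / 2 := (min_le_right _ _).trans (min_le_right _ _)
  set lam : ℝ := Real.log (pM / θ) with hlam
  have hlam0 : 0 ≤ lam := by
    apply Real.log_nonneg
    rw [le_div_iff₀ hθ0]
    linarith
  set mu : ℝ := -Real.log z with hmu
  have hmu0 : 0 ≤ mu := by
    have := Real.log_neg hz hz1
    rw [hmu]; linarith
  set A : ℝ := 8 * pM / (q * z) with hA
  have hA0 : 0 ≤ A := by rw [hA]; positivity
  refine ⟨b, z, v, ρ, d / 32, d / 16, C₁ + 8 * (b : ℝ) ^ 2 + lam + mu + 4 + 8 * b * A ^ 2,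
    hb, hz, hz1, hρ0, by linarith, by linarith, ?_, ?_, ?_⟩
  · have : 0 ≤ 8 * (b : ℝ) * A ^ 2 := by positivity
    nlinarith [sq_nonneg (b : ℝ)]
  · intro E hE
    have h3 : |E - 4 + v| ≤ |E - Es| + |Es - 4 + v| := by
      have : E - 4 + v = (E - Es) + (Es - 4 + v) := by ring
      rw [this]
      exact abs_add_le _ _
    rw [hρ]
    linarith
  set C : ℝ := C₁ + 8 * (b : ℝ) ^ 2 + lam + mu + 4 + 8 * b * A ^ 2 with hC
  intro N hN
  obtain ⟨Vs, hVs1, hVs2, hdet, hinv⟩ := hreal N hN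
  have hNr : (1 : ℝ) ≤ N := by exact_mod_cast hN
  have hN3 : (N : ℝ) ≤ (N : ℝ) ^ 3 := by nlinarith [sq_nonneg ((N : ℝ)), mul_self_nonneg ((N : ℝ) - 1)]
  have hN3' : (1 : ℝ) ≤ (N : ℝ) ^ 3 := one_le_pow₀ hNr
  have hN23 : (N : ℝ) ^ 2 ≤ (N : ℝ) ^ 3 := pow_le_pow_right₀ hNr (by norm_num)
  have hVe : ∀ x, ¬ node b x → |Ve b P.p x - v| < ρ / 4 := fun x hx => hVp _ (rr_mem hb hx)
  refine ⟨Vs, ?_, ?_⟩
  · intro x
    by_cases hx : node b x
    · rcases hVs2 x hx with h | h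
      · rw [h, show v - ρ / 4 - v = -(ρ / 4) by ring, abs_neg, abs_of_pos (by linarith)]
        linarith
      · rw [h, show v + ρ / 4 - v = ρ / 4 by ring, abs_of_pos (by linarith)]
        linarith
    · rw [hVs1 x hx]
      linarith [hVe x hx]
  intro W hW
  set n : ℝ := ((inn (b * N)).card : ℝ) with hn
  have hn0 : 0 ≤ n := by rw [hn]; positivity
  have hnb : n ≤ 4 * (b : ℝ) ^ 2 * (N : ℝ) ^ 2 := card_inn hb hN
  have hBpos : 0 < Real.exp (C₁ * (N : ℝ) ^ 3) := Real.exp_pos _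
  -- 8 b² N² ≤ exp (8 b² N³)
  have h8 : 2 * n ≤ Real.exp (8 * (b : ℝ) ^ 2 * (N : ℝ) ^ 3) := by
    have h9 : 2 * n ≤ 8 * (b : ℝ) ^ 2 * (N : ℝ) ^ 3 := by
      have : 4 * (b : ℝ) ^ 2 * (N : ℝ) ^ 2 ≤ 4 * (b : ℝ) ^ 2 * (N : ℝ) ^ 3 :=
        mul_le_mul_of_nonneg_left hN23 (by positivity)
      linarith
    linarith [Real.add_one_le_exp (8 * (b : ℝ) ^ 2 * (N : ℝ) ^ 3)]
  have hrest : 0 ≤ 4 + 8 * (b : ℝ) * A ^ 2 := by positivity
  have hexp1 : Real.exp (8 * (b : ℝ) ^ 2 * (N : ℝ) ^ 3) * Real.exp (C₁ * (N : ℝ) ^ 3) *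
      Real.exp (-(C * (N : ℝ) ^ 3)) ≤ Real.exp (-((lam + mu) * (N : ℝ) ^ 3)) := by
    rw [← Real.exp_add, ← Real.exp_add]
    apply Real.exp_le_exp.2
    rw [hC]
    nlinarith [mul_nonneg hrest (by linarith : (0 : ℝ) ≤ (N : ℝ) ^ 3)]
  have hnBδ : n * Real.exp (C₁ * (N : ℝ) ^ 3) * Real.exp (-(C * (N : ℝ) ^ 3)) ≤
      Real.exp (-((lam + mu) * (N : ℝ) ^ 3)) / 2 := by
    have h9 : 2 * n * Real.exp (C₁ * (N : ℝ) ^ 3) * Real.exp (-(C * (N : ℝ) ^ 3)) ≤
        Real.exp (8 * (b : ℝ) ^ 2 * (N : ℝ) ^ 3) * Real.exp (C₁ * (N : ℝ) ^ 3) *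
      Real.exp (-(C * (N : ℝ) ^ 3)) := by gcongr
    linarith
  have hsmall : Real.exp (-((lam + mu) * (N : ℝ) ^ 3)) ≤ θ / pM * z ^ N := by
    have h9 : Real.exp (-lam) = θ / pM := by
      rw [hlam, Real.exp_neg, Real.exp_log (by positivity), inv_div]
    have h10 : Real.exp (-(mu * N)) = z ^ N := by
      rw [hmu, show -(-Real.log z * N) = N * Real.log z by ring, Real.exp_nat_mul,
        Real.exp_log hz]
    rw [← h9, ← h10, ← Real.exp_add]
    apply Real.exp_le_exp.2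
    nlinarith [mul_le_mul_of_nonneg_left hN3 hmu0, mul_le_mul_of_nonneg_left hN3' hlam0]
  have hs : n * Real.exp (C₁ * (N : ℝ) ^ 3) * Real.exp (-(C * (N : ℝ) ^ 3)) ≤ 1 / 2 := by
    have : Real.exp (-((lam + mu) * (N : ℝ) ^ 3)) ≤ 1 := by
      apply Real.exp_le_one_iff.2
      have : 0 ≤ (lam + mu) * (N : ℝ) ^ 3 := by positivity
      linarith
    linarith
  obtain ⟨hd1, hd2, hd3⟩ := win hb hz P pM hpM N hN Vs hVs1 (Real.exp (C₁ * (N : ℝ) ^ 3))
    (Real.exp (-(C * (N : ℝ) ^ 3))) hBpos.le (Real.exp_pos _).le hdet hinv hs W hW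
  have hpM0 : 0 < pM := by linarith
  have heps : 2 * n * Real.exp (C₁ * (N : ℝ) ^ 3) * (Real.exp (-(C * (N : ℝ) ^ 3)) * pM) ≤
      θ * z ^ N := by
    have h9 : 2 * n * Real.exp (C₁ * (N : ℝ) ^ 3) * (Real.exp (-(C * (N : ℝ) ^ 3)) * pM) =
        2 * (n * Real.exp (C₁ * (N : ℝ) ^ 3) * Real.exp (-(C * (N : ℝ) ^ 3))) * pM := by ring
    rw [h9]
    calc 2 * (n * Real.exp (C₁ * (N : ℝ) ^ 3) * Real.exp (-(C * (N : ℝ) ^ 3))) * pM
        ≤ 2 * ((θ / pM * z ^ N) / 2) * pM := by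
          gcongr
          exact hnBδ.trans (by linarith)
      _ = θ * z ^ N := by field_simp
  have hww1 : ww b z P.p (1, 1) = P.p (1, 1) := ww_centre hb P
  -- the basic estimate
  have hSV : ∀ x ∈ inn (b * N), |P.p (1, 1) * SV (b * N) W x - ww b z P.p x| ≤ θ * z ^ N := by
    intro x hx
    have := hd3 x hx
    rw [hww1] at this
    exact this.trans heps
  have hzN : z ^ N ≤ 1 := pow_le_one₀ hz.le hz1.le
  have hzN0 : 0 < z ^ N := pow_pos hz N
  have hNi : (1 : ℤ) ≤ N := by exact_mod_cast hN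
  have hm3 : (3 : ℤ) ≤ b * N := by nlinarith
  refine ⟨hd1, ?_, ?_, ?_, ?_⟩
  · intro x y
    refine (hd2 x y).trans ?_
    calc 2 * n * Real.exp (C₁ * (N : ℝ) ^ 3)
        ≤ Real.exp (8 * (b : ℝ) ^ 2 * (N : ℝ) ^ 3) * Real.exp (C₁ * (N : ℝ) ^ 3) := by gcongr
      _ = Real.exp ((8 * (b : ℝ) ^ 2 + C₁) * (N : ℝ) ^ 3) := by
          rw [← Real.exp_add]; ring_nf
      _ ≤ Real.exp (C * (N : ℝ) ^ 3) := by
          apply Real.exp_le_exp.2
          apply mul_le_mul_of_nonneg_right _ (by linarith)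
          rw [hC]
          linarith
  · -- the resonant value
    have hnb4 : ze0 (b * N) W = nbs (SV (b * N) W) (1, 1) := by
      unfold ze0
      rw [sum4]
      have hmem : ∀ y : ℤ × ℤ, (-1 ≤ y.1 ∧ y.1 ≤ 2) → (-1 ≤ y.2 ∧ y.2 ≤ 2) → y ≠ (1, 1) →
          y ∈ inn (b * N) := by
        intro y h3 h4 h5
        rw [mem_inn]
        exact ⟨h5, by omega⟩
      unfold nbs
      simp only
      rw [if_pos (hmem _ (by norm_num) (by norm_num) (by simp)),
        if_pos (hmem _ (by norm_num) (by norm_num) (by simp)),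
        if_pos (hmem _ (by norm_num) (by norm_num) (by simp)),
        if_pos (hmem _ (by norm_num) (by norm_num) (by simp))]
    have hcell := ww_cell hb hz P (ne_node hb)
    rw [hww1] at hcell
    have hmem : ∀ y : ℤ × ℤ, (-1 ≤ y.1 ∧ y.1 ≤ 2) → (-1 ≤ y.2 ∧ y.2 ≤ 2) → y ≠ (1, 1) →
        y ∈ inn (b * N) := by
      intro y h3 h4 h5
      rw [mem_inn]
      exact ⟨h5, by omega⟩
    have e1 := hSV ((1 : ℤ) + 1, 1) (hmem _ (by norm_num) (by norm_num) (by simp))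
    have e2 := hSV ((1 : ℤ) - 1, 1) (hmem _ (by norm_num) (by norm_num) (by simp))
    have e3 := hSV ((1 : ℤ), 1 + 1) (hmem _ (by norm_num) (by norm_num) (by simp))
    have e4 := hSV ((1 : ℤ), 1 - 1) (hmem _ (by norm_num) (by norm_num) (by simp))
    have h5 : |P.p (1, 1) * ze0 (b * N) W - Ve b P.p (1, 1) * P.p (1, 1)| ≤ 4 * (θ * z ^ N) := by
      rw [hnb4, hcell]
      unfold nbs
      simp only
      have : P.p (1, 1) * (SV (b * N) W (1 + 1, 1) + SV (b * N) W (1 - 1, 1) +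
          SV (b * N) W (1, 1 + 1) + SV (b * N) W (1, 1 - 1)) -
          (ww b z P.p (1 + 1, 1) + ww b z P.p (1 - 1, 1) + ww b z P.p (1, 1 + 1) +
            ww b z P.p (1, 1 - 1)) =
          (P.p (1, 1) * SV (b * N) W (1 + 1, 1) - ww b z P.p (1 + 1, 1)) +
          (P.p (1, 1) * SV (b * N) W (1 - 1, 1) - ww b z P.p (1 - 1, 1)) +
          (P.p (1, 1) * SV (b * N) W (1, 1 + 1) - ww b z P.p (1, 1 + 1)) +
          (P.p (1, 1) * SV (b * N) W (1, 1 - 1) - ww b z P.p (1, 1 - 1)) := by ring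
      rw [this]
      rw [abs_le] at e1 e2 e3 e4 ⊢
      constructor <;> linarith [e1.1, e1.2, e2.1, e2.2, e3.1, e3.2, e4.1, e4.2]
    have h6 : |ze0 (b * N) W - Ve b P.p (1, 1)| ≤ ρ / 2 := by
      have h7 : P.p (1, 1) * ze0 (b * N) W - Ve b P.p (1, 1) * P.p (1, 1) =
          P.p (1, 1) * (ze0 (b * N) W - Ve b P.p (1, 1)) := by ring
      rw [h7, abs_mul, ← hq] at h5
      have h8 : q * |ze0 (b * N) W - Ve b P.p (1, 1)| ≤ q * (ρ / 2) := by
        calc q * |ze0 (b * N) W - Ve b P.p (1, 1)| ≤ 4 * (θ * z ^ N) := h5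
          _ ≤ 4 * (θ * 1) := by gcongr
          _ ≤ q * (ρ / 2) := by linarith
      exact le_of_mul_le_mul_left h8 hq0
    have h7 := hVe (1, 1) (ne_node hb)
    have h8 : ze0 (b * N) W - v = (ze0 (b * N) W - Ve b P.p (1, 1)) + (Ve b P.p (1, 1) - v) := by
      ring
    rw [h8]
    refine (abs_add_le _ _).trans ?_
    linarith
  · -- lower bound of the coupling
    have hx0 : ((b * N : ℤ), (1 : ℤ)) ∈ prt (b * N) := by
      rw [mem_prt, mem_qi]
      simp only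
      omega
    have hph : ph0 (b * N) W (b * N, 1) = -SV (b * N) W (b * N - 1, 1) := by
      unfold ph0
      rw [sum4]
      have m1 : ((b * N + 1 : ℤ), (1 : ℤ)) ∉ inn (b * N) := by
        rw [mem_inn]; simp only; omega
      have m2 : ((b * N - 1 : ℤ), (1 : ℤ)) ∈ inn (b * N) := by
        rw [mem_inn]
        refine ⟨fun h => ?_, ?_⟩
        · have := congrArg Prod.fst h
          simp only at this
          omega
        · simp only; omega
      have m3 : ((b * N : ℤ), (1 + 1 : ℤ)) ∉ inn (b * N) := by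
        rw [mem_inn]; simp only; omega
      have m4 : ((b * N : ℤ), (1 - 1 : ℤ)) ∉ inn (b * N) := by
        rw [mem_inn]; simp only; omega
      unfold nbs
      simp only
      rw [if_neg m1, if_pos m2, if_neg m3, if_neg m4]
      ring
    have m2 : ((b * N - 1 : ℤ), (1 : ℤ)) ∈ inn (b * N) := by
      rw [mem_inn]
      refine ⟨fun h => ?_, ?_⟩
      · have := congrArg Prod.fst h
        simp only at this
        omega
      · simp only; omega
    have e1 := hSV _ m2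
    have e2 := ww_port hb hz P N hN
    rw [← hq] at e2
    have h5 : z ^ N / 2 ≤ |SV (b * N) W (b * N - 1, 1)| := by
      have h6 : |ww b z P.p (b * N - 1, 1)| ≤
          |P.p (1, 1) * SV (b * N) W (b * N - 1, 1)| + θ * z ^ N := by
        have : ww b z P.p (b * N - 1, 1) = P.p (1, 1) * SV (b * N) W (b * N - 1, 1) -
            (P.p (1, 1) * SV (b * N) W (b * N - 1, 1) - ww b z P.p (b * N - 1, 1)) := by ring
        rw [this]
        refine (abs_sub _ _).trans ?_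
        linarith
      rw [e2, abs_mul, ← hq] at h6
      have h7 : θ * z ^ N ≤ q / 2 * z ^ N := by gcongr
      have h8 : q * (z ^ N / 2) ≤ q * |SV (b * N) W (b * N - 1, 1)| := by linarith
      exact le_of_mul_le_mul_left h8 hq0
    have h6 : z ^ (2 * N) / 4 ≤ ph0 (b * N) W (b * N, 1) ^ 2 := by
      rw [hph, neg_sq, ← sq_abs (SV (b * N) W (b * N - 1, 1))]
      calc z ^ (2 * N) / 4 = (z ^ N / 2) ^ 2 := by rw [div_pow, ← pow_mul, mul_comm N 2]; norm_num
        _ ≤ _ := pow_le_pow_left₀ (by positivity) h5 2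
    have h7 : ph0 (b * N) W (b * N, 1) ^ 2 ≤ ∑ x ∈ prt (b * N), ph0 (b * N) W x ^ 2 :=
      Finset.single_le_sum (f := fun x => ph0 (b * N) W x ^ 2) (fun x _ => sq_nonneg _) hx0
    refine le_trans ?_ (h6.trans h7)
    have hC4 : 4 ≤ C := by
      rw [hC]
      have : 0 ≤ 8 * (b : ℝ) * A ^ 2 := by positivity
      nlinarith [sq_nonneg (b : ℝ)]
    exact div_le_div_of_nonneg_left (by positivity) (by norm_num) hC4
  · -- upper bound of the coupling
    have hAbd : ∀ y ∈ inn (b * N), (b * N - 1 ≤ |y.1| ∨ b * N - 1 ≤ |y.2|) →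
        |SV (b * N) W y| ≤ A / 4 * z ^ N := by
      intro y hy hy2
      have e1 := hSV y hy
      have e2 := hup N hN y hy2
      have hzz : z ^ N = z * z ^ (N - 1) := by
        rw [← pow_succ', Nat.sub_add_cancel hN]
      have hzp : 0 < z ^ (N - 1) := pow_pos hz _
      have h6 : |P.p (1, 1) * SV (b * N) W y| ≤ 2 * pM * z ^ (N - 1) := by
        have : P.p (1, 1) * SV (b * N) W y =
            (P.p (1, 1) * SV (b * N) W y - ww b z P.p y) + ww b z P.p y := by ring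
        rw [this]
        refine (abs_add_le _ _).trans ?_
        have h7 : θ * z ^ N ≤ pM * z ^ (N - 1) := by
          rw [hzz]
          have : θ * z ≤ pM := by nlinarith
          nlinarith
        linarith
      rw [abs_mul, ← hq] at h6
      have h8 : q * |SV (b * N) W y| ≤ q * (A / 4 * z ^ N) := by
        refine h6.trans (le_of_eq ?_)
        rw [hA, hzz]
        field_simp
        ring
      exact le_of_mul_le_mul_left h8 hq0
    have hph : ∀ x ∈ prt (b * N), ph0 (b * N) W x ^ 2 ≤ A ^ 2 * z ^ (2 * N) := by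
      intro x hx
      have hx' := mem_prt.1 hx
      rw [mem_qi] at hx'
      have hport : b * N ≤ |x.1| ∨ b * N ≤ |x.2| := by
        by_contra hcon
        push Not at hcon
        rw [abs_lt, abs_lt] at hcon
        exact hx'.2 (by omega)
      have hterm : ∀ y : ℤ × ℤ, adj x y →
          |(fun y => if y ∈ inn (b * N) then SV (b * N) W y else 0) y| ≤ A / 4 * z ^ N := by
        intro y hy
        simp only
        split_ifs with hy2
        · apply hAbd y hy2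
          unfold adj at hy
          rcases hy with hy | hy | hy | hy <;> rcases hport with h | h <;>
            rw [hy] <;> simp only <;> rw [le_abs] at h <;> rw [le_abs, le_abs] <;> omega
        · rw [abs_zero]
          positivity
      have habs : |ph0 (b * N) W x| ≤ A * z ^ N := by
        unfold ph0
        rw [abs_neg, sum4]
        unfold nbs
        refine (abs_add_le _ _).trans ?_
        refine (add_le_add ((abs_add_le _ _).trans (add_le_add (abs_add_le _ _) le_rfl))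
          le_rfl).trans ?_
        have t1 := hterm (x.1 + 1, x.2) (Or.inl rfl)
        have t2 := hterm (x.1 - 1, x.2) (Or.inr (Or.inl rfl))
        have t3 := hterm (x.1, x.2 + 1) (Or.inr (Or.inr (Or.inl rfl)))
        have t4 := hterm (x.1, x.2 - 1) (Or.inr (Or.inr (Or.inr rfl)))
        linarith
      calc ph0 (b * N) W x ^ 2 = |ph0 (b * N) W x| ^ 2 := (sq_abs _).symm
        _ ≤ (A * z ^ N) ^ 2 := pow_le_pow_left₀ (abs_nonneg _) habs 2
        _ = A ^ 2 * z ^ (2 * N) := by rw [mul_pow, ← pow_mul, mul_comm N 2]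
    calc ∑ x ∈ prt (b * N), ph0 (b * N) W x ^ 2 ≤ ∑ _x ∈ prt (b * N), A ^ 2 * z ^ (2 * N) :=
          Finset.sum_le_sum hph
      _ = (8 * b * N) * (A ^ 2 * z ^ (2 * N)) := by
          rw [Finset.sum_const, nsmul_eq_mul, card_prt hb hN]
      _ = (8 * b * A ^ 2) * N * z ^ (2 * N) := by ring
      _ ≤ C * N * z ^ (2 * N) := by
          gcongr
          rw [hC]
          nlinarith [sq_nonneg (b : ℝ)]

end Pool.Agent.Lib.MP_562b47_mp.BG
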