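import Pool.Agent.Lib.MP_562b47_mp.BG.SolB

/-!
# BG-Ratio: `u / ww` is almost constant in every cell

`msk u` is `u` with the values at the nodes replaced by `0`.

Proof. Cell of `x`: signs `σ_j = sign x_j`, `i_j = |x_j| / b`; sites `X r := (σ₁ (b i₁ + r₁), σ₂ (b i₂ + r₂))`,
`r ∈ cl b`. (Same cell for `x, y` non-nodes means `x.j / b = y.j / b` (floor), which is the same as equal
`σ_j, i_j`.) Put `v r := u (X r)` for `r ∈ cl b`, `0` outside. For `r ∈ cl b`, the neighbours of `X r` are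
the `X r'`, `r' ~ r` (reflected order if `σ = -1`), those with `r' ∉ cl b` are nodes; so
`nbs (msk u) (X r) = nbs v r`, `Ve (X r) = Vp p r`. If `r ≠ (1,1)` then `X r ≠ (1,1)`, and `|X r|_j < b N` because
`i_j ≤ N - 1`: the hypothesis gives `‖Vp p r * v r - nbs v r‖ ≤ G`. `CellEst` : with `s = v (1,1)/p (1,1)`,
`‖v r - s p r‖ ≤ CM G`. `ww (X r) = σ₁ σ₂ (-z)^{i₁+i₂} p r =: e * p r`, so
`‖u (X r)/ww (X r) - s/e‖ = ‖v r - s p r‖/(|e| |p r|) ≤ CM G/|ww (X r)| ≤ CM G/(pm z^{2N})`. Triangle inequality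
for `x` and `y`.
-/

namespace Pool.Agent.Lib.MP_562b47_mp.BG

variable {b : ℤ} {z : ℝ}

/-- `u` masked at the nodes -/
def msk (b : ℤ) (u : ℤ × ℤ → ℂ) (x : ℤ × ℤ) : ℂ := if node b x then 0 else u x

/-- one coordinate of the sites of a cell -/
private def xj (b s i r : ℤ) : ℤ := s * (b * i + r)

private theorem xj_abs {b s i r : ℤ} (hb : 3 ≤ b) (hs : s = 1 ∨ s = -1) (hi : 0 ≤ i) (hr : 0 ≤ r) :
    |xj b s i r| = b * i + r := by
  have h0 : 0 ≤ b * i := mul_nonneg (by omega) hi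
  have h1 : 0 ≤ b * i + r := by omega
  unfold xj
  rcases hs with rfl | rfl
  · rw [one_mul, abs_of_nonneg h1]
  · rw [abs_mul, abs_neg, abs_one, one_mul, abs_of_nonneg h1]

private theorem xj_dm {b s i r : ℤ} (hb : 3 ≤ b) (hs : s = 1 ∨ s = -1) (hi : 0 ≤ i) (hr : 0 ≤ r)
    (hr1 : r < b) : |xj b s i r| / b = i ∧ |xj b s i r| % b = r := by
  rw [xj_abs hb hs hi hr]
  exact (Int.ediv_emod_unique (by omega)).2 ⟨by ring, hr, hr1⟩

private theorem xj_sign {b s i r : ℤ} (hb : 3 ≤ b) (hs : s = 1 ∨ s = -1) (hi : 0 ≤ i)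
    (hr : 1 ≤ r) : (xj b s i r).sign = s := by
  have h0 : 0 ≤ b * i := mul_nonneg (by omega) hi
  have h1 : 0 < b * i + r := by omega
  unfold xj
  rcases hs with rfl | rfl
  · rw [one_mul]
    exact Int.sign_eq_one_of_pos h1
  · rw [neg_one_mul, Int.sign_neg, Int.sign_eq_one_of_pos h1]

private theorem xj_nd {b s i r : ℤ} (hb : 3 ≤ b) (hs : s = 1 ∨ s = -1) (hi : 0 ≤ i)
    (hr : 1 ≤ r) (hr1 : r < b) : ¬ b ∣ xj b s i r := by
  intro h
  have h2 := Int.emod_eq_zero_of_dvd ((dvd_abs b _).2 h)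
  rw [(xj_dm hb hs hi (by omega) hr1).2] at h2
  omega

private theorem xj_dvd {b s i r : ℤ} (hr : r = 0 ∨ r = b) : b ∣ xj b s i r := by
  unfold xj
  rcases hr with h | h
  · rw [h, add_zero]
    exact Dvd.intro (s * i) (by ring)
  · rw [h]
    exact Dvd.intro (s * (i + 1)) (by ring)

/-- representation of a non-multiple of `b` -/
private theorem xj_rep {b n : ℤ} (hb : 3 ≤ b) (hn : ¬ b ∣ n) :
    (n.sign = 1 ∨ n.sign = -1) ∧ 0 ≤ |n| / b ∧ 1 ≤ |n| % b ∧ |n| % b < b ∧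
      xj b n.sign (|n| / b) (|n| % b) = n := by
  have hn0 : n ≠ 0 := by
    rintro rfl
    exact hn (dvd_zero b)
  have h0 : 0 ≤ |n| % b := Int.emod_nonneg _ (by omega)
  have h1 : |n| % b < b := Int.emod_lt_of_pos _ (by omega)
  have h2 : |n| % b ≠ 0 := by
    intro h3
    exact hn ((dvd_abs b n).1 (Int.dvd_of_emod_eq_zero h3))
  refine ⟨?_, Int.ediv_nonneg (abs_nonneg _) (by omega), by omega, h1, ?_⟩
  · rcases lt_or_gt_of_ne hn0 with h | h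
    · right
      exact Int.sign_eq_neg_one_of_neg h
    · left
      exact Int.sign_eq_one_of_pos h
  · unfold xj
    rw [Int.mul_ediv_add_emod]
    exact Int.sign_mul_abs n

/-- same floor, not multiples of `b`: same sign and level -/
private theorem same_cell {b n m : ℤ} (hb : 3 ≤ b) (hn : ¬ b ∣ n) (hm : ¬ b ∣ m)
    (h : n / b = m / b) : n.sign = m.sign ∧ |n| / b = |m| / b := by
  have hb0 : 0 < b := by omega
  have hn0 : n ≠ 0 := by
    rintro rfl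
    exact hn (dvd_zero b)
  have hm0 : m ≠ 0 := by
    rintro rfl
    exact hm (dvd_zero b)
  have key : ∀ k : ℤ, ¬ b ∣ k → (-k) / b = -(k / b) - 1 := by
    intro k hk
    have a0 : 0 ≤ k % b := Int.emod_nonneg _ (by omega)
    have a1 : k % b < b := Int.emod_lt_of_pos _ hb0
    have a2 : k % b ≠ 0 := fun h3 => hk (Int.dvd_of_emod_eq_zero h3)
    have a3 := Int.mul_ediv_add_emod k b
    refine ((Int.ediv_emod_unique hb0 (a := -k) (q := -(k / b) - 1) (r := b - k % b)).2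
      ⟨?_, by omega, by omega⟩).1
    have a4 : b - k % b + b * (-(k / b) - 1) = -(b * (k / b) + k % b) := by ring
    rw [a4, a3]
  rcases lt_or_gt_of_ne hn0 with h1 | h1
  · have h2 : n / b < 0 := Int.ediv_neg_of_neg_of_pos h1 hb0
    have h3 : m < 0 := by
      by_contra hc
      have h4 : 0 ≤ m / b := Int.ediv_nonneg (by omega) hb0.le
      omega
    rw [Int.sign_eq_neg_one_of_neg h1, Int.sign_eq_neg_one_of_neg h3, abs_of_neg h1,
      abs_of_neg h3, key n hn, key m hm, h]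
    exact ⟨rfl, rfl⟩
  · have h2 : 0 ≤ n / b := Int.ediv_nonneg h1.le hb0.le
    have h3 : 0 < m := by
      by_contra hc
      have h4 : m < 0 := by omega
      have h5 : m / b < 0 := Int.ediv_neg_of_neg_of_pos h4 hb0
      omega
    rw [Int.sign_eq_one_of_pos h1, Int.sign_eq_one_of_pos h3, abs_of_pos h1,
      abs_of_pos h3, h]
    exact ⟨rfl, rfl⟩

/-- the sites of a cell -/
private def xs (b s1 s2 i1 i2 : ℤ) (r : ℤ × ℤ) : ℤ × ℤ := (xj b s1 i1 r.1, xj b s2 i2 r.2)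

private theorem mem_cl {b : ℤ} {r : ℤ × ℤ} :
    r ∈ cl b ↔ (1 ≤ r.1 ∧ r.1 ≤ b - 1) ∧ (1 ≤ r.2 ∧ r.2 ≤ b - 1) := by
  simp [cl, Finset.mem_product, Finset.mem_Icc]

private theorem nbs_xs {b s1 s2 i1 i2 : ℤ} (hs1 : s1 = 1 ∨ s1 = -1) (hs2 : s2 = 1 ∨ s2 = -1)
    (f : ℤ × ℤ → ℂ) (r : ℤ × ℤ) :
    nbs f (xs b s1 s2 i1 i2 r) = nbs (fun t => f (xs b s1 s2 i1 i2 t)) r := by
  unfold nbs xs xj
  rcases hs1 with rfl | rfl <;> rcases hs2 with rfl | rfl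
  · have e1 : ∀ t : ℤ, 1 * t + 1 = 1 * (t + 1) := fun t => by ring
    have e2 : ∀ t : ℤ, 1 * t - 1 = 1 * (t - 1) := fun t => by ring
    simp only [e1, e2, add_assoc, ← add_sub_assoc]
  · have e1 : ∀ t : ℤ, 1 * t + 1 = 1 * (t + 1) := fun t => by ring
    have e2 : ∀ t : ℤ, 1 * t - 1 = 1 * (t - 1) := fun t => by ring
    have e3 : ∀ t : ℤ, -1 * t + 1 = -1 * (t - 1) := fun t => by ring
    have e4 : ∀ t : ℤ, -1 * t - 1 = -1 * (t + 1) := fun t => by ring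
    simp only [e1, e2, e3, e4, add_assoc, ← add_sub_assoc]
    ring
  · have e1 : ∀ t : ℤ, 1 * t + 1 = 1 * (t + 1) := fun t => by ring
    have e2 : ∀ t : ℤ, 1 * t - 1 = 1 * (t - 1) := fun t => by ring
    have e3 : ∀ t : ℤ, -1 * t + 1 = -1 * (t - 1) := fun t => by ring
    have e4 : ∀ t : ℤ, -1 * t - 1 = -1 * (t + 1) := fun t => by ring
    simp only [e1, e2, e3, e4, add_assoc, ← add_sub_assoc]
    ring
  · have e3 : ∀ t : ℤ, -1 * t + 1 = -1 * (t - 1) := fun t => by ring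
    have e4 : ∀ t : ℤ, -1 * t - 1 = -1 * (t + 1) := fun t => by ring
    simp only [e3, e4, add_assoc, ← add_sub_assoc]
    ring

private theorem nbs_congr' {f g : ℤ × ℤ → ℂ} {r : ℤ × ℤ} (h : ∀ t, adj r t → f t = g t) :
    nbs f r = nbs g r := by
  unfold nbs
  rw [h _ (Or.inl rfl), h _ (Or.inr (Or.inl rfl)), h _ (Or.inr (Or.inr (Or.inl rfl))),
    h _ (Or.inr (Or.inr (Or.inr rfl)))]

/-- a neighbour of a site of the cell is in the cell or on its frame -/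
private theorem adj_cl {b : ℤ} {r t : ℤ × ℤ} (hr : r ∈ cl b) (h : adj r t) :
    t ∈ cl b ∨ (t.1 = 0 ∨ t.1 = b) ∨ (t.2 = 0 ∨ t.2 = b) := by
  rw [mem_cl] at hr ⊢
  rcases h with rfl | rfl | rfl | rfl <;> dsimp only <;> omega

private theorem cell_one (hb : 3 ≤ b) (hz : 0 < z) (P : Prof b z) {CM : ℝ} (hC : 0 < CM)
    (hP : CellEst b P.p CM) (pm : ℝ) (hpm : 0 < pm)
    (hlow : ∀ N : ℕ, 1 ≤ N → ∀ x : ℤ × ℤ, ¬ node b x → |x.1| < b * N → |x.2| < b * N →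
      pm * z ^ (2 * N) ≤ |ww b z P.p x|)
    (N : ℕ) (hN : 1 ≤ N) (u : ℤ × ℤ → ℂ) (G : ℝ) (hG : 0 ≤ G)
    (h : ∀ x, ¬ node b x → |x.1| < b * N → |x.2| < b * N → x ≠ (1, 1) →
      ‖(Ve b P.p x : ℂ) * u x - nbs (msk b u) x‖ ≤ G)
    (s1 s2 i1 i2 : ℤ) (hs1 : s1 = 1 ∨ s1 = -1) (hs2 : s2 = 1 ∨ s2 = -1)
    (hi1 : 0 ≤ i1) (hi2 : 0 ≤ i2) (hi1' : i1 < N) (hi2' : i2 < N) :
    ∃ q : ℂ, ∀ r ∈ cl b, ‖u (xs b s1 s2 i1 i2 r) / (ww b z P.p (xs b s1 s2 i1 i2 r) : ℂ) - q‖ ≤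
      CM * G / (pm * z ^ (2 * N)) := by
  -- facts on the sites
  have hnd : ∀ r ∈ cl b, ¬ node b (xs b s1 s2 i1 i2 r) := by
    intro r hr hn
    rw [mem_cl] at hr
    rcases hn with h1 | h1
    · exact xj_nd hb hs1 hi1 hr.1.1 (by omega) h1
    · exact xj_nd hb hs2 hi2 hr.2.1 (by omega) h1
  have hrr : ∀ r ∈ cl b, rr b (xs b s1 s2 i1 i2 r) = r := by
    intro r hr
    rw [mem_cl] at hr
    unfold rr xs
    rw [(xj_dm hb hs1 hi1 (by omega) (by omega)).2, (xj_dm hb hs2 hi2 (by omega) (by omega)).2]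
  have hlt : ∀ i r : ℤ, i < N → r ≤ b - 1 → b * i + r < b * N := by
    intro i r h1 h2
    have h3 : i + 1 ≤ (N : ℤ) := h1
    have h4 : b * (i + 1) ≤ b * N := mul_le_mul_of_nonneg_left h3 (by omega)
    have h5 : b * (i + 1) = b * i + b := by ring
    omega
  have hsz : ∀ r ∈ cl b, |(xs b s1 s2 i1 i2 r).1| < b * N ∧ |(xs b s1 s2 i1 i2 r).2| < b * N := by
    intro r hr
    rw [mem_cl] at hr
    refine ⟨?_, ?_⟩
    · change |xj b s1 i1 r.1| < b * N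
      rw [xj_abs hb hs1 hi1 (by omega)]
      exact hlt _ _ hi1' hr.1.2
    · change |xj b s2 i2 r.2| < b * N
      rw [xj_abs hb hs2 hi2 (by omega)]
      exact hlt _ _ hi2' hr.2.2
  have hbi : ∀ i r : ℤ, 0 ≤ i → 1 ≤ r → b * i + r = 1 → r = 1 := by
    intro i r h1 h2 h3
    have h4 : 0 ≤ b * i := mul_nonneg (by omega) h1
    omega
  have hone : ∀ r ∈ cl b, r ≠ (1, 1) → xs b s1 s2 i1 i2 r ≠ (1, 1) := by
    intro r hr hr1 he
    rw [mem_cl] at hr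
    apply hr1
    have e1 : xj b s1 i1 r.1 = 1 := congrArg Prod.fst he
    have e2 : xj b s2 i2 r.2 = 1 := congrArg Prod.snd he
    have f1 := xj_abs (r := r.1) hb hs1 hi1 (by omega)
    have f2 := xj_abs (r := r.2) hb hs2 hi2 (by omega)
    rw [e1, abs_one] at f1
    rw [e2, abs_one] at f2
    exact Prod.ext (hbi _ _ hi1 hr.1.1 f1.symm) (hbi _ _ hi2 hr.2.1 f2.symm)
  -- the values in the cell
  obtain ⟨v, hv⟩ : ∃ v : ℤ × ℤ → ℂ, v = fun r => if r ∈ cl b then u (xs b s1 s2 i1 i2 r) else 0 :=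
    ⟨_, rfl⟩
  have hv0 : ∀ r, r ∉ cl b → v r = 0 := by
    intro r hr
    rw [hv]
    exact if_neg hr
  have hv1 : ∀ r ∈ cl b, v r = u (xs b s1 s2 i1 i2 r) := by
    intro r hr
    rw [hv]
    exact if_pos hr
  have hmv : ∀ r ∈ cl b, nbs (msk b u) (xs b s1 s2 i1 i2 r) = nbs v r := by
    intro r hr
    rw [nbs_xs hs1 hs2]
    apply nbs_congr'
    intro t ht
    rcases adj_cl hr ht with h1 | h1 | h1
    · rw [hv1 t h1]
      exact if_neg (hnd t h1)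
    · have h2 : t ∉ cl b := by
        rw [mem_cl]
        omega
      rw [hv0 t h2]
      exact if_pos (Or.inl (xj_dvd h1))
    · have h2 : t ∉ cl b := by
        rw [mem_cl]
        omega
      rw [hv0 t h2]
      exact if_pos (Or.inr (xj_dvd h1))
  have hVe : ∀ r ∈ cl b, Ve b P.p (xs b s1 s2 i1 i2 r) = Vp P.p r := by
    intro r hr
    unfold Ve
    rw [hrr r hr]
  have hest := hP v G hG hv0 (by
    intro r hr hr1
    rw [← hmv r hr, hv1 r hr, ← hVe r hr]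
    exact h _ (hnd r hr) (hsz r hr).1 (hsz r hr).2 (hone r hr hr1))
  -- the exact solution
  obtain ⟨e, he⟩ : ∃ e : ℝ, e = ((s1 : ℤ) : ℝ) * ((s2 : ℤ) : ℝ) * (-z) ^ (i1 + i2).toNat :=
    ⟨_, rfl⟩
  have he0 : e ≠ 0 := by
    rw [he]
    refine mul_ne_zero (mul_ne_zero ?_ ?_) (pow_ne_zero _ (neg_ne_zero.2 hz.ne'))
    · rcases hs1 with rfl | rfl <;> norm_num
    · rcases hs2 with rfl | rfl <;> norm_num
  have hww : ∀ r ∈ cl b, ww b z P.p (xs b s1 s2 i1 i2 r) = e * P.p r := by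
    intro r hr
    have hm := hr
    rw [mem_cl] at hm
    unfold ww
    rw [hrr r hr]
    unfold lv xs
    dsimp only
    rw [xj_sign hb hs1 hi1 hm.1.1, xj_sign hb hs2 hi2 hm.2.1,
      (xj_dm hb hs1 hi1 (by omega) (by omega)).1, (xj_dm hb hs2 hi2 (by omega) (by omega)).1, he]
  refine ⟨v (1, 1) / (P.p (1, 1) : ℂ) / (e : ℂ), ?_⟩
  intro r hr
  have hpr : (P.p r : ℂ) ≠ 0 := by
    exact_mod_cast P.ne r hr
  have hec : (e : ℂ) ≠ 0 := by
    exact_mod_cast he0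
  have hW : 0 < pm * z ^ (2 * N) := mul_pos hpm (pow_pos hz _)
  have hl := hlow N hN _ (hnd r hr) (hsz r hr).1 (hsz r hr).2
  have hid : u (xs b s1 s2 i1 i2 r) / (ww b z P.p (xs b s1 s2 i1 i2 r) : ℂ)
      - v (1, 1) / (P.p (1, 1) : ℂ) / (e : ℂ)
      = (v r - v (1, 1) / (P.p (1, 1) : ℂ) * (P.p r : ℂ)) /
        (ww b z P.p (xs b s1 s2 i1 i2 r) : ℂ) := by
    rw [hww r hr, hv1 r hr]
    push_cast
    rw [sub_div (u (xs b s1 s2 i1 i2 r)), mul_div_mul_right _ _ hpr]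
  rw [hid, norm_div, Complex.norm_real, Real.norm_eq_abs]
  have h3 : 0 < |ww b z P.p (xs b s1 s2 i1 i2 r)| := lt_of_lt_of_le hW hl
  rw [div_le_div_iff₀ h3 hW]
  exact mul_le_mul (hest r hr) hl hW.le (by positivity)

theorem cell_ratio (hb : 3 ≤ b) (hz : 0 < z) (hz1 : z < 1) (P : Prof b z) {CM : ℝ} (hC : 0 < CM)
    (hP : CellEst b P.p CM) (pm : ℝ) (hpm : 0 < pm)
    (hlow : ∀ N : ℕ, 1 ≤ N → ∀ x : ℤ × ℤ, ¬ node b x → |x.1| < b * N → |x.2| < b * N →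
      pm * z ^ (2 * N) ≤ |ww b z P.p x|)
    (N : ℕ) (hN : 1 ≤ N) (u : ℤ × ℤ → ℂ) (G : ℝ) (hG : 0 ≤ G)
    (h : ∀ x, ¬ node b x → |x.1| < b * N → |x.2| < b * N → x ≠ (1, 1) →
      ‖(Ve b P.p x : ℂ) * u x - nbs (msk b u) x‖ ≤ G)
    (x y : ℤ × ℤ) (hx : ¬ node b x) (hy : ¬ node b y) (h1 : |x.1| < b * N) (h2 : |x.2| < b * N)
    (e1 : x.1 / b = y.1 / b) (e2 : x.2 / b = y.2 / b) :
    ‖u x / (ww b z P.p x : ℂ) - u y / (ww b z P.p y : ℂ)‖ ≤ 2 * CM * G / (pm * z ^ (2 * N)) := by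
  have hx' := hx
  have hy' := hy
  unfold node at hx' hy'
  push Not at hx' hy'
  obtain ⟨hsx1, hix1, hrx1, hrx1', hX1⟩ := xj_rep hb hx'.1
  obtain ⟨hsx2, hix2, hrx2, hrx2', hX2⟩ := xj_rep hb hx'.2
  obtain ⟨-, -, hry1, hry1', hY1⟩ := xj_rep hb hy'.1
  obtain ⟨-, -, hry2, hry2', hY2⟩ := xj_rep hb hy'.2
  obtain ⟨hsg1, hiv1⟩ := same_cell hb hx'.1 hy'.1 e1
  obtain ⟨hsg2, hiv2⟩ := same_cell hb hx'.2 hy'.2 e2
  have hiN : ∀ n : ℤ, |n| < b * N → |n| / b < N := by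
    intro n hn
    apply Int.ediv_lt_of_lt_mul (by omega)
    rw [mul_comm]
    exact hn
  obtain ⟨q, hq⟩ := cell_one hb hz P hC hP pm hpm hlow N hN u G hG h x.1.sign x.2.sign
    (|x.1| / b) (|x.2| / b) hsx1 hsx2 hix1 hix2 (hiN _ h1) (hiN _ h2)
  have hqx := hq (|x.1| % b, |x.2| % b) (by
    rw [mem_cl]
    dsimp only
    omega)
  have hqy := hq (|y.1| % b, |y.2| % b) (by
    rw [mem_cl]
    dsimp only
    omega)
  have ex : xs b x.1.sign x.2.sign (|x.1| / b) (|x.2| / b) (|x.1| % b, |x.2| % b) = x :=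
    Prod.ext hX1 hX2
  have ey : xs b x.1.sign x.2.sign (|x.1| / b) (|x.2| / b) (|y.1| % b, |y.2| % b) = y := by
    rw [hsg1, hsg2, hiv1, hiv2]
    exact Prod.ext hY1 hY2
  rw [ex] at hqx
  rw [ey] at hqy
  have h3 : u x / (ww b z P.p x : ℂ) - u y / (ww b z P.p y : ℂ) =
      (u x / (ww b z P.p x : ℂ) - q) - (u y / (ww b z P.p y : ℂ) - q) := by ring
  rw [h3]
  refine (norm_sub_le _ _).trans ?_
  have h4 : 2 * CM * G / (pm * z ^ (2 * N)) =
      CM * G / (pm * z ^ (2 * N)) + CM * G / (pm * z ^ (2 * N)) := by ring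
  rw [h4]
  exact add_le_add hqx hqy

end Pool.Agent.Lib.MP_562b47_mp.BG
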