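import Pool.Agent.Lib.MP_562b47_mp.BG.Defs

/-!
# BG-SolA: the exact solution, equations

Write `|x_j| = b i_j + r_j`, `0 ≤ r_j < b` (`rr`, `lv`; `abs` and `Int.emod`, `Int.ediv`). One
coordinate at a time: a useful private lemma is, for `n : ℤ` not divisible by `b` and `n + 1` not
divisible by `b`: `|n|/b = |n+1|/b` and `|n+1| % b = |n| % b ± 1` (sign of `n`); this also covers passing
through `0`, because `0` is divisible by `b`.

`ww_node`: `r₁ = 0` or `r₂ = 0`, and `p = 0` outside the cell (or `sign 0 = 0`).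
`ww_cell`: `x` not a node. If a neighbour `y` of `x` is not a node it lies in the same cell (same
signs, same `i_j`), `rr y` is the corresponding neighbour of `rr x` (reflected if the sign is
negative), and `ww y = (same sign)(same power) p (rr y)`. If `y` is a node, `ww y = 0` and the
corresponding neighbour of `rr x` has a coordinate `0` or `b`, so `p` vanishes there too (`out`).
So `nbs ww x = (sign)(power) nbs p (rr x)` and `Ve x = nbs p (rr x) / p (rr x)`, `p (rr x) ≠ 0`.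
`ww_cross1`: `x₁ = b i`. `i = 0`: `sign (1) = - sign (-1)`. `i > 0`: left neighbour has
`|x₁ - 1| = b (i-1) + (b-1)`, right neighbour `|x₁+1| = b i + 1`:
`(-z)^{i-1+i₂} p (b-1, r₂) = (-z)^{i-1+i₂} z p (1, r₂) = - (-z)^{i+i₂} p (1, r₂)` by `side1`. `i < 0`: the
same with left and right exchanged. `ww_cross2` in the same way with `side2`.
`nbs_node`: the two neighbours along the node line are nodes, the other two cancel (`ww_cross`).
-/

namespace Pool.Agent.Lib.MP_562b47_mp.BG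

open Finset

variable {b : ℤ} {z : ℝ}

private theorem sola_dm {b a q r : ℤ} (hb : 0 < b) (h : a = b * q + r) (h0 : 0 ≤ r)
    (h1 : r < b) : a / b = q ∧ a % b = r :=
  (Int.ediv_emod_unique hb).2 ⟨by linarith, h0, h1⟩

/-- sign and power in one coordinate -/
private noncomputable def sg (b : ℤ) (z : ℝ) (n : ℤ) : ℝ :=
  ((n.sign : ℤ) : ℝ) * (-z) ^ (|n| / b).toNat

/-- one-dimensional solution with profile `f` -/
private noncomputable def hh (b : ℤ) (z : ℝ) (f : ℤ → ℝ) (n : ℤ) : ℝ :=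
  sg b z n * f (|n| % b)

private theorem sg_neg (b : ℤ) (z : ℝ) (n : ℤ) : sg b z (-n) = - sg b z n := by
  unfold sg
  rw [Int.sign_neg, abs_neg]
  push_cast
  ring

private theorem hh_neg (b : ℤ) (z : ℝ) (f : ℤ → ℝ) (n : ℤ) : hh b z f (-n) = - hh b z f n := by
  unfold hh
  rw [sg_neg, abs_neg]
  ring

private theorem hh_pos {b : ℤ} {z : ℝ} {f : ℤ → ℝ} {n i r : ℤ} (hb : 3 ≤ b) (hn : 0 < n)
    (h : n = b * i + r) (h0 : 0 ≤ r) (h1 : r < b) : hh b z f n = (-z) ^ i.toNat * f r := by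
  obtain ⟨e1, e2⟩ := sola_dm (by omega) h h0 h1
  unfold hh sg
  rw [abs_of_pos hn, e1, e2, Int.sign_eq_one_of_pos hn]
  push_cast
  ring

private theorem hh_mod {b : ℤ} {z : ℝ} {f : ℤ → ℝ} {n : ℤ} (f0 : f 0 = 0) (h : b ∣ n) :
    hh b z f n = 0 := by
  unfold hh
  rw [Int.emod_eq_zero_of_dvd ((dvd_abs b n).2 h), f0, mul_zero]

private theorem step_pos {b : ℤ} {z : ℝ} {f : ℤ → ℝ} (hb : 3 ≤ b) (f0 : f 0 = 0) (fb : f b = 0)
    {n : ℤ} (hn : ¬ b ∣ n) (hpos : 0 < n) :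
    hh b z f (n + 1) + hh b z f (n - 1) =
      sg b z n * (f (|n| % b + 1) + f (|n| % b - 1)) := by
  have hb0 : 0 < b := by omega
  obtain ⟨i, hi⟩ : ∃ i, i = n / b := ⟨_, rfl⟩
  obtain ⟨r, hr⟩ : ∃ r, r = n % b := ⟨_, rfl⟩
  have hdecomp : n = b * i + r := by
    rw [hi, hr]
    exact (Int.mul_ediv_add_emod n b).symm
  have hr0 : 0 ≤ r := by rw [hr]; exact Int.emod_nonneg _ (by omega)
  have hr1 : r < b := by rw [hr]; exact Int.emod_lt_of_pos _ hb0
  have hrne : r ≠ 0 := by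
    intro h0
    apply hn
    exact Int.dvd_of_emod_eq_zero (by rw [← hr, h0])
  have hsg : sg b z n = (-z) ^ i.toNat := by
    unfold sg
    rw [abs_of_pos hpos, ← hi, Int.sign_eq_one_of_pos hpos]
    push_cast
    ring
  have hmod : |n| % b = r := by rw [abs_of_pos hpos, ← hr]
  have e1 : hh b z f (n + 1) = (-z) ^ i.toNat * f (r + 1) := by
    by_cases h : r + 1 < b
    · exact hh_pos hb (by omega) (by rw [hdecomp]; ring) (by omega) h
    · have h2 : r + 1 = b := by omega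
      rw [h2, fb, mul_zero]
      apply hh_mod f0
      refine ⟨i + 1, ?_⟩
      have h3 : b * (i + 1) = b * i + b := by ring
      rw [h3]
      omega
  have e2 : hh b z f (n - 1) = (-z) ^ i.toNat * f (r - 1) := by
    by_cases h : r = 1
    · rw [h, sub_self, f0, mul_zero]
      apply hh_mod f0
      refine ⟨i, ?_⟩
      omega
    · have hn1 : 0 < n - 1 := by
        have h2 : 0 ≤ i := by rw [hi]; exact Int.ediv_nonneg hpos.le hb0.le
        have h3 : 0 ≤ b * i := mul_nonneg hb0.le h2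
        omega
      exact hh_pos hb hn1 (by rw [hdecomp]; ring) (by omega) (by omega)
  rw [e1, e2, hsg, hmod]
  ring

private theorem step {b : ℤ} {z : ℝ} {f : ℤ → ℝ} (hb : 3 ≤ b) (f0 : f 0 = 0) (fb : f b = 0)
    {n : ℤ} (hn : ¬ b ∣ n) :
    hh b z f (n + 1) + hh b z f (n - 1) =
      sg b z n * (f (|n| % b + 1) + f (|n| % b - 1)) := by
  rcases lt_trichotomy n 0 with h | h | h
  · have h1 := step_pos (z := z) hb f0 fb (n := -n) (by rwa [dvd_neg]) (by omega)
    have e1 : -n + 1 = -(n - 1) := by ring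
    have e2 : -n - 1 = -(n + 1) := by ring
    rw [e1, e2, hh_neg, hh_neg, sg_neg, abs_neg] at h1
    linarith
  · exact absurd ⟨0, by rw [h, mul_zero]⟩ hn
  · exact step_pos hb f0 fb hn h

private theorem cross_pos {b : ℤ} {z : ℝ} {f : ℤ → ℝ} (hb : 3 ≤ b)
    (fs : f (b - 1) = z * f 1) {n : ℤ} (hn : b ∣ n) (hpos : 0 ≤ n) :
    hh b z f (n + 1) = - hh b z f (n - 1) := by
  have hb0 : 0 < b := by omega
  obtain ⟨i, hi⟩ := hn
  rcases hpos.eq_or_lt with h | h
  · have e1 : n - 1 = -(n + 1) := by omega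
    rw [e1, hh_neg, neg_neg]
  · have hi1 : 1 ≤ i := by
      by_contra hc
      have h2 : i ≤ 0 := by omega
      have h3 : b * i ≤ 0 := mul_nonpos_of_nonneg_of_nonpos hb0.le h2
      omega
    have h4 : b ≤ n := by
      rw [hi]
      nlinarith
    have e1 : hh b z f (n + 1) = (-z) ^ i.toNat * f 1 :=
      hh_pos hb (by omega) (by rw [hi]) (by omega) (by omega)
    have e2 : hh b z f (n - 1) = (-z) ^ (i - 1).toNat * f (b - 1) :=
      hh_pos hb (by omega) (by rw [hi]; ring) (by omega) (by omega)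
    have e3 : i.toNat = (i - 1).toNat + 1 := by omega
    rw [e1, e2, fs, e3, pow_succ]
    ring

private theorem cross {b : ℤ} {z : ℝ} {f : ℤ → ℝ} (hb : 3 ≤ b)
    (fs : f (b - 1) = z * f 1) {n : ℤ} (hn : b ∣ n) :
    hh b z f (n + 1) = - hh b z f (n - 1) := by
  rcases le_total 0 n with h | h
  · exact cross_pos hb fs hn h
  · have h1 := cross_pos (z := z) hb fs (n := -n) (by rwa [dvd_neg]) (by omega)
    have e1 : -n + 1 = -(n - 1) := by ring
    have e2 : -n - 1 = -(n + 1) := by ring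
    rw [e1, e2, hh_neg, hh_neg] at h1
    linarith

private theorem ww_sg (hb : 3 ≤ b) (p : ℤ × ℤ → ℝ) (x : ℤ × ℤ) :
    ww b z p x = sg b z x.1 * sg b z x.2 * p (|x.1| % b, |x.2| % b) := by
  unfold ww sg lv rr
  rw [Int.toNat_add (Int.ediv_nonneg (abs_nonneg _) (by omega))
    (Int.ediv_nonneg (abs_nonneg _) (by omega)), pow_add]
  ring

private theorem ww_h1 (hb : 3 ≤ b) (p : ℤ × ℤ → ℝ) (m n : ℤ) :
    ww b z p (m, n) = sg b z n * hh b z (fun r => p (r, |n| % b)) m := by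
  rw [ww_sg hb]
  unfold hh
  ring

private theorem ww_h2 (hb : 3 ≤ b) (p : ℤ × ℤ → ℝ) (m n : ℤ) :
    ww b z p (m, n) = sg b z m * hh b z (fun r => p (|m| % b, r)) n := by
  rw [ww_sg hb]
  unfold hh
  ring

private theorem p_out1 (P : Prof b z) (y : ℤ) : P.p (0, y) = 0 := by
  apply P.out
  unfold cl
  rw [mem_product, mem_Icc]
  rintro ⟨⟨h1, -⟩, -⟩
  exact absurd h1 (by norm_num)

private theorem p_out2 (P : Prof b z) (y : ℤ) : P.p (b, y) = 0 := by
  apply P.out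
  unfold cl
  rw [mem_product, mem_Icc]
  rintro ⟨⟨-, h1⟩, -⟩
  have h2 : b ≤ b - 1 := h1
  omega

private theorem p_out3 (P : Prof b z) (y : ℤ) : P.p (y, 0) = 0 := by
  apply P.out
  unfold cl
  rw [mem_product, mem_Icc, mem_Icc]
  rintro ⟨-, ⟨h1, -⟩⟩
  exact absurd h1 (by norm_num)

private theorem p_out4 (P : Prof b z) (y : ℤ) : P.p (y, b) = 0 := by
  apply P.out
  unfold cl
  rw [mem_product, mem_Icc, mem_Icc]
  rintro ⟨-, ⟨-, h1⟩⟩
  have h2 : b ≤ b - 1 := h1
  omega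

theorem rr_mem (hb : 3 ≤ b) {x : ℤ × ℤ} (hx : ¬ node b x) : rr b x ∈ cl b := by
  unfold node at hx
  push Not at hx
  have key : ∀ n : ℤ, ¬ b ∣ n → 1 ≤ |n| % b ∧ |n| % b ≤ b - 1 := by
    intro n hn
    have h0 : 0 ≤ |n| % b := Int.emod_nonneg _ (by omega)
    have h1 : |n| % b < b := Int.emod_lt_of_pos _ (by omega)
    have h2 : |n| % b ≠ 0 := by
      intro h3
      exact hn ((dvd_abs b n).1 (Int.dvd_of_emod_eq_zero h3))
    omega
  unfold cl rr
  rw [mem_product, mem_Icc, mem_Icc]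
  exact ⟨key _ hx.1, key _ hx.2⟩

theorem ww_node (hb : 3 ≤ b) (P : Prof b z) {x : ℤ × ℤ} (hx : node b x) : ww b z P.p x = 0 := by
  rw [ww_sg hb]
  rcases hx with h | h
  · rw [Int.emod_eq_zero_of_dvd ((dvd_abs b x.1).2 h), p_out1, mul_zero]
  · rw [Int.emod_eq_zero_of_dvd ((dvd_abs b x.2).2 h), p_out3, mul_zero]

theorem ww_ne (hb : 3 ≤ b) (hz : 0 < z) (P : Prof b z) {x : ℤ × ℤ} (hx : ¬ node b x) :
    ww b z P.p x ≠ 0 := by
  have hm := rr_mem hb hx
  unfold node at hx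
  push Not at hx
  have key : ∀ n : ℤ, ¬ b ∣ n → sg b z n ≠ 0 := by
    intro n hn
    have h0 : n ≠ 0 := by
      rintro rfl
      exact hn (dvd_zero b)
    unfold sg
    refine mul_ne_zero ?_ (pow_ne_zero _ (neg_ne_zero.2 hz.ne'))
    have h1 : n.sign ≠ 0 := fun h => h0 (Int.sign_eq_zero_iff_zero.1 h)
    exact_mod_cast h1
  rw [ww_sg hb]
  exact mul_ne_zero (mul_ne_zero (key _ hx.1) (key _ hx.2)) (P.ne _ hm)

theorem ww_cell (hb : 3 ≤ b) (hz : 0 < z) (P : Prof b z) {x : ℤ × ℤ} (hx : ¬ node b x) :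
    Ve b P.p x * ww b z P.p x = nbs (ww b z P.p) x := by
  have hm := rr_mem hb hx
  have hne := P.ne _ hm
  unfold node at hx
  push Not at hx
  have h1 : ww b z P.p (x.1 + 1, x.2) + ww b z P.p (x.1 - 1, x.2) =
      sg b z x.1 * sg b z x.2 * (P.p (|x.1| % b + 1, |x.2| % b) +
        P.p (|x.1| % b - 1, |x.2| % b)) := by
    rw [ww_h1 hb, ww_h1 hb, ← mul_add, step (f := fun r => P.p (r, |x.2| % b)) hb (p_out1 P _)
      (p_out2 P _) hx.1]
    ring
  have h2 : ww b z P.p (x.1, x.2 + 1) + ww b z P.p (x.1, x.2 - 1) =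
      sg b z x.1 * sg b z x.2 * (P.p (|x.1| % b, |x.2| % b + 1) +
        P.p (|x.1| % b, |x.2| % b - 1)) := by
    rw [ww_h2 hb, ww_h2 hb, ← mul_add, step (f := fun r => P.p (|x.1| % b, r)) hb (p_out3 P _)
      (p_out4 P _) hx.2]
    ring
  have h3 : nbs (ww b z P.p) x = sg b z x.1 * sg b z x.2 * nbs P.p (rr b x) := by
    have h4 : nbs (ww b z P.p) x = (ww b z P.p (x.1 + 1, x.2) + ww b z P.p (x.1 - 1, x.2)) +
        (ww b z P.p (x.1, x.2 + 1) + ww b z P.p (x.1, x.2 - 1)) := by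
      unfold nbs
      ring
    rw [h4, h1, h2]
    unfold nbs rr
    ring
  rw [h3, ww_sg hb]
  unfold Ve Vp
  have h5 : P.p (|x.1| % b, |x.2| % b) = P.p (rr b x) := rfl
  rw [h5]
  field_simp

theorem ww_cross1 (hb : 3 ≤ b) (P : Prof b z) {x : ℤ × ℤ} (hx : b ∣ x.1) :
    ww b z P.p (x.1 + 1, x.2) = - ww b z P.p (x.1 - 1, x.2) := by
  rw [ww_h1 hb, ww_h1 hb, cross (f := fun r => P.p (r, |x.2| % b)) hb (P.side1 _) hx]
  ring

theorem ww_cross2 (hb : 3 ≤ b) (P : Prof b z) {x : ℤ × ℤ} (hx : b ∣ x.2) :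
    ww b z P.p (x.1, x.2 + 1) = - ww b z P.p (x.1, x.2 - 1) := by
  rw [ww_h2 hb, ww_h2 hb, cross (f := fun r => P.p (|x.1| % b, r)) hb (P.side2 _) hx]
  ring

theorem nbs_node (hb : 3 ≤ b) (P : Prof b z) {x : ℤ × ℤ} (hx : node b x) :
    nbs (ww b z P.p) x = 0 := by
  unfold nbs
  rcases hx with h | h
  · rw [ww_cross1 hb P h, ww_node hb P (x := (x.1, x.2 + 1)) (Or.inl h),
      ww_node hb P (x := (x.1, x.2 - 1)) (Or.inl h)]
    ring
  · rw [ww_cross2 hb P h, ww_node hb P (x := (x.1 + 1, x.2)) (Or.inr h),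
      ww_node hb P (x := (x.1 - 1, x.2)) (Or.inr h)]
    ring

end Pool.Agent.Lib.MP_562b47_mp.BG
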