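import Pool.Agent.Lib.MP_562b47_mp.BG.SolA

/-!
# BG-SolB: size of the exact solution

`lower`: `pm := min |p|` over the cell (finite, nonempty, `p ≠ 0`); for `|x_j| < b N` the level is
`|x₁|/b + |x₂|/b ≤ 2(N-1)`, and `0 < z < 1`, so `z ^ lv ≥ z ^ (2N)`.
`upper`: `pM := 1 + max |p|`; `z ^ lv ≤ z ^ (|x₁|/b)`, and `|x₁| ≥ b N - 1` gives `|x₁|/b ≥ N - 1`; similarly `x₂`.
`port`: `x = (b N - 1, 1)`: `|x₁| = b (N-1) + (b-1)`, `lv = N - 1`, `|ww| = z^(N-1) |p (b-1, 1)| = z^N |p (1,1)|`.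
`centre`: `ww (1,1) = p (1,1)`.
-/

namespace Pool.Agent.Lib.MP_562b47_mp.BG

variable {b : ℤ} {z : ℝ}

private theorem abs_ww (b : ℤ) (hz : 0 < z) (p : ℤ × ℤ → ℝ) (x : ℤ × ℤ) :
    |ww b z p x| = |((x.1.sign : ℤ) : ℝ)| * |((x.2.sign : ℤ) : ℝ)| * z ^ lv b x * |p (rr b x)| := by
  unfold ww
  rw [abs_mul, abs_mul, abs_mul, abs_pow, abs_neg, abs_of_pos hz]

private theorem abs_sign_le (n : ℤ) : |((n.sign : ℤ) : ℝ)| ≤ 1 := by
  rcases lt_trichotomy n 0 with h | h | h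
  · rw [Int.sign_eq_neg_one_of_neg h]; norm_num
  · rw [h]; norm_num
  · rw [Int.sign_eq_one_of_pos h]; norm_num

private theorem abs_sign_eq {n : ℤ} (hn : n ≠ 0) : |((n.sign : ℤ) : ℝ)| = 1 := by
  rcases lt_trichotomy n 0 with h | h | h
  · rw [Int.sign_eq_neg_one_of_neg h]; norm_num
  · exact absurd h hn
  · rw [Int.sign_eq_one_of_pos h]; norm_num

private theorem one_mem_cl (hb : 3 ≤ b) : ((1, 1) : ℤ × ℤ) ∈ cl b := by
  unfold cl
  simp only [Finset.mem_product, Finset.mem_Icc]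
  omega

theorem ww_lower (hb : 3 ≤ b) (hz : 0 < z) (hz1 : z < 1) (P : Prof b z) :
    ∃ pm : ℝ, 0 < pm ∧ ∀ N : ℕ, 1 ≤ N → ∀ x : ℤ × ℤ, ¬ node b x → |x.1| < b * N → |x.2| < b * N →
      pm * z ^ (2 * N) ≤ |ww b z P.p x| := by
  obtain ⟨x0, hx0, hmin⟩ := (cl b).exists_min_image (fun x => |P.p x|) ⟨(1, 1), one_mem_cl hb⟩
  refine ⟨|P.p x0|, abs_pos.mpr (P.ne x0 hx0), ?_⟩
  intro N hN x hx h1 h2
  have hx1 : x.1 ≠ 0 := fun h => hx (Or.inl (h ▸ dvd_zero b))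
  have hx2 : x.2 ≠ 0 := fun h => hx (Or.inr (h ▸ dvd_zero b))
  rw [abs_ww b hz, abs_sign_eq hx1, abs_sign_eq hx2, one_mul, one_mul]
  have hb0 : 0 < b := by omega
  have e1 : |x.1| / b < N := Int.ediv_lt_of_lt_mul hb0 (by rw [mul_comm]; exact h1)
  have e2 : |x.2| / b < N := Int.ediv_lt_of_lt_mul hb0 (by rw [mul_comm]; exact h2)
  have hlv : lv b x ≤ 2 * N := by
    unfold lv
    omega
  have hz2 : z ^ (2 * N) ≤ z ^ lv b x := pow_le_pow_of_le_one hz.le hz1.le hlv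
  have hp := hmin (rr b x) (rr_mem hb hx)
  calc |P.p x0| * z ^ (2 * N) ≤ |P.p (rr b x)| * z ^ lv b x :=
        mul_le_mul hp hz2 (by positivity) (abs_nonneg _)
    _ = z ^ lv b x * |P.p (rr b x)| := mul_comm _ _

theorem ww_upper (hb : 3 ≤ b) (hz : 0 < z) (hz1 : z < 1) (P : Prof b z) :
    ∃ pM : ℝ, 1 ≤ pM ∧ (∀ x, |ww b z P.p x| ≤ pM) ∧
      ∀ N : ℕ, 1 ≤ N → ∀ x : ℤ × ℤ, (b * N - 1 ≤ |x.1| ∨ b * N - 1 ≤ |x.2|) →
        |ww b z P.p x| ≤ pM * z ^ (N - 1) := by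
  obtain ⟨x0, hx0, hmax⟩ := (cl b).exists_max_image (fun x => |P.p x|) ⟨(1, 1), one_mem_cl hb⟩
  have hp : ∀ x, |P.p x| ≤ 1 + |P.p x0| := by
    intro x
    by_cases hx : x ∈ cl b
    · have := hmax x hx
      linarith
    · rw [P.out x hx, abs_zero]; positivity
  have hgen : ∀ x, |ww b z P.p x| ≤ z ^ lv b x * (1 + |P.p x0|) := by
    intro x
    rw [abs_ww b hz]
    have h1 := abs_sign_le x.1
    have h2 := abs_sign_le x.2
    have h3 : |((x.1.sign : ℤ) : ℝ)| * |((x.2.sign : ℤ) : ℝ)| ≤ 1 :=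
      mul_le_one₀ h1 (abs_nonneg _) h2
    have h4 : 0 ≤ z ^ lv b x := by positivity
    calc |((x.1.sign : ℤ) : ℝ)| * |((x.2.sign : ℤ) : ℝ)| * z ^ lv b x * |P.p (rr b x)|
        = (|((x.1.sign : ℤ) : ℝ)| * |((x.2.sign : ℤ) : ℝ)|) * (z ^ lv b x * |P.p (rr b x)|) := by
          ring
      _ ≤ 1 * (z ^ lv b x * |P.p (rr b x)|) :=
          mul_le_mul_of_nonneg_right h3 (by positivity)
      _ ≤ z ^ lv b x * (1 + |P.p x0|) := by
          rw [one_mul]; exact mul_le_mul_of_nonneg_left (hp _) h4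
  refine ⟨1 + |P.p x0|, by linarith [abs_nonneg (P.p x0)], ?_, ?_⟩
  · intro x
    refine (hgen x).trans ?_
    have : z ^ lv b x ≤ 1 := pow_le_one₀ hz.le hz1.le
    calc z ^ lv b x * (1 + |P.p x0|) ≤ 1 * (1 + |P.p x0|) :=
          mul_le_mul_of_nonneg_right this (by positivity)
      _ = _ := one_mul _
  · intro N hN x hx
    refine (hgen x).trans ?_
    have hb0 : 0 < b := by omega
    have hlv : N - 1 ≤ lv b x := by
      unfold lv
      have g1 : 0 ≤ |x.1| / b := Int.ediv_nonneg (abs_nonneg _) hb0.le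
      have g2 : 0 ≤ |x.2| / b := Int.ediv_nonneg (abs_nonneg _) hb0.le
      rcases hx with h | h
      · have : (N : ℤ) - 1 ≤ |x.1| / b := by
          apply Int.le_ediv_of_mul_le hb0
          nlinarith
        omega
      · have : (N : ℤ) - 1 ≤ |x.2| / b := by
          apply Int.le_ediv_of_mul_le hb0
          nlinarith
        omega
    have hz2 : z ^ lv b x ≤ z ^ (N - 1) := pow_le_pow_of_le_one hz.le hz1.le hlv
    rw [mul_comm]
    exact mul_le_mul_of_nonneg_left hz2 (by positivity)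

theorem ww_port (hb : 3 ≤ b) (hz : 0 < z) (P : Prof b z) (N : ℕ) (hN : 1 ≤ N) :
    |ww b z P.p (b * N - 1, 1)| = z ^ N * |P.p (1, 1)| := by
  have hb0 : 0 < b := by omega
  have hN' : (1 : ℤ) ≤ N := by exact_mod_cast hN
  have hpos : 0 < b * (N : ℤ) - 1 := by nlinarith
  have hab : |b * (N : ℤ) - 1| = (b - 1) + b * ((N : ℤ) - 1) := by
    rw [abs_of_pos hpos]; ring
  have hdiv : |b * (N : ℤ) - 1| / b = N - 1 := by
    rw [hab, Int.add_mul_ediv_left _ _ (by omega), Int.ediv_eq_zero_of_lt (by omega) (by omega)]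
    ring
  have hmod : |b * (N : ℤ) - 1| % b = b - 1 := by
    rw [hab, Int.add_mul_emod_self_left, Int.emod_eq_of_lt (by omega) (by omega)]
  have hdiv1 : |(1 : ℤ)| / b = 0 := Int.ediv_eq_zero_of_lt (by norm_num) (by norm_num; omega)
  have hmod1 : |(1 : ℤ)| % b = 1 := by
    rw [abs_one]; exact Int.emod_eq_of_lt (by norm_num) (by omega)
  rw [abs_ww b hz, abs_sign_eq (by simp only; omega), abs_sign_eq (by simp only; omega)]
  have hlv : lv b (b * N - 1, 1) = N - 1 := by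
    unfold lv
    simp only
    rw [hdiv, hdiv1]
    omega
  have hrr : rr b (b * N - 1, 1) = (b - 1, 1) := by
    unfold rr
    simp only
    rw [hmod, hmod1]
  rw [hlv, hrr, P.side1, abs_mul, abs_of_pos hz, one_mul, one_mul, ← mul_assoc, ← pow_succ]
  congr 2
  omega

theorem ww_centre (hb : 3 ≤ b) (P : Prof b z) : ww b z P.p (1, 1) = P.p (1, 1) := by
  have hdiv1 : |(1 : ℤ)| / b = 0 := Int.ediv_eq_zero_of_lt (by norm_num) (by norm_num; omega)
  have hmod1 : |(1 : ℤ)| % b = 1 := by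
    rw [abs_one]; exact Int.emod_eq_of_lt (by norm_num) (by omega)
  unfold ww lv rr
  simp only
  rw [hdiv1, hmod1]
  simp

end Pool.Agent.Lib.MP_562b47_mp.BG
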